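import Pool.Agent.Lib.MP_1e8d1a_an.XM.Defs

/-! Row xm-A1: Lipschitz functions. -/

open MeasureTheory Set Filter Topology

namespace Pool.Agent.XM

variable {M : Type} {D : ℕ} {ι : M → Fin D → ℝ}

theorem chi_nonneg (y : Fin D → ℝ) (ρ : ℝ) (x : M) : 0 ≤ chi ι y ρ x := by
  exact le_max_left _ _

theorem chi_le_one (y : Fin D → ℝ) (ρ : ℝ) (x : M) : chi ι y ρ x ≤ 1 := by
  exact max_le zero_le_one (min_le_left _ _)

theorem chi_eq_one {y : Fin D → ℝ} {ρ : ℝ} (hρ : 0 < ρ) {x : M} (h : ‖ι x - y‖ ≤ ρ) :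
    chi ι y ρ x = 1 := by
  have h1 : ‖ι x - y‖ / ρ ≤ 1 := (div_le_one hρ).2 h
  unfold chi
  rw [min_eq_left (by linarith), max_eq_right zero_le_one]

theorem chi_eq_zero {y : Fin D → ℝ} {ρ : ℝ} (hρ : 0 < ρ) {x : M} (h : 2 * ρ ≤ ‖ι x - y‖) :
    chi ι y ρ x = 0 := by
  have h1 : 2 ≤ ‖ι x - y‖ / ρ := (le_div_iff₀ hρ).2 h
  unfold chi
  exact max_eq_left ((min_le_right _ _).trans (by linarith))

theorem A1_trunc (a b : ℝ) : |max 0 (min 1 (2 - a)) - max 0 (min 1 (2 - b))| ≤ |a - b| := by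
  have key : ∀ a b : ℝ, max 0 (min 1 (2 - a)) ≤ max 0 (min 1 (2 - b)) + |a - b| := by
    intro a b
    have h0 := abs_nonneg (a - b)
    have h1 : 2 - a ≤ 2 - b + |a - b| := by
      have := neg_abs_le (a - b)
      linarith
    apply max_le
    · exact add_nonneg (le_max_left _ _) h0
    · have h2 : min 1 (2 - a) ≤ min 1 (2 - b) + |a - b| := by
        rcases le_total 1 (2 - b) with h3 | h3
        · rw [min_eq_left h3]
          have := min_le_left 1 (2 - a)
          linarith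
        · rw [min_eq_right h3]
          have := min_le_right 1 (2 - a)
          linarith
      have h4 := le_max_right 0 (min 1 (2 - b))
      linarith
  rw [abs_le]
  have h1 := key a b
  have h2 := key b a
  rw [abs_sub_comm b a] at h2
  constructor <;> linarith

/-- `max 0 (min 1 ·)` is `1`-Lipschitz, `|‖a - y‖ - ‖b - y‖| ≤ ‖a - b‖`; bounded by `1 ≤ 1 / ρ`. -/
theorem chi_lipB (y : Fin D → ℝ) {ρ : ℝ} (hρ : 0 < ρ) (hρ1 : ρ ≤ 1) :
    LipB ι (1 / ρ) (chi ι y ρ) := by
  have h1 : 1 ≤ 1 / ρ := (one_le_div hρ).2 hρ1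
  refine ⟨fun x => ?_, fun x x' => ?_⟩
  · rw [abs_of_nonneg (chi_nonneg y ρ x)]
    exact (chi_le_one y ρ x).trans h1
  · unfold chi
    refine (A1_trunc (‖ι x - y‖ / ρ) (‖ι x' - y‖ / ρ)).trans ?_
    rw [← sub_div, abs_div, abs_of_pos hρ, one_div, inv_mul_eq_div]
    apply div_le_div_of_nonneg_right _ hρ.le
    refine (abs_norm_sub_norm_le _ _).trans (le_of_eq ?_)
    congr 1
    abel

/-- `|f x g x - f y g y| ≤ |f x| |g x - g y| + |g y| |f x - f y|`. -/
theorem LipB.mul {K K' : ℝ} {f g : M → ℝ} (hf : LipB ι K f) (hg : LipB ι K' g) :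
    LipB ι (2 * K * K') (fun x => f x * g x) := by
  refine ⟨fun x => ?_, fun x y => ?_⟩
  · have h1 := hf.1 x
    have h2 := hg.1 x
    have h3 := abs_nonneg (f x)
    have h4 := abs_nonneg (g x)
    have h5 : 0 ≤ K := h3.trans h1
    have h6 : 0 ≤ K' := h4.trans h2
    rw [abs_mul]
    have h7 : |f x| * |g x| ≤ K * K' := mul_le_mul h1 h2 h4 h5
    have h8 : 0 ≤ K * K' := mul_nonneg h5 h6
    linarith
  · have h1 := hf.1 x
    have h2 := hg.1 y
    have h3 := hf.2 x y
    have h4 := hg.2 x y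
    have h5 : 0 ≤ K := (abs_nonneg (f x)).trans h1
    have h6 : 0 ≤ K' := (abs_nonneg (g y)).trans h2
    have h7 : f x * g x - f y * g y = f x * (g x - g y) + g y * (f x - f y) := by ring
    have h8 : |f x * (g x - g y)| ≤ K * (K' * ‖ι x - ι y‖) := by
      rw [abs_mul]
      exact mul_le_mul h1 h4 (abs_nonneg _) h5
    have h9 : |g y * (f x - f y)| ≤ K' * (K * ‖ι x - ι y‖) := by
      rw [abs_mul]
      exact mul_le_mul h2 h3 (abs_nonneg _) h6
    show |f x * g x - f y * g y| ≤ _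
    rw [h7]
    refine (abs_add_le _ _).trans ((add_le_add h8 h9).trans (le_of_eq ?_))
    ring

theorem LipB.one : LipB ι 1 (fun _ : M => (1 : ℝ)) := by
  refine ⟨fun x => by simp, fun x y => ?_⟩
  have h1 : |(1 : ℝ) - 1| = 0 := by simp
  show |(1 : ℝ) - 1| ≤ _
  rw [h1, one_mul]
  exact norm_nonneg _

/-- `f` is continuous: `|f x - f y| ≤ K ‖ι x - ι y‖ → 0` (`tendsto_iff_dist_tendsto_zero`, `squeeze_zero`). -/
theorem LipB.continuous [TopologicalSpace M] (hι : Continuous ι) {K : ℝ} {f : M → ℝ}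
    (hf : LipB ι K f) : Continuous f := by
  rw [continuous_iff_continuousAt]
  intro y
  unfold ContinuousAt
  rw [tendsto_iff_dist_tendsto_zero]
  have h1 : Tendsto (fun x => K * ‖ι x - ι y‖) (𝓝 y) (𝓝 0) := by
    have h2 : Continuous fun x => K * ‖ι x - ι y‖ :=
      continuous_const.mul (hι.sub continuous_const).norm
    exact h2.tendsto' y 0 (by simp)
  refine squeeze_zero (fun x => dist_nonneg) (fun x => ?_) h1
  rw [Real.dist_eq]
  exact hf.2 x y

/-- `Integrable.of_bound`. -/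
theorem LipB.integrable [TopologicalSpace M] [MeasurableSpace M] [BorelSpace M] (hι : Continuous ι)
    (μ : Measure M) [IsProbabilityMeasure μ] {K : ℝ} {f : M → ℝ} (hf : LipB ι K f) :
    Integrable f μ := by
  refine Integrable.of_bound (hf.continuous hι).aestronglyMeasurable K (Eventually.of_forall fun x => ?_)
  rw [Real.norm_eq_abs]
  exact hf.1 x

/-- `bset` is open (preimage of an open set), hence measurable. -/
theorem bset_measurable [TopologicalSpace M] [MeasurableSpace M] [BorelSpace M] (hι : Continuous ι)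
    (y : Fin D → ℝ) (ρ : ℝ) : MeasurableSet (bset ι y ρ) := by
  exact (isOpen_lt (hι.sub continuous_const).norm continuous_const).measurableSet

theorem short_measurable [TopologicalSpace M] [MeasurableSpace M] [BorelSpace M] (hι : Continuous ι)
    {g : M → M} (hg : Continuous g) (J : ℕ) (t : ℝ) : MeasurableSet (short ι g J t) := by
  have h1 : short ι g J t = ⋃ j : ℕ, ⋃ _ : 1 ≤ j, ⋃ _ : j ≤ J, {x | ‖ι (g^[j] x) - ι x‖ < t} := by
    ext x
    simp only [short, mem_ofPred_eq, mem_iUnion, exists_prop]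
  rw [h1]
  refine (isOpen_iUnion fun j => isOpen_iUnion fun _ => isOpen_iUnion fun _ => ?_).measurableSet
  exact isOpen_lt ((hι.comp (hg.iterate j)).sub hι).norm continuous_const

/-- `bset y ρ ≤ χ`: integrate the indicator (`integral_indicator_one`, `integral_mono`). -/
theorem real_bset_le_integral_chi [TopologicalSpace M] [MeasurableSpace M] [BorelSpace M]
    (hι : Continuous ι) (μ : Measure M) [IsProbabilityMeasure μ] (y : Fin D → ℝ) {ρ : ℝ}
    (hρ : 0 < ρ) (hρ1 : ρ ≤ 1) : μ.real (bset ι y ρ) ≤ ∫ x, chi ι y ρ x ∂μ := by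
  have hm := bset_measurable hι y ρ
  rw [← integral_indicator_one hm]
  apply integral_mono
  · exact (integrable_const (1 : ℝ)).indicator hm
  · exact (chi_lipB y hρ hρ1).integrable hι μ
  · intro x
    show (bset ι y ρ).indicator 1 x ≤ chi ι y ρ x
    by_cases hx : x ∈ bset ι y ρ
    · rw [indicator_of_mem hx, chi_eq_one hρ (le_of_lt hx)]
      exact le_refl _
    · rw [indicator_of_notMem hx]
      exact chi_nonneg y ρ x

/-- `χ` is at most the indicator of `bset y (2 ρ)`. -/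
theorem integral_chi_le [TopologicalSpace M] [MeasurableSpace M] [BorelSpace M]
    (hι : Continuous ι) (μ : Measure M) [IsProbabilityMeasure μ] (y : Fin D → ℝ) {ρ : ℝ}
    (hρ : 0 < ρ) (hρ1 : ρ ≤ 1) : ∫ x, chi ι y ρ x ∂μ ≤ μ.real (bset ι y (2 * ρ)) := by
  have hm := bset_measurable hι y (2 * ρ)
  rw [← integral_indicator_one hm]
  apply integral_mono
  · exact (chi_lipB y hρ hρ1).integrable hι μ
  · exact (integrable_const (1 : ℝ)).indicator hm
  · intro x
    show chi ι y ρ x ≤ (bset ι y (2 * ρ)).indicator 1 x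
    by_cases hx : x ∈ bset ι y (2 * ρ)
    · rw [indicator_of_mem hx]
      exact chi_le_one y ρ x
    · rw [indicator_of_notMem hx, chi_eq_zero hρ (not_lt.1 hx)]

end Pool.Agent.XM
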