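import Pool.Agent.Lib.MP_1e8d1a_an.XM.A1

/-! Consequences of the standing assumptions. -/

open MeasureTheory Set Filter Topology

namespace Pool.Agent.XM

variable {M : Type} {D : ℕ} {ι : M → Fin D → ℝ} [TopologicalSpace M] [MeasurableSpace M]
  {F : M ≃ₜ M} {μ : Measure M} {C θ Λ R : ℝ}

/-- exponential mixing -/
theorem Sys.mix2 [IsProbabilityMeasure μ] (h : Sys ι F μ C θ Λ R) {K K' : ℝ} {f g : M → ℝ}
    (hf : LipB ι K f) (hg : LipB ι K' g) (n : ℕ) :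
    |∫ x, f x * g ((⇑F)^[n] x) ∂μ - (∫ x, f x ∂μ) * ∫ x, g x ∂μ| ≤ C * θ ^ n * K * K' :=
  h.mix n f g K K' hf hg

/-- a map which is `Λ`-Lipschitz: the iterates -/
theorem lip_iter {g : M → M} (hΛ : 1 ≤ Λ) (hg : ∀ x y, ‖ι (g x) - ι (g y)‖ ≤ Λ * ‖ι x - ι y‖)
    (n : ℕ) (x y : M) : ‖ι (g^[n] x) - ι (g^[n] y)‖ ≤ Λ ^ n * ‖ι x - ι y‖ := by
  induction n with
  | zero => simp
  | succ n ih =>
    rw [Function.iterate_succ_apply', Function.iterate_succ_apply', pow_succ']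
    calc ‖ι (g (g^[n] x)) - ι (g (g^[n] y))‖ ≤ Λ * ‖ι (g^[n] x) - ι (g^[n] y)‖ := hg _ _
      _ ≤ Λ * (Λ ^ n * ‖ι x - ι y‖) := mul_le_mul_of_nonneg_left ih (by linarith)
      _ = Λ * Λ ^ n * ‖ι x - ι y‖ := by ring

theorem symm_iter (F : M ≃ₜ M) (n : ℕ) (x : M) : (⇑F.symm)^[n] ((⇑F)^[n] x) = x := by
  have h1 : Function.LeftInverse (⇑F.symm) (⇑F) := F.symm_apply_apply
  exact h1.iterate n x

/-- `F^[j] x = F.symm^[i] (F^[j + i] x)` -/
theorem iter_eq_symm (F : M ≃ₜ M) (i j : ℕ) (x : M) :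
    (⇑F)^[j] x = (⇑F.symm)^[i] ((⇑F)^[j + i] x) := by
  rw [add_comm j i, Function.iterate_add_apply, symm_iter]

/-- the invariance of the measure under the inverse: the set of the returns of `F.symm` at the time `n`
is the preimage under `F.symm^[n]` of the set of the returns of `F` (`x = F^[n] z`). -/
theorem Sys.return_symm [BorelSpace M] (h : Sys ι F μ C θ Λ R) (n : ℕ) (v : ℝ) :
    μ {x | ‖ι ((⇑F.symm)^[n] x) - ι x‖ < v} = μ {x | ‖ι ((⇑F)^[n] x) - ι x‖ < v} := by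
  have hcF : Continuous ((⇑F.symm)^[n]) := F.symm.continuous.iterate n
  have hA : MeasurableSet {x | ‖ι ((⇑F.symm)^[n] x) - ι x‖ < v} :=
    (isOpen_lt (((h.cont.comp hcF).sub h.cont).norm) continuous_const).measurableSet
  have h1 : μ ((⇑F)^[n] ⁻¹' {x | ‖ι ((⇑F.symm)^[n] x) - ι x‖ < v}) =
      μ {x | ‖ι ((⇑F.symm)^[n] x) - ι x‖ < v} :=
    (h.inv.iterate n).measure_preimage hA.nullMeasurableSet
  rw [← h1]
  congr 1
  ext z
  simp only [Set.mem_preimage, Set.mem_setOf_eq, symm_iter]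
  rw [norm_sub_rev]

end Pool.Agent.XM
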