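import Pool.Agent.Lib.MP_1e8d1a_an.XM.A2

/-! Row xm-A3: the measure of small balls, one step. -/

open MeasureTheory Set Filter Topology

namespace Pool.Agent.XM

variable {M : Type} {D : ℕ} {ι : M → Fin D → ℝ} [TopologicalSpace M] [MeasurableSpace M]
  [BorelSpace M] {F : M ≃ₜ M} {μ : Measure M} [IsProbabilityMeasure μ] {C θ Λ R : ℝ}

omit [MeasurableSpace M] [BorelSpace M] in
theorem A3_chi_continuous (hι : Continuous ι) (y : Fin D → ℝ) {w : ℝ} (hw : 0 < w) (hw1 : w ≤ 1) :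
    Continuous (chi ι y w) := (chi_lipB y hw hw1).continuous hι

theorem A3_le_integral (hι : Continuous ι) {g : M → M} (hg : Continuous g) (y y' : Fin D → ℝ)
    {w v : ℝ} (hw : 0 < w) (hw1 : w ≤ 1)
    (h : ∀ x ∈ bset ι y v, chi ι y w x = 1 ∧ chi ι y' w (g x) = 1) :
    μ.real (bset ι y v) ≤ ∫ x, chi ι y w x * chi ι y' w (g x) ∂μ := by
  have h1 : Integrable (fun x => chi ι y w x * chi ι y' w (g x)) μ := by
    refine Integrable.of_bound (C := 1) (Continuous.aestronglyMeasurable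
      ((A3_chi_continuous hι y hw hw1).mul ((A3_chi_continuous hι y' hw hw1).comp hg))) ?_
    refine ae_of_all _ fun x => ?_
    rw [Real.norm_eq_abs, abs_of_nonneg (mul_nonneg (chi_nonneg _ _ _) (chi_nonneg _ _ _))]
    exact mul_le_one₀ (chi_le_one _ _ _) (chi_nonneg _ _ _) (chi_le_one _ _ _)
  have h2 : ∫ x, (bset ι y v).indicator (1 : M → ℝ) x ∂μ = μ.real (bset ι y v) :=
    integral_indicator_one (bset_measurable hι y v)
  rw [← h2]
  refine integral_mono ?_ h1 ?_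
  · exact (integrable_const (1 : ℝ)).indicator (bset_measurable hι y v)
  · intro x
    by_cases hx : x ∈ bset ι y v
    · rw [Set.indicator_of_mem hx]
      obtain ⟨h3, h4⟩ := h x hx
      show (1 : ℝ) ≤ chi ι y w x * chi ι y' w (g x)
      rw [h3, h4, one_mul]
    · rw [Set.indicator_of_notMem hx]
      exact mul_nonneg (chi_nonneg _ _ _) (chi_nonneg _ _ _)

/-- If `bset y v` is empty then its measure is `0`. Otherwise let `x₀` be one of its points and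
`y' = ι (F^[n] x₀)`. For `x` in `bset y v`: `‖ι x - y‖ < v ≤ w` (note `v ≤ 2 Λ^n v ≤ w`, since `v > 0`), so
`chi y w x = 1`; `‖ι (F^[n] x) - y'‖ ≤ Λ^n ‖ι x - ι x₀‖ ≤ Λ^n (2 v) ≤ w` (`lip_iter`), so
`chi y' w (F^[n] x) = 1`. Hence `μ (bset y v) ≤ ∫ chi y w * chi y' w ∘ F^[n]`
`≤ (∫ chi y w) (∫ chi y' w) + C θ^n (1/w) (1/w)` (`mix2`, `chi_lipB`) `≤ κ ^ 2 + C θ^n / w^2` (`integral_chi_le`). -/
theorem Sys.ball_le (h : Sys ι F μ C θ Λ R) (n : ℕ) {w v κ : ℝ} (hw : 0 < w) (hw1 : w ≤ 1)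
    (hv : 2 * Λ ^ n * v ≤ w) (hκ : ∀ y, μ.real (bset ι y (2 * w)) ≤ κ) (y : Fin D → ℝ) :
    μ.real (bset ι y v) ≤ κ ^ 2 + C * θ ^ n / w ^ 2 := by
  have hC : 0 ≤ C := by linarith [h.one_le_C]
  have hθ := h.θ_pos
  have hΛ : (1 : ℝ) ≤ Λ := by linarith [h.two_le_Λ]
  rcases (bset ι y v).eq_empty_or_nonempty with hemp | ⟨x₀, hx₀⟩
  · rw [hemp, measureReal_empty]
    positivity
  have hx₀' : ‖ι x₀ - y‖ < v := hx₀
  have hv0 : 0 < v := lt_of_le_of_lt (norm_nonneg _) hx₀'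
  have hΛn : (1 : ℝ) ≤ Λ ^ n := one_le_pow₀ hΛ
  have hvw : v ≤ w := by nlinarith
  obtain ⟨y', hy'⟩ : ∃ y' : Fin D → ℝ, y' = ι ((⇑F)^[n] x₀) := ⟨_, rfl⟩
  have h1 : μ.real (bset ι y v) ≤ ∫ x, chi ι y w x * chi ι y' w ((⇑F)^[n] x) ∂μ := by
    refine A3_le_integral h.cont (F.continuous.iterate n) y y' hw hw1 ?_
    intro x hx
    have hx' : ‖ι x - y‖ < v := hx
    refine ⟨chi_eq_one hw (hx'.le.trans hvw), chi_eq_one hw ?_⟩
    rw [hy']
    have h2 := lip_iter hΛ h.lip n x x₀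
    have h3 : ‖ι x - ι x₀‖ ≤ 2 * v := by
      have h4 : ι x - ι x₀ = (ι x - y) - (ι x₀ - y) := by abel
      rw [h4]
      refine (norm_sub_le _ _).trans ?_
      linarith
    calc ‖ι ((⇑F)^[n] x) - ι ((⇑F)^[n] x₀)‖ ≤ Λ ^ n * ‖ι x - ι x₀‖ := h2
      _ ≤ Λ ^ n * (2 * v) := mul_le_mul_of_nonneg_left h3 (by positivity)
      _ = 2 * Λ ^ n * v := by ring
      _ ≤ w := hv
  have h2 := h.mix2 (chi_lipB (ι := ι) y hw hw1) (chi_lipB (ι := ι) y' hw hw1) n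
  have h3 : ∫ x, chi ι y w x ∂μ ≤ κ := (integral_chi_le h.cont μ y hw hw1).trans (hκ y)
  have h4 : ∫ x, chi ι y' w x ∂μ ≤ κ := (integral_chi_le h.cont μ y' hw hw1).trans (hκ y')
  have h5 : 0 ≤ ∫ x, chi ι y w x ∂μ := integral_nonneg fun x => chi_nonneg _ _ _
  have h6 : 0 ≤ ∫ x, chi ι y' w x ∂μ := integral_nonneg fun x => chi_nonneg _ _ _
  have h7 : (∫ x, chi ι y w x ∂μ) * ∫ x, chi ι y' w x ∂μ ≤ κ ^ 2 := by
    rw [pow_two]
    exact mul_le_mul h3 h4 h6 (h5.trans h3)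
  have h8 := (abs_le.1 h2).2
  have h9 : C * θ ^ n * (1 / w) * (1 / w) = C * θ ^ n / w ^ 2 := by
    field_simp
  rw [h9] at h8
  linarith

end Pool.Agent.XM
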