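import Pool.Agent.Lib.MP_1e8d1a_an.XM.A1

/-! Row xm-A4: small balls of large measure give an atom. -/

open MeasureTheory Set Filter Topology

namespace Pool.Agent.XM

variable {M : Type} {D : ℕ} {ι : M → Fin D → ℝ} [TopologicalSpace M] [MeasurableSpace M]
  [BorelSpace M] {μ : Measure M} [IsProbabilityMeasure μ]

/-- For `k` large (`1 / (k+1) < α`) choose `y k` with `α - 1 / (k+1) < μ.real (bset ι (y k) (1 / (k+1)))`. This set is not
empty, so `‖y k‖ ≤ R + 1`; a subsequence converges to some `y*` (`IsCompact.tendsto_subseq`,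
`isCompact_closedBall`). For every `ρ > 0`: `bset (y k) (1 / (k+1)) ⊆ bset y* ρ` for large `k` of the subsequence, so
`α ≤ μ.real (bset y* ρ)`. The sets `bset y* (1 / (i+1))` decrease to `{x | ι x = y*}`
(`tendsto_measure_iInter_atTop` or `MeasureTheory.tendsto_measure_iInter_nat`), so `α ≤ μ.real {x | ι x = y*}`; this set is not
empty since `α > 0`, say it contains `x`, and is `{x}` since `ι` is injective. -/
theorem exists_atom (hι : Continuous ι) (hinj : Function.Injective ι) {R : ℝ} (hR : ∀ x, ‖ι x‖ ≤ R)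
    {α : ℝ} (hα : 0 < α) (h : ∀ ρ : ℝ, 0 < ρ → ∃ y, α - ρ < μ.real (bset ι y ρ)) :
    ∃ x : M, α ≤ μ.real {x} := by
  have hρ0 : ∀ k : ℕ, 0 < α / ((k : ℝ) + 1) := fun k => div_pos hα (by positivity)
  have hρα : ∀ k : ℕ, α / ((k : ℝ) + 1) ≤ α := by
    intro k
    refine div_le_self hα.le ?_
    have : (0 : ℝ) ≤ k := Nat.cast_nonneg k
    linarith
  have hlim : Tendsto (fun k : ℕ => α / ((k : ℝ) + 1)) atTop (𝓝 0) := by
    have h1 := (tendsto_one_div_add_atTop_nhds_zero_nat (𝕜 := ℝ)).const_mul α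
    rw [mul_zero] at h1
    refine h1.congr fun k => ?_
    rw [mul_one_div]
  choose y hy using fun k : ℕ => h (α / ((k : ℝ) + 1)) (hρ0 k)
  have hyK : ∀ k, y k ∈ Metric.closedBall (0 : Fin D → ℝ) (R + α) := by
    intro k
    have hpos : 0 < μ.real (bset ι (y k) (α / ((k : ℝ) + 1))) := by
      have h1 := hy k
      have h2 := hρα k
      linarith
    have hne : (bset ι (y k) (α / ((k : ℝ) + 1))).Nonempty := by
      by_contra hc
      rw [Set.not_nonempty_iff_eq_empty] at hc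
      rw [hc, measureReal_empty] at hpos
      exact lt_irrefl _ hpos
    obtain ⟨x, hx⟩ := hne
    have hx2 : ‖ι x - y k‖ < α / ((k : ℝ) + 1) := hx
    rw [mem_closedBall_zero_iff]
    have h3 : y k = ι x - (ι x - y k) := by abel
    have h4 : ‖y k‖ ≤ ‖ι x‖ + ‖ι x - y k‖ := by
      conv_lhs => rw [h3]
      exact norm_sub_le _ _
    have h5 := hR x
    have h6 := hρα k
    linarith
  obtain ⟨ys, -, φ, hφ, hyl⟩ := (isCompact_closedBall (0 : Fin D → ℝ) (R + α)).tendsto_subseq hyK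
  have hφl : Tendsto (fun k : ℕ => α / ((φ k : ℝ) + 1)) atTop (𝓝 0) := hlim.comp hφ.tendsto_atTop
  have key : ∀ ρ : ℝ, 0 < ρ → α ≤ μ.real (bset ι ys ρ) := by
    intro ρ hρ
    have h1 : Tendsto (fun k : ℕ => α - α / ((φ k : ℝ) + 1)) atTop (𝓝 α) := by
      have h2 := hφl.const_sub α
      rwa [sub_zero] at h2
    refine le_of_tendsto h1 ?_
    have h3 : ∀ᶠ k in atTop, dist (y (φ k)) ys < ρ / 2 :=
      (Metric.tendsto_atTop.1 hyl (ρ / 2) (by linarith)).elim fun n hn => eventually_atTop.2 ⟨n, hn⟩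
    have h4 : ∀ᶠ k in atTop, α / ((φ k : ℝ) + 1) < ρ / 2 := hφl.eventually_lt_const (by linarith)
    filter_upwards [h3, h4] with k h5 h6
    refine (hy (φ k)).le.trans (measureReal_mono ?_)
    intro x hx
    have hx2 : ‖ι x - y (φ k)‖ < α / ((φ k : ℝ) + 1) := hx
    show ‖ι x - ys‖ < ρ
    have h7 : ι x - ys = (ι x - y (φ k)) + (y (φ k) - ys) := by abel
    rw [h7]
    rw [dist_eq_norm] at h5
    refine (norm_add_le _ _).trans_lt ?_
    linarith
  have hanti : Antitone (fun i : ℕ => bset ι ys (1 / ((i : ℝ) + 1))) := by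
    intro i j hij x hx
    have hx2 : ‖ι x - ys‖ < 1 / ((j : ℝ) + 1) := hx
    show ‖ι x - ys‖ < 1 / ((i : ℝ) + 1)
    refine hx2.trans_le (one_div_le_one_div_of_le (by positivity) ?_)
    have : (i : ℝ) ≤ j := Nat.cast_le.2 hij
    linarith
  have hms : ∀ i : ℕ, NullMeasurableSet (bset ι ys (1 / ((i : ℝ) + 1))) μ := fun i =>
    (bset_measurable hι ys _).nullMeasurableSet
  have hT := tendsto_measure_iInter_atTop hms hanti ⟨0, measure_ne_top μ _⟩
  have hT2 : Tendsto (fun i : ℕ => μ.real (bset ι ys (1 / ((i : ℝ) + 1)))) atTop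
      (𝓝 (μ.real (⋂ i : ℕ, bset ι ys (1 / ((i : ℝ) + 1))))) :=
    (ENNReal.tendsto_toReal (measure_ne_top μ _)).comp hT
  have hle : α ≤ μ.real (⋂ i : ℕ, bset ι ys (1 / ((i : ℝ) + 1))) :=
    ge_of_tendsto' hT2 fun i => key _ (by positivity)
  have hsub : ∀ x ∈ (⋂ i : ℕ, bset ι ys (1 / ((i : ℝ) + 1))), ι x = ys := by
    intro x hx
    rw [Set.mem_iInter] at hx
    have h1 : ‖ι x - ys‖ ≤ 0 :=
      ge_of_tendsto' (tendsto_one_div_add_atTop_nhds_zero_nat (𝕜 := ℝ)) fun i => le_of_lt (hx i)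
    exact sub_eq_zero.1 (norm_le_zero_iff.1 h1)
  have hne : (⋂ i : ℕ, bset ι ys (1 / ((i : ℝ) + 1))).Nonempty := by
    by_contra hc
    rw [Set.not_nonempty_iff_eq_empty] at hc
    rw [hc, measureReal_empty] at hle
    linarith
  obtain ⟨x, hx⟩ := hne
  refine ⟨x, hle.trans (measureReal_mono ?_)⟩
  intro z hz
  rw [Set.mem_singleton_iff]
  exact hinj ((hsub z hz).trans (hsub x hx).symm)

end Pool.Agent.XM
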