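import Pool.Agent.Lib.MP_1e8d1a_an.XM.A3
import Pool.Agent.Lib.MP_1e8d1a_an.XM.A4

/-! Row xm-A5: the measure of small balls is uniformly small. -/

open MeasureTheory Set Filter Topology

namespace Pool.Agent.XM

variable {M : Type} {D : ℕ} {ι : M → Fin D → ℝ} [TopologicalSpace M] [MeasurableSpace M]
  [BorelSpace M] {F : M ≃ₜ M} {μ : Measure M} [IsProbabilityMeasure μ] {C θ Λ R : ℝ}

/-- Let `G ρ = ⨆ y, μ.real (bset y ρ)` (bounded by `1`, increasing in `ρ`) and `α = ⨅ ρ > 0, G ρ` (or: the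
infimum of the set of the `G ρ`, `ρ > 0`). Suppose `α > 0` (otherwise done). For `w ∈ (0, 1]` and every `n`: `ball_le` with
`v = w / (2 Λ^n)` and `κ = G (2 w)` gives `α ≤ G v ≤ (G (2 w))^2 + C θ^n / w^2`; `n → ∞`: `α ≤ (G (2 w))^2`; `w → 0`:
`α ≤ α^2` (`G (2 w) < α + ε` for small `w`), so `α ≥ 1`. For every `ρ > 0` there is `y` with `1 - ρ < μ.real (bset y ρ)`, so
`exists_atom` gives `x` with `1 ≤ μ.real {x}`, so `μ {x} = 1`: contradiction to `h.nd`. -/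
theorem Sys.small_balls (h : Sys ι F μ C θ Λ R) {κ : ℝ} (hκ : 0 < κ) :
    ∃ ρ : ℝ, 0 < ρ ∧ ∀ y, μ.real (bset ι y ρ) ≤ κ := by
  by_contra hcon
  push Not at hcon
  set S : Set ℝ := {a | ∃ ρ : ℝ, 0 < ρ ∧ ∀ y, μ.real (bset ι y ρ) ≤ a} with hS
  have h1S : (1 : ℝ) ∈ S := ⟨1, one_pos, fun y => measureReal_le_one⟩
  have hpos : ∀ a ∈ S, κ < a := by
    rintro a ⟨ρ, hρ, ha⟩
    obtain ⟨y, hy⟩ := hcon ρ hρ
    exact hy.trans_le (ha y)
  have hbdd : BddBelow S := ⟨κ, fun a ha => (hpos a ha).le⟩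
  have hκα : κ ≤ sInf S := le_csInf ⟨1, h1S⟩ fun a ha => (hpos a ha).le
  have hstep : ∀ a ∈ S, sInf S ≤ a ^ 2 := by
    rintro a ⟨ρ, hρ, ha⟩
    obtain ⟨w, hw0, hw1, hwρ⟩ : ∃ w : ℝ, 0 < w ∧ w ≤ 1 ∧ 2 * w ≤ ρ := by
      refine ⟨min (ρ / 2) 1, lt_min (half_pos hρ) one_pos, min_le_right _ _, ?_⟩
      have := min_le_left (ρ / 2) 1
      linarith
    have hκ' : ∀ y, μ.real (bset ι y (2 * w)) ≤ a := fun y =>
      (measureReal_mono (fun x hx => lt_of_lt_of_le hx hwρ)).trans (ha y)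
    have hn : ∀ n : ℕ, sInf S ≤ a ^ 2 + C * θ ^ n / w ^ 2 := by
      intro n
      have hΛ : (0 : ℝ) < Λ ^ n := pow_pos (by linarith [h.two_le_Λ]) n
      have h2Λ : (0 : ℝ) < 2 * Λ ^ n := by linarith
      refine csInf_le hbdd ⟨w / (2 * Λ ^ n), div_pos hw0 h2Λ, fun y => h.ball_le n hw0 hw1 ?_ hκ' y⟩
      rw [mul_div_cancel₀ _ h2Λ.ne']
    have ht : Tendsto (fun n : ℕ => a ^ 2 + C * θ ^ n / w ^ 2) atTop (𝓝 (a ^ 2 + C * 0 / w ^ 2)) :=
      (((tendsto_pow_atTop_nhds_zero_of_lt_one h.θ_pos.le h.θ_lt).const_mul C).div_const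
        (w ^ 2)).const_add (a ^ 2)
    have h5 := ge_of_tendsto' ht hn
    rwa [mul_zero, zero_div, add_zero] at h5
  have hα0 : 0 < sInf S := hκ.trans_le hκα
  have hsq : Real.sqrt (sInf S) ≤ sInf S := le_csInf ⟨1, h1S⟩ fun a ha =>
    (Real.sqrt_le_left (hκ.trans (hpos a ha)).le).2 (hstep a ha)
  have h1α : 1 ≤ sInf S := by
    have h2 : sInf S ≤ sInf S ^ 2 := (Real.sqrt_le_left hα0.le).1 hsq
    by_contra hlt
    push Not at hlt
    have h3 : sInf S ^ 2 < sInf S := by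
      rw [sq]
      calc sInf S * sInf S < 1 * sInf S := mul_lt_mul_of_pos_right hlt hα0
        _ = sInf S := one_mul _
    linarith
  obtain ⟨x, hx⟩ := exists_atom (μ := μ) h.cont h.inj h.bound one_pos (fun ρ hρ => by
    by_contra hne
    push Not at hne
    have h4 : sInf S ≤ 1 - ρ := csInf_le hbdd ⟨ρ, hρ, hne⟩
    linarith)
  apply h.nd x
  refine le_antisymm prob_le_one ?_
  have h6 := ENNReal.ofReal_le_ofReal hx
  rwa [ENNReal.ofReal_one, Measure.real, ENNReal.ofReal_toReal (measure_ne_top _ _)] at h6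

end Pool.Agent.XM
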