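import Pool.Agent.Lib.MP_1e8d1a_an.XM.A5

/-! Row xm-A6: times `m` for which balls of size `4 a^m` have measure `o(1/m)`. -/

open MeasureTheory Set Filter Topology

namespace Pool.Agent.XM

variable {M : Type} {D : ℕ} {ι : M → Fin D → ℝ} [TopologicalSpace M] [MeasurableSpace M]
  [BorelSpace M] {F : M ≃ₜ M} {μ : Measure M} [IsProbabilityMeasure μ] {C θ Λ R : ℝ}

theorem A6_step (h : Sys ι F μ C θ Λ R) {a : ℝ} (ha : 0 < a) {L n : ℕ} (hL : 1 ≤ L)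
    (hn : 1 ≤ n) (hLa : 4 * Λ * a ^ (L - 1) ≤ 1) (h2 : 2 * a ^ n ≤ 1) {κ : ℝ}
    (hκ : ∀ y, μ.real (bset ι y (4 * a ^ n)) ≤ κ) (y : Fin D → ℝ) :
    μ.real (bset ι y (4 * a ^ (L * n))) ≤ κ ^ 2 + C * (θ / a ^ 2) ^ n := by
  have han : 0 < a ^ n := pow_pos ha n
  have hΛ : 0 < Λ := by linarith [h.two_le_Λ]
  have hv : 2 * Λ ^ n * (4 * a ^ (L * n)) ≤ 2 * a ^ n := by
    have e1 : a ^ (L * n) = (a ^ (L - 1)) ^ n * a ^ n := by
      rw [← pow_mul, ← pow_add]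
      congr 1
      obtain ⟨l, rfl⟩ : ∃ l, L = l + 1 := ⟨L - 1, by omega⟩
      rw [Nat.add_sub_cancel]
      ring
    have e2 : (4 : ℝ) ≤ 4 ^ n := by
      calc (4 : ℝ) = 4 ^ 1 := (pow_one _).symm
        _ ≤ 4 ^ n := pow_le_pow_right₀ (by norm_num) hn
    have e3 : 0 ≤ Λ ^ n * (a ^ (L - 1)) ^ n := by positivity
    have e4 : 4 * (Λ ^ n * (a ^ (L - 1)) ^ n) ≤ 1 := by
      calc 4 * (Λ ^ n * (a ^ (L - 1)) ^ n) ≤ 4 ^ n * (Λ ^ n * (a ^ (L - 1)) ^ n) :=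
            mul_le_mul_of_nonneg_right e2 e3
        _ = (4 * Λ * a ^ (L - 1)) ^ n := by rw [mul_pow, mul_pow]; ring
        _ ≤ 1 := pow_le_one₀ (by positivity) hLa
    calc 2 * Λ ^ n * (4 * a ^ (L * n)) = 2 * a ^ n * (4 * (Λ ^ n * (a ^ (L - 1)) ^ n)) := by
          rw [e1]; ring
      _ ≤ 2 * a ^ n * 1 := mul_le_mul_of_nonneg_left e4 (by positivity)
      _ = 2 * a ^ n := mul_one _
  have h4 : 2 * (2 * a ^ n) = 4 * a ^ n := by ring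
  have h1 := h.ball_le n (w := 2 * a ^ n) (v := 4 * a ^ (L * n)) (κ := κ) (by positivity) h2 hv
    (by rw [h4]; exact hκ) y
  refine h1.trans ?_
  have hC : 0 < C := by linarith [h.one_le_C]
  have hθ := h.θ_pos
  have e5 : C * θ ^ n / (2 * a ^ n) ^ 2 ≤ C * (θ / a ^ 2) ^ n := by
    have e6 : C * (θ / a ^ 2) ^ n = C * θ ^ n / (a ^ n) ^ 2 := by
      rw [div_pow, ← pow_mul, ← pow_mul, mul_comm 2 n]
      ring
    rw [e6]
    apply div_le_div_of_nonneg_left (by positivity) (by positivity)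
    nlinarith [sq_nonneg (a ^ n)]
  linarith

omit [TopologicalSpace M] [BorelSpace M] in
theorem A6_bset_mono {y : Fin D → ℝ} {ρ ρ' : ℝ} (h : ρ ≤ ρ') :
    μ.real (bset ι y ρ) ≤ μ.real (bset ι y ρ') :=
  measureReal_mono fun x (hx : ‖ι x - y‖ < ρ) => lt_of_lt_of_le hx h

/-- Choose `L ≥ 2` with `4 Λ a^(L-1) ≤ 1`. STEP: if `2 a^n ≤ 1`, `n ≥ 1` and `μ.real (bset y (4 a^n)) ≤ κ` for all `y` then
`μ.real (bset y (4 a^(L n))) ≤ κ^2 + C (θ / a^2)^n` for all `y`: `ball_le` with `w = 2 a^n`, `v = 4 a^(L n)`: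
`2 Λ^n (4 a^(L n)) = 2 a^n (4 Λ^n (a^(L-1))^n) ≤ 2 a^n (4 Λ a^(L-1))^n ≤ 2 a^n` and `C θ^n / (4 a^(2n)) ≤ C (θ/a^2)^n`.
Let `κ₀ = 1 / (4 L)`, `β = θ / a^2 < 1`. By `small_balls` and `n β^n → 0` (`tendsto_self_mul_const_pow_of_lt_one`) there is
`n₁ ≥ max m₀ 1` with: `2 a^n ≤ 1`, `C β^n ≤ κ₀ / 2`, `L n C β^n ≤ ε / 4` for all `n ≥ n₁`, and
`μ.real (bset y (4 a^n₁)) ≤ κ₀` for all `y`. With `m_k = L^k n₁`, `κ_(k+1) = κ_k^2 + C β^(m_k)`: by induction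
`κ_k ≤ κ₀`, `μ.real (bset y (4 a^(m_k))) ≤ κ_k`, and `m_(k+1) κ_(k+1) = L m_k κ_k κ_k + L m_k C β^(m_k) ≤ m_k κ_k / 4 + ε / 4`,
so `m_k κ_k ≤ n₁ κ₀ / 4^k + ε / 2`, which is `≤ ε` for large `k`. -/
theorem Sys.exists_time (h : Sys ι F μ C θ Λ R) {a : ℝ} (ha : 0 < a) (ha1 : a < 1) (hθ : θ < a ^ 2)
    {ε : ℝ} (hε : 0 < ε) (m₀ : ℕ) :
    ∃ m : ℕ, m₀ ≤ m ∧ ∀ y, (m : ℝ) * μ.real (bset ι y (4 * a ^ m)) ≤ ε := by
  have hΛ : 0 < Λ := by linarith [h.two_le_Λ]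
  have hC : 0 < C := by linarith [h.one_le_C]
  have hθ0 := h.θ_pos
  -- the factor
  obtain ⟨k0, hk0⟩ := exists_pow_lt_of_lt_one (show (0 : ℝ) < 1 / (4 * Λ) by positivity) ha1
  set L : ℕ := k0 + 2 with hL
  have hLa : 4 * Λ * a ^ (L - 1) ≤ 1 := by
    have e1 : L - 1 = k0 + 1 := by omega
    have e2 : a ^ (k0 + 1) ≤ a ^ k0 := pow_le_pow_of_le_one ha.le ha1.le (by omega)
    have e3 : a ^ k0 * (4 * Λ) < 1 := (lt_div_iff₀ (by positivity)).1 hk0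
    rw [e1]
    nlinarith
  have hLR : (2 : ℝ) ≤ L := by
    have : 2 ≤ L := by omega
    exact_mod_cast this
  set κ₀ : ℝ := 1 / (4 * L) with hκ₀
  have hκ₀pos : 0 < κ₀ := by positivity
  have hLκ : (L : ℝ) * κ₀ = 1 / 4 := by
    rw [hκ₀]; field_simp
  have hκ₀8 : κ₀ ≤ 1 / 8 := by nlinarith
  set β : ℝ := θ / a ^ 2 with hβ
  have hβ0 : 0 < β := by positivity
  have hβ1 : β < 1 := (div_lt_one (by positivity)).2 hθ
  obtain ⟨ρ, hρ, hsm⟩ := h.small_balls hκ₀pos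
  -- the starting time
  have ta : Tendsto (fun n : ℕ => a ^ n) atTop (𝓝 0) := tendsto_pow_atTop_nhds_zero_of_lt_one ha.le ha1
  have tb : Tendsto (fun n : ℕ => β ^ n) atTop (𝓝 0) := tendsto_pow_atTop_nhds_zero_of_lt_one hβ0.le hβ1
  have tc : Tendsto (fun n : ℕ => (n : ℝ) * β ^ n) atTop (𝓝 0) :=
    tendsto_self_mul_const_pow_of_lt_one hβ0.le hβ1
  have e1 : ∀ᶠ n : ℕ in atTop, 2 * a ^ n ≤ 1 := by
    have := (ta.const_mul 2)
    rw [mul_zero] at this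
    exact this.eventually_le_const one_pos
  have e2 : ∀ᶠ n : ℕ in atTop, C * β ^ n ≤ κ₀ / 2 := by
    have := (tb.const_mul C)
    rw [mul_zero] at this
    exact this.eventually_le_const (by positivity)
  have e3 : ∀ᶠ n : ℕ in atTop, (L * C) * ((n : ℝ) * β ^ n) ≤ ε / 4 := by
    have := (tc.const_mul ((L : ℝ) * C))
    rw [mul_zero] at this
    exact this.eventually_le_const (by positivity)
  have e4 : ∀ᶠ n : ℕ in atTop, 4 * a ^ n ≤ ρ := by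
    have := (ta.const_mul 4)
    rw [mul_zero] at this
    exact this.eventually_le_const hρ
  obtain ⟨n₀, hn₀⟩ := eventually_atTop.1 (e1.and (e2.and (e3.and e4)))
  set n₁ : ℕ := max (max n₀ m₀) 1 with hn₁
  have hn₁0 : n₀ ≤ n₁ := (le_max_left _ _).trans (le_max_left _ _)
  have hn₁m : m₀ ≤ n₁ := (le_max_right _ _).trans (le_max_left _ _)
  have hn₁1 : 1 ≤ n₁ := le_max_right _ _
  have hmk : ∀ k : ℕ, n₁ ≤ L ^ k * n₁ := fun k =>
    Nat.le_mul_of_pos_left _ (pow_pos (by omega) k)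
  have key : ∀ k : ℕ, ∃ κ : ℝ, 0 ≤ κ ∧ κ ≤ κ₀ ∧
      (∀ y, μ.real (bset ι y (4 * a ^ (L ^ k * n₁))) ≤ κ) ∧
      ((L ^ k * n₁ : ℕ) : ℝ) * κ ≤ n₁ * κ₀ / 4 ^ k + ε / 2 := by
    intro k
    induction k with
    | zero =>
      refine ⟨κ₀, hκ₀pos.le, le_rfl, fun y => ?_, ?_⟩
      · rw [pow_zero, one_mul]
        exact (A6_bset_mono (hn₀ n₁ hn₁0).2.2.2).trans (hsm y)
      · rw [pow_zero, one_mul, pow_zero, div_one]
        linarith
    | succ k ih =>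
      obtain ⟨κ, hκ0, hκ1, hκb, hκm⟩ := ih
      set m : ℕ := L ^ k * n₁ with hm
      have hmn := hn₀ m (hn₁0.trans (hmk k))
      obtain ⟨q1, q2, q3, -⟩ := hmn
      have hm1 : 1 ≤ m := hn₁1.trans (hmk k)
      have hm' : L ^ (k + 1) * n₁ = L * m := by rw [hm, pow_succ]; ring
      have hCβ : 0 ≤ C * β ^ m := by positivity
      refine ⟨κ ^ 2 + C * β ^ m, by positivity, ?_, fun y => ?_, ?_⟩
      · nlinarith
      · rw [hm']
        exact A6_step h ha (by omega) hm1 hLa q1 hκb y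
      · rw [hm']
        push_cast
        have hmR : (0 : ℝ) ≤ m := Nat.cast_nonneg _
        have r1 : (L : ℝ) * m * (κ ^ 2 + C * β ^ m) =
            ((L : ℝ) * κ) * (m * κ) + (L * C) * ((m : ℝ) * β ^ m) := by ring
        have r2 : (L : ℝ) * κ ≤ 1 / 4 := by
          rw [← hLκ]
          exact mul_le_mul_of_nonneg_left hκ1 (by positivity)
        have r3 : ((L : ℝ) * κ) * (m * κ) ≤ 1 / 4 * (m * κ) :=
          mul_le_mul_of_nonneg_right r2 (by positivity)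
        have r4 : (n₁ : ℝ) * κ₀ / 4 ^ (k + 1) = 1 / 4 * (n₁ * κ₀ / 4 ^ k) := by
          rw [pow_succ]
          field_simp
        rw [r1, r4]
        linarith
  -- the limit
  have td : Tendsto (fun k : ℕ => (n₁ : ℝ) * κ₀ / 4 ^ k) atTop (𝓝 0) := by
    have := (tendsto_pow_atTop_nhds_zero_of_lt_one (r := (1 / 4 : ℝ)) (by norm_num)
      (by norm_num)).const_mul ((n₁ : ℝ) * κ₀)
    rw [mul_zero] at this
    refine this.congr fun k => ?_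
    rw [one_div, inv_pow, div_eq_mul_inv]
  obtain ⟨k, hk⟩ := (td.eventually_le_const (show (0 : ℝ) < ε / 2 by positivity)).exists
  obtain ⟨κ, hκ0, -, hκb, hκm⟩ := key k
  refine ⟨L ^ k * n₁, hn₁m.trans (hmk k), fun y => ?_⟩
  calc ((L ^ k * n₁ : ℕ) : ℝ) * μ.real (bset ι y (4 * a ^ (L ^ k * n₁)))
      ≤ ((L ^ k * n₁ : ℕ) : ℝ) * κ := mul_le_mul_of_nonneg_left (hκb y) (Nat.cast_nonneg _)
    _ ≤ n₁ * κ₀ / 4 ^ k + ε / 2 := hκm
    _ ≤ ε := by linarith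

end Pool.Agent.XM
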