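import Pool.Agent.Lib.MP_1e8d1a_an.XM.A1

/-! Row xm-A7: Lebesgue average over the centres. -/

open MeasureTheory Set Filter Topology

namespace Pool.Agent.XM

variable {M : Type} {D : ℕ} {ι : M → Fin D → ℝ} [TopologicalSpace M] [MeasurableSpace M]
  [BorelSpace M] {μ : Measure M} [IsProbabilityMeasure μ]

theorem A7_meas (hι : Continuous ι) {T : Set M} (hT : MeasurableSet T) (ρ : ℝ) :
    MeasurableSet {p : M × (Fin D → ℝ) | p.1 ∈ T ∧ ‖ι p.1 - p.2‖ < ρ} := by
  have h1 : Measurable (fun p : M × (Fin D → ℝ) => ‖ι p.1 - p.2‖) :=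
    ((hι.measurable.comp measurable_fst).sub measurable_snd).norm
  exact (measurable_fst hT).inter (measurableSet_lt h1 measurable_const)

theorem A7_meas_fun (μ : Measure M) [IsProbabilityMeasure μ] (hι : Continuous ι) {T : Set M}
    (hT : MeasurableSet T) (ρ : ℝ) :
    Measurable (fun y : Fin D → ℝ => μ (T ∩ bset ι y ρ)) :=
  measurable_measure_prodMk_right (μ := μ) (A7_meas hι hT ρ)

/-- The set `A = {(x, y) | x ∈ T ∧ ‖ι x - y‖ < ρ}` is measurable; compute `(μ.prod volume) A` in the two ways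
(`Measure.prod_apply`, `Measure.prod_apply_symm`): for fixed `x ∈ T` the section is the ball of centre `ι x`, of volume
`ofReal ((2 ρ)^D)` (`Real.volume_pi_ball`). -/
theorem avg_ball (hι : Continuous ι) {T : Set M} (hT : MeasurableSet T) {ρ : ℝ} (hρ : 0 < ρ) :
    ∫⁻ y : Fin D → ℝ, μ (T ∩ bset ι y ρ) = ENNReal.ofReal ((2 * ρ) ^ D) * μ T := by
  have hA := A7_meas hι hT ρ
  have h1 := Measure.prod_apply_symm (μ := μ) (ν := (volume : Measure (Fin D → ℝ))) hA
  have h2 := Measure.prod_apply (μ := μ) (ν := (volume : Measure (Fin D → ℝ))) hA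
  have h3 : ∫⁻ y : Fin D → ℝ, μ (T ∩ bset ι y ρ) =
      (μ.prod volume) {p : M × (Fin D → ℝ) | p.1 ∈ T ∧ ‖ι p.1 - p.2‖ < ρ} := by
    rw [h1]
    rfl
  rw [h3, h2]
  have h4 : ∀ x : M, (volume : Measure (Fin D → ℝ)) (Prod.mk x ⁻¹'
      {p : M × (Fin D → ℝ) | p.1 ∈ T ∧ ‖ι p.1 - p.2‖ < ρ}) =
      T.indicator (fun _ => ENNReal.ofReal ((2 * ρ) ^ D)) x := by
    intro x
    by_cases hx : x ∈ T
    · rw [Set.indicator_of_mem hx]
      have h5 : Prod.mk x ⁻¹' {p : M × (Fin D → ℝ) | p.1 ∈ T ∧ ‖ι p.1 - p.2‖ < ρ} =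
          Metric.ball (ι x) ρ := by
        ext y
        simp only [Set.mem_preimage, Set.mem_ofPred_eq, Metric.mem_ball]
        rw [dist_comm, dist_eq_norm]
        exact ⟨fun h => h.2, fun h => ⟨hx, h⟩⟩
      rw [h5, Real.volume_pi_ball _ hρ, Fintype.card_fin]
    · rw [Set.indicator_of_notMem hx]
      have h5 : Prod.mk x ⁻¹' {p : M × (Fin D → ℝ) | p.1 ∈ T ∧ ‖ι p.1 - p.2‖ < ρ} = ∅ := by
        ext y
        simp only [Set.mem_preimage, Set.mem_ofPred_eq, Set.mem_empty_iff_false, iff_false]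
        exact fun h => hx h.1
      rw [h5, measure_empty]
  rw [lintegral_congr h4, lintegral_indicator_const hT]

/-- The function `y ↦ μ.real (T ∩ bset ι y ρ)` is integrable with the integral `(2 ρ)^D μ.real T` (`avg_ball`; measurability:
`measurable_measure_prodMk_left` or right; `integral_toReal`). -/
theorem avg_ball_real (hι : Continuous ι) {T : Set M} (hT : MeasurableSet T) {ρ : ℝ} (hρ : 0 < ρ) :
    Integrable (fun y : Fin D → ℝ => μ.real (T ∩ bset ι y ρ)) ∧
      ∫ y : Fin D → ℝ, μ.real (T ∩ bset ι y ρ) = (2 * ρ) ^ D * μ.real T := by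
  have h1 := avg_ball (μ := μ) hι hT hρ
  have h2 := A7_meas_fun μ hι hT ρ
  constructor
  · refine integrable_toReal_of_lintegral_ne_top h2.aemeasurable ?_
    rw [h1]
    exact ENNReal.mul_ne_top ENNReal.ofReal_ne_top (measure_ne_top μ T)
  · have h3 := integral_toReal (μ := (volume : Measure (Fin D → ℝ)))
      (f := fun y : Fin D → ℝ => μ (T ∩ bset ι y ρ)) h2.aemeasurable
      (Filter.Eventually.of_forall fun y => measure_lt_top μ _)
    rw [h1, ENNReal.toReal_mul, ENNReal.toReal_ofReal (by positivity)] at h3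
    exact h3

end Pool.Agent.XM
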