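import Pool.Agent.Lib.MP_1e8d1a_an.XM.A2

/-! Row xm-A9: short returns lead to returns at a time in `[m, B m]`. -/

open MeasureTheory Set Filter Topology

namespace Pool.Agent.XM

variable {M : Type} {D : ℕ} {ι : M → Fin D → ℝ}

theorem A9_iter {g : M → M} {Λ : ℝ} (hΛ : 1 ≤ Λ)
    (hg : ∀ x y, ‖ι (g x) - ι (g y)‖ ≤ Λ * ‖ι x - ι y‖) (n : ℕ) (x y : M) :
    ‖ι (g^[n] x) - ι (g^[n] y)‖ ≤ Λ ^ n * ‖ι x - ι y‖ := by
  induction n with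
  | zero => simp
  | succ n ih =>
    rw [Function.iterate_succ_apply', Function.iterate_succ_apply', pow_succ']
    calc ‖ι (g (g^[n] x)) - ι (g (g^[n] y))‖ ≤ Λ * ‖ι (g^[n] x) - ι (g^[n] y)‖ := hg _ _
      _ ≤ Λ * (Λ ^ n * ‖ι x - ι y‖) := mul_le_mul_of_nonneg_left ih (by linarith)
      _ = Λ * Λ ^ n * ‖ι x - ι y‖ := by ring

theorem A9_mult {g : M → M} {Λ : ℝ} (hΛ : 1 ≤ Λ)
    (hg : ∀ x y, ‖ι (g x) - ι (g y)‖ ≤ Λ * ‖ι x - ι y‖) (j : ℕ) (x : M) (L : ℕ) (q : ℕ)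
    (hq : q * j ≤ L + j) :
    ‖ι (g^[q * j] x) - ι x‖ ≤ q * (Λ ^ L * ‖ι (g^[j] x) - ι x‖) := by
  induction q with
  | zero => simp
  | succ q ih =>
    have h0 : (q + 1) * j = q * j + j := by ring
    have h1 : q * j ≤ L := by omega
    have h2 := ih (by omega)
    have h3 : ‖ι (g^[(q + 1) * j] x) - ι (g^[q * j] x)‖ ≤ Λ ^ L * ‖ι (g^[j] x) - ι x‖ := by
      rw [h0, Function.iterate_add_apply]
      exact (A9_iter hΛ hg (q * j) _ _).trans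
        (mul_le_mul_of_nonneg_right (pow_le_pow_right₀ hΛ h1) (norm_nonneg _))
    calc ‖ι (g^[(q + 1) * j] x) - ι x‖
        = ‖(ι (g^[(q + 1) * j] x) - ι (g^[q * j] x)) + (ι (g^[q * j] x) - ι x)‖ := by
          rw [sub_add_sub_cancel]
      _ ≤ ‖ι (g^[(q + 1) * j] x) - ι (g^[q * j] x)‖ + ‖ι (g^[q * j] x) - ι x‖ := norm_add_le _ _
      _ ≤ Λ ^ L * ‖ι (g^[j] x) - ι x‖ + q * (Λ ^ L * ‖ι (g^[j] x) - ι x‖) := add_le_add h3 h2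
      _ = ((q + 1 : ℕ) : ℝ) * (Λ ^ L * ‖ι (g^[j] x) - ι x‖) := by
          push_cast
          ring

/-- Let `x ∈ short (B m) t` with `j`. If `j ≥ m` take `n = j` (`t ≤ 2 m Λ^(2m) t ≤ v`). If `j < m` let `q = m / j + 1` and
`n = q j`, so that `m ≤ n < 2 m ≤ B m` and `q ≤ 2 m` (`m / j * j ≤ m`, `j < m`): `‖ι (g^[q j] x) - ι x‖ ≤ ∑ i < q, ‖ι (g^[(i+1) j] x) - ι (g^[i j] x)‖`
`≤ ∑ i < q, Λ^(i j) ‖ι (g^[j] x) - ι x‖ < q Λ^(2m) t ≤ 2 m Λ^(2m) t ≤ v` (`lip_iter`, induction on `q`). -/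
theorem short_subset {g : M → M} {Λ : ℝ} (hΛ : 1 ≤ Λ)
    (hg : ∀ x y, ‖ι (g x) - ι (g y)‖ ≤ Λ * ‖ι x - ι y‖) {m B : ℕ} (hm : 1 ≤ m) (hB : 2 ≤ B)
    {t v : ℝ} (ht : 0 < t) (hv : 2 * (m : ℝ) * Λ ^ (2 * m) * t ≤ v) :
    short ι g (B * m) t ⊆ ⋃ n ∈ Finset.Icc m (B * m), {x | ‖ι (g^[n] x) - ι x‖ < v} := by
  intro x hx
  obtain ⟨j, hj1, hj2, hj3⟩ := hx
  have hmR : (1 : ℝ) ≤ m := by exact_mod_cast hm
  have hΛ1 : 1 ≤ Λ ^ (2 * m) := one_le_pow₀ hΛ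
  have h2m : 2 * m ≤ B * m := Nat.mul_le_mul_right m hB
  rw [Set.mem_iUnion₂]
  by_cases hjm : m ≤ j
  · refine ⟨j, Finset.mem_Icc.2 ⟨hjm, hj2⟩, ?_⟩
    show ‖ι (g^[j] x) - ι x‖ < v
    have h1 : t ≤ 2 * (m : ℝ) * Λ ^ (2 * m) * t := by
      have h2 : (1 : ℝ) ≤ 2 * (m : ℝ) * Λ ^ (2 * m) := by nlinarith
      nlinarith
    linarith
  · have hjm' : j < m := Nat.lt_of_not_le hjm
    have h1 : m / j * j ≤ m := Nat.div_mul_le_self m j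
    have h2 : m < m / j * j + j := Nat.lt_div_mul_add hj1
    have h3 : (m / j + 1) * j = m / j * j + j := by ring
    have h4 : m / j + 1 ≤ 2 * m := by
      have h5 : m / j ≤ m := Nat.div_le_self m j
      omega
    refine ⟨(m / j + 1) * j, Finset.mem_Icc.2 ⟨by omega, by omega⟩, ?_⟩
    show ‖ι (g^[(m / j + 1) * j] x) - ι x‖ < v
    have h6 := A9_mult hΛ hg j x (2 * m) (m / j + 1) (by omega)
    have h7 : ((m / j + 1 : ℕ) : ℝ) ≤ 2 * (m : ℝ) := by exact_mod_cast h4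
    have h8 : (0 : ℝ) < ((m / j + 1 : ℕ) : ℝ) := by positivity
    have h9 : (0 : ℝ) < Λ ^ (2 * m) := by linarith
    calc ‖ι (g^[(m / j + 1) * j] x) - ι x‖
        ≤ ((m / j + 1 : ℕ) : ℝ) * (Λ ^ (2 * m) * ‖ι (g^[j] x) - ι x‖) := h6
      _ < ((m / j + 1 : ℕ) : ℝ) * (Λ ^ (2 * m) * t) :=
          mul_lt_mul_of_pos_left (mul_lt_mul_of_pos_left hj3 h9) h8
      _ ≤ 2 * (m : ℝ) * (Λ ^ (2 * m) * t) := mul_le_mul_of_nonneg_right h7 (by positivity)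
      _ = 2 * (m : ℝ) * Λ ^ (2 * m) * t := by ring
      _ ≤ v := hv

end Pool.Agent.XM
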