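import Pool.Agent.Lib.MP_1e8d1a_an.XM.Defs

/-! Row xm-E2: compactness arguments. -/

open scoped Topology

namespace Pool.Agent.XM

variable {M : Type} {D : ℕ} {ι : M → Fin D → ℝ} [TopologicalSpace M] [CompactSpace M]

/-- Claim: every `z : M × M` has a neighbourhood and an `L ≥ 0` with the inequality on it. On the diagonal: `hloc`. For `z.1 ≠ z.2`:
`c = ‖ι z.1 - ι z.2‖ > 0`, near `z` `‖ι w.1 - ι w.2‖ > c / 2`, and `‖ι (g w.1) - ι (g w.2)‖ ≤ 2 R` where `R` bounds `‖ι‖`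
(compactness). `M × M` is compact: finitely many neighbourhoods (`CompactSpace.elim_nhds_subcover`), `Λ = 2 + ∑ |L|`. -/
theorem lip_of_local (hι : Continuous ι) (hinj : Function.Injective ι) {g : M → M}
    (hloc : ∀ x : M, ∃ L : ℝ, ∀ᶠ w in 𝓝 (x, x), ‖ι (g w.1) - ι (g w.2)‖ ≤ L * ‖ι w.1 - ι w.2‖) :
    ∃ Λ : ℝ, 2 ≤ Λ ∧ ∀ x y, ‖ι (g x) - ι (g y)‖ ≤ Λ * ‖ι x - ι y‖ := by
  obtain ⟨R0, hR0⟩ := (isCompact_range hι).isBounded.exists_norm_le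
  obtain ⟨R, hR1, hR⟩ : ∃ R : ℝ, 0 ≤ R ∧ ∀ x, ‖ι x‖ ≤ R :=
    ⟨max R0 0, le_max_right _ _, fun x => (hR0 _ ⟨x, rfl⟩).trans (le_max_left _ _)⟩
  have hcont : Continuous fun w : M × M => ‖ι w.1 - ι w.2‖ :=
    ((hι.comp continuous_fst).sub (hι.comp continuous_snd)).norm
  have claim : ∀ z : M × M, ∃ L : ℝ, 0 ≤ L ∧ ∀ᶠ w in 𝓝 z, ‖ι (g w.1) - ι (g w.2)‖ ≤ L * ‖ι w.1 - ι w.2‖ := by
    rintro ⟨x, y⟩
    by_cases hxy : x = y
    · subst hxy
      obtain ⟨L, hL⟩ := hloc x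
      refine ⟨max L 0, le_max_right _ _, hL.mono fun w hw => hw.trans ?_⟩
      exact mul_le_mul_of_nonneg_right (le_max_left _ _) (norm_nonneg _)
    · have hc : 0 < ‖ι x - ι y‖ := norm_pos_iff.2 (sub_ne_zero.2 fun h => hxy (hinj h))
      refine ⟨4 * R / ‖ι x - ι y‖, by positivity, ?_⟩
      have h1 : ∀ᶠ w in 𝓝 (x, y), ‖ι x - ι y‖ / 2 < ‖ι w.1 - ι w.2‖ :=
        hcont.continuousAt.eventually (lt_mem_nhds (by show ‖ι x - ι y‖ / 2 < ‖ι x - ι y‖; linarith))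
      refine h1.mono fun w hw => ?_
      have h2 : ‖ι (g w.1) - ι (g w.2)‖ ≤ 2 * R := by
        refine (norm_sub_le _ _).trans ?_
        have := hR (g w.1)
        have := hR (g w.2)
        linarith
      refine h2.trans ?_
      calc 2 * R = 4 * R / ‖ι x - ι y‖ * (‖ι x - ι y‖ / 2) := by field_simp; ring
        _ ≤ 4 * R / ‖ι x - ι y‖ * ‖ι w.1 - ι w.2‖ := mul_le_mul_of_nonneg_left hw.le (by positivity)
  choose L hL0 hL using claim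
  obtain ⟨t, ht⟩ := CompactSpace.elim_nhds_subcover
    (fun z : M × M => {w : M × M | ‖ι (g w.1) - ι (g w.2)‖ ≤ L z * ‖ι w.1 - ι w.2‖}) (fun z => hL z)
  refine ⟨2 + ∑ z ∈ t, L z, ?_, fun x y => ?_⟩
  · have := Finset.sum_nonneg fun z (_ : z ∈ t) => hL0 z
    linarith
  · have h1 : (x, y) ∈ ⋃ z ∈ t, {w : M × M | ‖ι (g w.1) - ι (g w.2)‖ ≤ L z * ‖ι w.1 - ι w.2‖} := by
      rw [ht]
      exact Set.mem_univ _
    rw [Set.mem_iUnion₂] at h1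
    obtain ⟨z, hz, h2⟩ := h1
    refine le_trans h2 (mul_le_mul_of_nonneg_right ?_ (norm_nonneg _))
    have h3 := Finset.single_le_sum (fun z _ => hL0 z) hz
    linarith

/-- `ι` is a closed embedding (`Continuous.isClosedEmbedding`), so `𝓝 p` is the comap of `𝓝 (ι p)`. -/
theorem exists_eta [T2Space M] (hι : Continuous ι) (hinj : Function.Injective ι) (p : M) {U : Set M}
    (hU : U ∈ 𝓝 p) : ∃ η : ℝ, 0 < η ∧ ∀ x, ‖ι x - ι p‖ < η → x ∈ U := by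
  have h1 := (hι.isClosedEmbedding hinj).isInducing.nhds_eq_comap p
  rw [h1, Filter.mem_comap] at hU
  obtain ⟨V, hV, hVU⟩ := hU
  obtain ⟨η, hη, hball⟩ := Metric.mem_nhds_iff.1 hV
  exact ⟨η, hη, fun x hx => hVU (hball (by rw [Metric.mem_ball, dist_eq_norm]; exact hx))⟩

end Pool.Agent.XM
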