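import Pool.Agent.Lib.MP_1e8d1a_an.XM.E1
import Pool.Agent.Lib.MP_1e8d1a_an.XM.E2
import Pool.Agent.Lib.MP_1e8d1a_an.NH.QBump2
import Pool.Agent.Lib.MP_1e8d1a_an.HM.Pairs

/-! Two orbit segments which nearly exchange two points, without near returns before, can be closed. -/

open scoped ContDiff Manifold Topology
open Filter

namespace Pool.Agent.XM

open Pool.Agent.SC Pool.Agent.EQ

variable {E : Type} [NormedAddCommGroup E] [NormedSpace ℝ E] [FiniteDimensional ℝ E]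
  {H : Type} [TopologicalSpace H] {I : ModelWithCorners ℝ E H} [I.Boundaryless]
  {W : Type} [TopologicalSpace W] [T2Space W] [ChartedSpace H W] [IsManifold I ∞ W] [CompactSpace W]

omit [CompactSpace W] in
/-- Two bumps; the order `k` of the smallness is at most `r`. -/
theorem two_bumps {r : ℕ∞} (hr : 1 ≤ r) (F : W ≃ₘ^r⟮I, I⟯ W) (p p' : W) (U : Set (W ≃ₘ^r⟮I, I⟯ W))
    (hU : U ∈ @nhds _ (crTopology I r) F) :
    ∃ (k : ℕ) (c s₀ : ℝ), (k : ℕ∞) ≤ r ∧ 0 < c ∧ 0 < s₀ ∧ ∀ (P P' Q Q' : W) (s : ℝ),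
      P ∈ (extChartAt I p).source → P' ∈ (extChartAt I p).source →
      ‖extChartAt I p P - extChartAt I p p‖ ≤ s₀ → ‖extChartAt I p P' - extChartAt I p p‖ ≤ s₀ →
      Q ∈ (extChartAt I p').source → Q' ∈ (extChartAt I p').source →
      ‖extChartAt I p' Q - extChartAt I p' p'‖ ≤ s₀ →
      ‖extChartAt I p' Q' - extChartAt I p' p'‖ ≤ s₀ →
      0 < s → s ≤ s₀ → ‖extChartAt I p P - extChartAt I p P'‖ ≤ c * s ^ k →
      ‖extChartAt I p' Q - extChartAt I p' Q'‖ ≤ c * s ^ k →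
      ∃ G ∈ U, ∃ B B' : W ≃ W, (∀ q, G q = F (B (B' q))) ∧ B P' = P ∧ B' Q' = Q ∧
        (∀ q, B q ≠ q → q ∈ (extChartAt I p).source ∧ ‖extChartAt I p q - extChartAt I p P‖ < s) ∧
        ∀ q, B' q ≠ q →
          q ∈ (extChartAt I p').source ∧ ‖extChartAt I p' q - extChartAt I p' Q‖ < s := by
  obtain ⟨R1, hR1, hb1⟩ :=
    Metric.nhds_basis_closedBall.mem_iff.1 (extChartAt_target_mem_nhds (I := I) p)
  obtain ⟨R2, hR2, hb2⟩ :=
    Metric.nhds_basis_closedBall.mem_iff.1 (extChartAt_target_mem_nhds (I := I) p')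
  obtain ⟨R, hRdef⟩ : ∃ R : ℝ, R = min R1 R2 / 2 := ⟨_, rfl⟩
  have hR : 0 < R := by rw [hRdef]; exact half_pos (lt_min hR1 hR2)
  have e2R : 2 * R = min R1 R2 := by rw [hRdef]; ring
  have hball : Metric.closedBall (extChartAt I p p) (2 * R) ⊆ (extChartAt I p).target := by
    rw [e2R]
    exact (Metric.closedBall_subset_closedBall (min_le_left _ _)).trans hb1
  have hball' : Metric.closedBall (extChartAt I p' p') (2 * R) ⊆ (extChartAt I p').target := by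
    rw [e2R]
    exact (Metric.closedBall_subset_closedBall (min_le_right _ _)).trans hb2
  obtain ⟨k, ε, hkr, hk, hε, hnear⟩ := q_near2 hr F p p' R hR hball hball' U hU
  obtain ⟨c₁, hc₁, h1⟩ := quant_shift (I := I) (W := W) hr p R hball k hk ε hε
  obtain ⟨c₂, hc₂, h2⟩ := quant_shift (I := I) (W := W) hr p' R hball' k hk ε hε
  refine ⟨k, min c₁ c₂, min 1 (R / 4), hkr, lt_min hc₁ hc₂, lt_min one_pos (by linarith), ?_⟩
  intro P P' Q Q' s a1 a2 a3 a4 b1 b2 b3 b4 hs hs0 a5 b5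
  obtain ⟨α, hα, hαj, hα0, D, hD, hDP, hDq⟩ := h1 P P' s a1 a2 a3 a4 hs hs0
    (a5.trans (mul_le_mul_of_nonneg_right (min_le_left _ _) (by positivity)))
  obtain ⟨β, hβ, hβj, hβ0, D', hD', hDP', hDq'⟩ := h2 Q Q' s b1 b2 b3 b4 hs hs0
    (b5.trans (mul_le_mul_of_nonneg_right (min_le_right _ _) (by positivity)))
  refine ⟨(D'.trans D).trans F, hnear α β hα hβ hαj hβj hα0 hβ0 _ (fun q => ?_), D.toEquiv,
    D'.toEquiv, fun q => rfl, hDP, hDP', hDq, hDq'⟩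
  show F (D (D' q)) = _
  rw [hD' q, hD]

/-- The chart at `p` and the distance of the embedding near `p`. -/
theorem IsEmb.local_data {D : ℕ} {ι : W → Fin D → ℝ} (h : IsEmb I ι) (p : W) {s₀ : ℝ} (hs₀ : 0 < s₀)
    {V : Set W} (hV : V ∈ 𝓝 p) :
    ∃ C ρ κ : ℝ, 1 ≤ C ∧ 0 < ρ ∧ 0 < κ ∧ κ ≤ s₀ ∧
      (∀ x, ‖ι x - ι p‖ < ρ → x ∈ V ∧ x ∈ (extChartAt I p).source ∧
        ‖extChartAt I p x - extChartAt I p p‖ ≤ s₀) ∧
      (∀ x y, ‖ι x - ι p‖ < ρ → ‖ι y - ι p‖ < ρ →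
        ‖extChartAt I p x - extChartAt I p y‖ ≤ C * ‖ι x - ι y‖) ∧
      ∀ x w σ, ‖ι x - ι p‖ < ρ → σ ≤ κ → w ∈ (extChartAt I p).source →
        ‖extChartAt I p w - extChartAt I p x‖ < σ → ‖ι w - ι x‖ < C * σ := by
  obtain ⟨K, R₁, hK, hR₁, hc⟩ := h.chart_compare p
  obtain ⟨κ, hκ⟩ : ∃ κ : ℝ, κ = min s₀ (R₁ / 2) := ⟨_, rfl⟩
  have hκ0 : 0 < κ := by rw [hκ]; exact lt_min hs₀ (by linarith)
  have hκs : κ ≤ s₀ := by rw [hκ]; exact min_le_left _ _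
  have hκR : κ ≤ R₁ / 2 := by rw [hκ]; exact min_le_right _ _
  have hΩ : {q : W | q ∈ V ∧ q ∈ (extChartAt I p).source ∧
      ‖extChartAt I p q - extChartAt I p p‖ ≤ κ} ∈ 𝓝 p := by
    have h3 : (extChartAt I p).source ∈ 𝓝 p := extChartAt_source_mem_nhds (I := I) p
    have h4 : ∀ᶠ q in 𝓝 p, extChartAt I p q ∈ Metric.closedBall (extChartAt I p p) κ :=
      (continuousAt_extChartAt (I := I) p).eventually (Metric.closedBall_mem_nhds _ hκ0)
    filter_upwards [hV, h3, h4] with q h5 h6 h7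
    refine ⟨h5, h6, ?_⟩
    rw [← dist_eq_norm]
    exact Metric.mem_closedBall.1 h7
  obtain ⟨ρ, hρ, hρΩ⟩ := exists_eta h.smooth.continuous h.inj p hΩ
  refine ⟨K, ρ, κ, hK, hρ, hκ0, hκs, ?_, ?_, ?_⟩
  · intro x hx
    obtain ⟨h1, h2, h3⟩ := hρΩ x hx
    exact ⟨h1, h2, h3.trans hκs⟩
  · intro x y hx hy
    obtain ⟨-, h2, h3⟩ := hρΩ x hx
    obtain ⟨-, h2', h3'⟩ := hρΩ y hy
    have h4 := (hc _ _ (by linarith : ‖extChartAt I p x - extChartAt I p p‖ < R₁)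
      (by linarith : ‖extChartAt I p y - extChartAt I p p‖ < R₁)).2.2
    rwa [(extChartAt I p).left_inv h2, (extChartAt I p).left_inv h2'] at h4
  · intro x w σ hx hσ hw hwx
    obtain ⟨-, h2, h3⟩ := hρΩ x hx
    have h5 : ‖extChartAt I p w - extChartAt I p p‖ < R₁ := by
      calc ‖extChartAt I p w - extChartAt I p p‖
          = ‖(extChartAt I p w - extChartAt I p x) + (extChartAt I p x - extChartAt I p p)‖ := by
            rw [sub_add_sub_cancel]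
        _ ≤ ‖extChartAt I p w - extChartAt I p x‖ + ‖extChartAt I p x - extChartAt I p p‖ :=
            norm_add_le _ _
        _ < σ + κ := add_lt_add_of_lt_of_le hwx h3
        _ ≤ κ + κ := by linarith
        _ ≤ R₁ := by linarith
    have h4 := (hc _ _ h5 (by linarith : ‖extChartAt I p x - extChartAt I p p‖ < R₁)).2.1
    rw [(extChartAt I p).left_inv hw, (extChartAt I p).left_inv h2] at h4
    have hK0 : 0 < K := by linarith
    exact h4.trans_lt (mul_lt_mul_of_pos_left hwx hK0)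

/-- **Closing from two orbit segments.** -/
theorem closable_of_exchange {D : ℕ} {ι : W → Fin D → ℝ} (hι : IsEmb I ι) {r : ℕ∞} (hr : 1 ≤ r)
    (F : W ≃ₘ^r⟮I, I⟯ W) (p q : W) (hpq : p ≠ q)
    (hR : ∀ (k : ℕ) (ε η : ℝ), (k : ℕ∞) ≤ r → 0 < ε → 0 < η → ∃ (x y : W) (N : ℕ) (δ : ℝ),
      1 ≤ N ∧ 0 < δ ∧ δ ≤ η ∧ ‖ι x - ι p‖ < η ∧ ‖ι y - ι q‖ < η ∧
      ‖ι ((F : W → W)^[N] x) - ι y‖ < ε * δ ^ k ∧ ‖ι ((F : W → W)^[N] y) - ι x‖ < ε * δ ^ k ∧
      ∀ j, 0 < j → j < N → δ ≤ ‖ι ((F : W → W)^[j] x) - ι x‖ ∧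
        δ ≤ ‖ι ((F : W → W)^[j] x) - ι y‖ ∧ δ ≤ ‖ι ((F : W → W)^[j] y) - ι x‖ ∧
        δ ≤ ‖ι ((F : W → W)^[j] y) - ι y‖) : Closable I F p := by
  apply closable_of_pairs F
  intro U hU V hV
  obtain ⟨k, c, s₀, hkr, hc, hs₀, hq⟩ := two_bumps hr F p q U hU
  obtain ⟨C₁, ρ₁, κ₁, hC₁, hρ₁, hκ₁, hκ₁s, a1, a2, a3⟩ := hι.local_data p hs₀ hV
  obtain ⟨C₂, ρ₂, κ₂, hC₂, hρ₂, hκ₂, hκ₂s, b1, b2, b3⟩ :=
    hι.local_data q hs₀ (Filter.univ_mem : Set.univ ∈ 𝓝 q)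
  obtain ⟨d, hd⟩ : ∃ d : ℝ, d = ‖ι p - ι q‖ := ⟨_, rfl⟩
  have hd0 : 0 < d := by
    rw [hd, norm_pos_iff, sub_ne_zero]
    exact fun h => hpq (hι.inj h)
  obtain ⟨C, hC⟩ : ∃ C : ℝ, C = max C₁ C₂ := ⟨_, rfl⟩
  have hCC₁ : C₁ ≤ C := by rw [hC]; exact le_max_left _ _
  have hCC₂ : C₂ ≤ C := by rw [hC]; exact le_max_right _ _
  have hC1 : 1 ≤ C := hC₁.trans hCC₁
  have hC0 : 0 < C := by linarith
  obtain ⟨κ, hκ⟩ : ∃ κ : ℝ, κ = min (min κ₁ κ₂) (1 / C) := ⟨_, rfl⟩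
  have hκ0 : 0 < κ := by rw [hκ]; exact lt_min (lt_min hκ₁ hκ₂) (by positivity)
  have hκκ₁ : κ ≤ κ₁ := by rw [hκ]; exact (min_le_left _ _).trans (min_le_left _ _)
  have hκκ₂ : κ ≤ κ₂ := by rw [hκ]; exact (min_le_left _ _).trans (min_le_right _ _)
  have hκC : C * κ ≤ 1 := by
    calc C * κ ≤ C * (1 / C) := by
          refine mul_le_mul_of_nonneg_left ?_ hC0.le
          rw [hκ]; exact min_le_right _ _
      _ = 1 := by field_simp
  obtain ⟨η, hη⟩ : ∃ η : ℝ, η = min (min (ρ₁ / 2) (ρ₂ / 2)) (min (d / 8) 1) := ⟨_, rfl⟩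
  have hη0 : 0 < η := by
    rw [hη]
    exact lt_min (lt_min (by linarith) (by linarith)) (lt_min (by linarith) one_pos)
  have hη₁ : η ≤ ρ₁ / 2 := by rw [hη]; exact (min_le_left _ _).trans (min_le_left _ _)
  have hη₂ : η ≤ ρ₂ / 2 := by rw [hη]; exact (min_le_left _ _).trans (min_le_right _ _)
  have hηd : η ≤ d / 8 := by rw [hη]; exact (min_le_right _ _).trans (min_le_left _ _)
  have hη1 : η ≤ 1 := by rw [hη]; exact (min_le_right _ _).trans (min_le_right _ _)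
  obtain ⟨ε, hε⟩ : ∃ ε : ℝ, ε = min (c * κ ^ k / C) η := ⟨_, rfl⟩
  have hε0 : 0 < ε := by rw [hε]; exact lt_min (by positivity) hη0
  have hεη : ε ≤ η := by rw [hε]; exact min_le_right _ _
  have hεc : C * ε ≤ c * κ ^ k := by
    calc C * ε ≤ C * (c * κ ^ k / C) := by
          refine mul_le_mul_of_nonneg_left ?_ hC0.le
          rw [hε]; exact min_le_left _ _
      _ = c * κ ^ k := by field_simp
  obtain ⟨x, y, N, δ, hN, hδ, hδη, hx, hy, hxy, hyx, hiso⟩ := hR k ε η hkr hε0 hη0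
  have hδ1 : δ ≤ 1 := hδη.trans hη1
  have hδk0 : 0 < δ ^ k := pow_pos hδ k
  have hδk : δ ^ k ≤ 1 := pow_le_one₀ hδ.le hδ1
  have hεδ : ε * δ ^ k ≤ η := by
    calc ε * δ ^ k ≤ ε * 1 := mul_le_mul_of_nonneg_left hδk hε0.le
      _ = ε := mul_one ε
      _ ≤ η := hεη
  obtain ⟨x', hx'⟩ : ∃ x' : W, x' = (F : W → W)^[N] x := ⟨_, rfl⟩
  obtain ⟨y', hy'⟩ : ∃ y' : W, y' = (F : W → W)^[N] y := ⟨_, rfl⟩
  rw [← hx'] at hxy
  rw [← hy'] at hyx
  -- the positions of the four points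
  have px : ‖ι x - ι p‖ < ρ₁ := by linarith
  have py : ‖ι y - ι q‖ < ρ₂ := by linarith
  have py' : ‖ι y' - ι p‖ < 2 * η := by
    have e : ι y' - ι p = (ι y' - ι x) + (ι x - ι p) := by abel
    rw [e]
    have := norm_add_le (ι y' - ι x) (ι x - ι p)
    linarith
  have px' : ‖ι x' - ι q‖ < 2 * η := by
    have e : ι x' - ι q = (ι x' - ι y) + (ι y - ι q) := by abel
    rw [e]
    have := norm_add_le (ι x' - ι y) (ι y - ι q)
    linarith
  have py'₁ : ‖ι y' - ι p‖ < ρ₁ := by linarith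
  have px'₂ : ‖ι x' - ι q‖ < ρ₂ := by linarith
  -- far from each other
  have far : ∀ u v : W, ‖ι u - ι p‖ < 2 * η → ‖ι v - ι q‖ < 2 * η → δ ≤ ‖ι u - ι v‖ := by
    intro u v hu hv
    have e : ι p - ι q = -(ι u - ι p) + (ι u - ι v) + (ι v - ι q) := by abel
    have h1 : d ≤ ‖ι u - ι p‖ + ‖ι u - ι v‖ + ‖ι v - ι q‖ := by
      rw [hd, e]
      refine (norm_add_le _ _).trans ?_
      have h2 := norm_add_le (-(ι u - ι p)) (ι u - ι v)
      rw [norm_neg] at h2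
      linarith
    linarith
  -- the size of the bumps
  obtain ⟨σ, hσ⟩ : ∃ σ : ℝ, σ = κ * δ := ⟨_, rfl⟩
  have hσ0 : 0 < σ := by rw [hσ]; positivity
  have hσκ : σ ≤ κ := by
    rw [hσ]
    calc κ * δ ≤ κ * 1 := mul_le_mul_of_nonneg_left hδ1 hκ0.le
      _ = κ := mul_one κ
  have hCσ : C * σ ≤ δ := by
    calc C * σ = C * κ * δ := by rw [hσ]; ring
      _ ≤ 1 * δ := mul_le_mul_of_nonneg_right hκC hδ.le
      _ = δ := one_mul δ
  have hclose : ∀ t : ℝ, t < ε * δ ^ k → C * t ≤ c * σ ^ k := by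
    intro t ht
    calc C * t ≤ C * (ε * δ ^ k) := mul_le_mul_of_nonneg_left ht.le hC0.le
      _ = C * ε * δ ^ k := by ring
      _ ≤ c * κ ^ k * δ ^ k := mul_le_mul_of_nonneg_right hεc hδk0.le
      _ = c * σ ^ k := by rw [hσ, mul_pow]; ring
  obtain ⟨-, sx, nx⟩ := a1 x px
  obtain ⟨hyV, sy', ny'⟩ := a1 y' py'₁
  obtain ⟨-, sy, ny⟩ := b1 y py
  obtain ⟨-, sx', nx'⟩ := b1 x' px'₂
  have cx : ‖extChartAt I p x - extChartAt I p y'‖ ≤ c * σ ^ k := by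
    refine (a2 x y' px py'₁).trans (le_trans ?_ (hclose _ hyx))
    rw [norm_sub_rev (ι x)]
    exact mul_le_mul_of_nonneg_right hCC₁ (norm_nonneg _)
  have cy : ‖extChartAt I q y - extChartAt I q x'‖ ≤ c * σ ^ k := by
    refine (b2 y x' py px'₂).trans (le_trans ?_ (hclose _ hxy))
    rw [norm_sub_rev (ι y)]
    exact mul_le_mul_of_nonneg_right hCC₂ (norm_nonneg _)
  obtain ⟨G, hG, B, B', hGB, hB, hB', hBq, hBq'⟩ := hq x y' y x' σ sx sy' nx ny' sy sx' ny nx' hσ0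
    (hσκ.trans (hκκ₁.trans hκ₁s)) cx cy
  have fixB : ∀ w, δ ≤ ‖ι w - ι x‖ → B w = w := by
    intro w hw
    by_contra hne
    obtain ⟨h1, h2⟩ := hBq w hne
    have h3 := a3 x w σ px (hσκ.trans hκκ₁) h1 h2
    have h4 : C₁ * σ ≤ C * σ := mul_le_mul_of_nonneg_right hCC₁ hσ0.le
    linarith
  have fixB' : ∀ w, δ ≤ ‖ι w - ι y‖ → B' w = w := by
    intro w hw
    by_contra hne
    obtain ⟨h1, h2⟩ := hBq' w hne
    have h3 := b3 y w σ py (hσκ.trans hκκ₂) h1 h2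
    have h4 : C₂ * σ ≤ C * σ := mul_le_mul_of_nonneg_right hCC₂ hσ0.le
    linarith
  have e1 : B (B' y') = x := by
    rw [fixB' y' (far y' y py' (by linarith)), hB]
  have e2 : B (B' x') = y := by
    rw [hB', fixB y]
    rw [norm_sub_rev]
    exact far x y (by linarith) (by linarith)
  have hit : ∀ (z z' : W), (∀ j, 0 < j → j < N → δ ≤ ‖ι ((F : W → W)^[j] z) - ι x‖ ∧
      δ ≤ ‖ι ((F : W → W)^[j] z) - ι y‖) → B (B' z') = z → ∀ i, 0 < i → i ≤ N →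
      (G : W → W)^[i] z' = (F : W → W)^[i] z := by
    intro z z' hz hzz i
    induction i with
    | zero => intro h0; exact absurd h0 (lt_irrefl 0)
    | succ n ih =>
      intro _ hn
      rcases Nat.eq_zero_or_pos n with rfl | hn0
      · rw [zero_add, Function.iterate_one, hGB, hzz, Function.iterate_one]
      · obtain ⟨h1, h2⟩ := hz n hn0 (by omega)
        rw [Function.iterate_succ_apply', ih hn0 (by omega), hGB, fixB' _ h2, fixB _ h1,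
          Function.iterate_succ_apply']
  have g1 : (G : W → W)^[N] y' = x' := by
    rw [hit x y' (fun j hj hjN => ⟨(hiso j hj hjN).1, (hiso j hj hjN).2.1⟩) e1 N hN le_rfl, ← hx']
  have g2 : (G : W → W)^[N] x' = y' := by
    rw [hit y x' (fun j hj hjN => ⟨(hiso j hj hjN).2.2.1, (hiso j hj hjN).2.2.2⟩) e2 N hN le_rfl,
      ← hy']
  refine ⟨G, hG, y', hyV, fun U' hU' => ?_⟩
  refine ⟨G, @mem_of_mem_nhds _ (crTopology I r) _ _ hU', N + N, by omega, ?_⟩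
  rw [Function.iterate_add_apply, g1, g2]

end Pool.Agent.XM
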