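import Pool.Agent.Lib.MP_1e8d1a_an.XM.Prod

/-! Closing by two bumps on a manifold that is diffeomorphic to a product. -/

open scoped ContDiff Manifold Topology
open Filter

namespace Pool.Agent.XM

open Pool.Agent.SC

section

variable {E₀ : Type} [NormedAddCommGroup E₀] [NormedSpace ℝ E₀] {H₀ : Type} [TopologicalSpace H₀]
  {I₀ : ModelWithCorners ℝ E₀ H₀} {W : Type} [TopologicalSpace W] [ChartedSpace H₀ W]
  {E₁ : Type} [NormedAddCommGroup E₁] [NormedSpace ℝ E₁] {H₁ : Type} [TopologicalSpace H₁]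
  {I₁ : ModelWithCorners ℝ E₁ H₁} {V : Type} [TopologicalSpace V] [ChartedSpace H₁ V]

/-- An embedding after a diffeomorphism. -/
theorem IsEmb.comp_diffeo {D : ℕ} {e : V → Fin D → ℝ} (h : IsEmb I₁ e) (Φ : W ≃ₘ^∞⟮I₀, I₁⟯ V) :
    IsEmb I₀ (fun w => e (Φ w)) := by
  refine ⟨h.smooth.comp Φ.contMDiff_toFun, h.inj.comp Φ.injective, fun w => ?_⟩
  have h1 : MDifferentiableAt I₁ 𝓘(ℝ, Fin D → ℝ) e (Φ w) :=
    (h.smooth (Φ w)).mdifferentiableAt (by simp)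
  have h2 : MDifferentiableAt I₀ I₁ Φ w := (Φ.contMDiff_toFun w).mdifferentiableAt (by simp)
  have h3 : MDifferentiableAt I₁ I₀ Φ.symm (Φ w) :=
    (Φ.symm.contMDiff_toFun (Φ w)).mdifferentiableAt (by simp)
  have h4 : mfderiv I₀ 𝓘(ℝ, Fin D → ℝ) (e ∘ Φ) w =
      (mfderiv I₁ 𝓘(ℝ, Fin D → ℝ) e (Φ w)).comp (mfderiv I₀ I₁ Φ w) := mfderiv_comp w h1 h2
  have h5 : Function.Injective (mfderiv I₀ I₁ Φ w) := by
    have h6 : mfderiv I₀ I₀ (Φ.symm ∘ Φ) w =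
        (mfderiv I₁ I₀ Φ.symm (Φ w)).comp (mfderiv I₀ I₁ Φ w) := mfderiv_comp w h3 h2
    have h7 : (Φ.symm ∘ Φ : W → W) = id := funext fun x => Φ.symm_apply_apply x
    rw [h7, mfderiv_id] at h6
    intro u v huv
    have h8 := congrArg (fun T => T u) h6
    have h9 := congrArg (fun T => T v) h6
    have h10 : mfderiv I₁ I₀ Φ.symm (Φ w) (mfderiv I₀ I₁ Φ w u) =
      mfderiv I₁ I₀ Φ.symm (Φ w) (mfderiv I₀ I₁ Φ w v) := by rw [huv]
    exact (h8.trans h10).trans h9.symm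
  show Function.Injective (mfderiv I₀ 𝓘(ℝ, Fin D → ℝ) (e ∘ Φ) w)
  rw [h4]
  exact (h.imm (Φ w)).comp h5

end

section

variable {E₀ : Type} [NormedAddCommGroup E₀] [NormedSpace ℝ E₀] {H₀ : Type} [TopologicalSpace H₀]
  {I₀ : ModelWithCorners ℝ E₀ H₀} {W : Type} [TopologicalSpace W] [ChartedSpace H₀ W]
  {E : Type} [NormedAddCommGroup E] [NormedSpace ℝ E] {H : Type} [TopologicalSpace H]
  {I : ModelWithCorners ℝ E H} {Z : Type} [TopologicalSpace Z] [ChartedSpace H Z]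
  {E' : Type} [NormedAddCommGroup E'] [NormedSpace ℝ E'] {H' : Type} [TopologicalSpace H']
  {I' : ModelWithCorners ℝ E' H'} {X : Type} [TopologicalSpace X] [ChartedSpace H' X]

/-- **The closing criterion with two bumps** on a manifold diffeomorphic to a product. -/
theorem closable_conj_of_two [FiniteDimensional ℝ E₀] [IsManifold I₀ ∞ W] [I₀.Boundaryless]
    [CompactSpace W] [T2Space W] {D D' : ℕ} {κ : Z → Fin D → ℝ} {ι : X → Fin D' → ℝ}
    (hκ : IsEmb I κ) (hι : IsEmb I' ι) {r : ℕ∞} (hr : 1 ≤ r) (F : W ≃ₘ^r⟮I₀, I₀⟯ W)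
    (Φ : W ≃ₘ^∞⟮I₀, I.prod I'⟯ (Z × X)) (S : Z × X → Z × X) (hS : ∀ w, Φ (F w) = S (Φ w))
    (p q : Z × X) (hpq : p ≠ q)
    (hex : ∀ k : ℕ, (k : ℕ∞) ≤ r → ∀ ε η : ℝ, 0 < ε → 0 < η →
      ∃ (x y : Z × X) (N : ℕ) (δ : ℝ), 1 ≤ N ∧ 0 < δ ∧ δ ≤ η ∧ pd κ ι x p < η ∧ pd κ ι y q < η ∧
        pd κ ι (S^[N] x) y < ε * δ ^ k ∧ pd κ ι (S^[N] y) x < ε * δ ^ k ∧
        ∀ j, 0 < j → j < N → δ ≤ pd κ ι (S^[j] x) x ∧ δ ≤ pd κ ι (S^[j] x) y ∧
          δ ≤ pd κ ι (S^[j] y) x ∧ δ ≤ pd κ ι (S^[j] y) y) :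
    Closable I₀ F (Φ.symm p) := by
  have hit : ∀ (n : ℕ) (v : Z × X), Φ ((F : W → W)^[n] (Φ.symm v)) = S^[n] v := by
    intro n
    induction n with
    | zero => intro v; exact Φ.apply_symm_apply v
    | succ n ih =>
      intro v
      rw [Function.iterate_succ_apply', hS, ih, Function.iterate_succ_apply']
  refine closable_of_exchange ((hκ.prod hι).comp_diffeo Φ) hr F (Φ.symm p) (Φ.symm q)
    (fun h => hpq (Φ.symm.injective h)) ?_
  intro k ε η hk hε hη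
  obtain ⟨x, y, N, δ, h1, h2, h3, h4, h5, h6, h7, h8⟩ := hex k hk ε η hε hη
  refine ⟨Φ.symm x, Φ.symm y, N, δ, h1, h2, h3, ?_, ?_, ?_, ?_, ?_⟩
  · rw [norm_append_sub, Φ.apply_symm_apply, Φ.apply_symm_apply]
    exact h4
  · rw [norm_append_sub, Φ.apply_symm_apply, Φ.apply_symm_apply]
    exact h5
  · rw [norm_append_sub, hit, Φ.apply_symm_apply]
    exact h6
  · rw [norm_append_sub, hit, Φ.apply_symm_apply]
    exact h7
  · intro j hj hjN
    rw [norm_append_sub, norm_append_sub, norm_append_sub, norm_append_sub, hit, hit,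
      Φ.apply_symm_apply, Φ.apply_symm_apply]
    exact h8 j hj hjN

end

end Pool.Agent.XM
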