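import Mathlib

/-! Exponentially mixing maps: definitions. -/

open MeasureTheory Set Filter Topology

namespace Pool.Agent.XM

section

variable {M : Type} {D : ℕ}

/-- `f` is bounded by `K` and `K`-Lipschitz for the distance `‖ι x - ι y‖`. -/
def LipB (ι : M → Fin D → ℝ) (K : ℝ) (f : M → ℝ) : Prop :=
  (∀ x, |f x| ≤ K) ∧ ∀ x y, |f x - f y| ≤ K * ‖ι x - ι y‖

/-- a Lipschitz function equal to `1` for `‖ι x - y‖ ≤ ρ` and to `0` for `2 ρ ≤ ‖ι x - y‖` -/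
noncomputable def chi (ι : M → Fin D → ℝ) (y : Fin D → ℝ) (ρ : ℝ) (x : M) : ℝ :=
  max 0 (min 1 (2 - ‖ι x - y‖ / ρ))

/-- the points in the ball -/
def bset (ι : M → Fin D → ℝ) (y : Fin D → ℝ) (ρ : ℝ) : Set M := {x | ‖ι x - y‖ < ρ}

/-- the points with a return to their `t`-neighbourhood at a time `j`, `1 ≤ j ≤ J` -/
def short (ι : M → Fin D → ℝ) (g : M → M) (J : ℕ) (t : ℝ) : Set M :=
  {x | ∃ j, 1 ≤ j ∧ j ≤ J ∧ ‖ι (g^[j] x) - ι x‖ < t}

/-- The correlations of Lipschitz functions at the time `n` are at most `c`. -/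
def MixAt [MeasurableSpace M] (ι : M → Fin D → ℝ) (F : M → M) (μ : Measure M) (n : ℕ) (c : ℝ) :
    Prop :=
  ∀ (f g : M → ℝ) (K L : ℝ), LipB ι K f → LipB ι L g →
    |∫ x, f x * g (F^[n] x) ∂μ - (∫ x, f x ∂μ) * ∫ x, g x ∂μ| ≤ c * K * L

/-- `F` mixes the Lipschitz functions with the rate `φ` for the measure `μ`. -/
def Mix2 [MeasurableSpace M] (ι : M → Fin D → ℝ) (F : M → M) (μ : Measure M) (φ : ℕ → ℝ) : Prop :=
  ∀ n : ℕ, MixAt ι F μ n (φ n)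

/-- The standing assumptions: `ι` continuous and injective, `F` and its inverse are Lipschitz, `μ` is
invariant, not a Dirac mass, and exponentially mixing. -/
structure Sys [TopologicalSpace M] [MeasurableSpace M] (ι : M → Fin D → ℝ) (F : M ≃ₜ M)
    (μ : Measure M) (C θ Λ R : ℝ) : Prop where
  cont : Continuous ι
  inj : Function.Injective ι
  one_le_C : 1 ≤ C
  θ_pos : 0 < θ
  θ_lt : θ < 1
  two_le_Λ : 2 ≤ Λ
  R_nonneg : 0 ≤ R
  bound : ∀ x, ‖ι x‖ ≤ R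
  lip : ∀ x y, ‖ι (F x) - ι (F y)‖ ≤ Λ * ‖ι x - ι y‖
  lip' : ∀ x y, ‖ι (F.symm x) - ι (F.symm y)‖ ≤ Λ * ‖ι x - ι y‖
  inv : MeasurePreserving F μ μ
  mix : Mix2 ι F μ (fun n => C * θ ^ n)
  nd : ∀ x : M, μ {x} ≠ 1

end

end Pool.Agent.XM
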