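import Pool.Agent.Lib.MP_1e8d1a_an.XM.Emb

/-! Row xm-E1: the distance of the embedding and the distance in a chart. -/

open scoped ContDiff Manifold Topology

namespace Pool.Agent.XM

variable {E : Type} [NormedAddCommGroup E] [NormedSpace ℝ E] {H : Type} [TopologicalSpace H]
  {I : ModelWithCorners ℝ E H} {W : Type} [TopologicalSpace W] [ChartedSpace H W]

theorem E1_bounds [FiniteDimensional ℝ E] {F : Type} [NormedAddCommGroup F] [NormedSpace ℝ F]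
    {f : E → F} {f' : E →L[ℝ] F} {a : E} (hf : HasStrictFDerivAt f f' a)
    (hinj : Function.Injective f') :
    ∃ K : ℝ, 1 ≤ K ∧ ∀ᶠ z in 𝓝 a ×ˢ 𝓝 a, ‖f z.1 - f z.2‖ ≤ K * ‖z.1 - z.2‖ ∧
      ‖z.1 - z.2‖ ≤ K * ‖f z.1 - f z.2‖ := by
  obtain ⟨K₀, hK₀, hanti⟩ := (f' : E →ₗ[ℝ] F).exists_antilipschitzWith
    (LinearMap.ker_eq_bot.2 hinj)
  have hK₀' : (0 : ℝ) < K₀ := by exact_mod_cast hK₀
  have hb : ∀ v : E, ‖v‖ ≤ K₀ * ‖f' v‖ := by
    intro v
    have h1 := hanti.le_mul_dist v 0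
    simpa using h1
  obtain ⟨s, hs, happ⟩ := hf.approximates_deriv_on_nhds (c := (2 * K₀)⁻¹)
    (Or.inr (by positivity))
  set c : ℝ := (2 * (K₀ : ℝ))⁻¹ with hc
  have hc0 : 0 < c := by positivity
  have hcK : (K₀ : ℝ) * c = 1 / 2 := by
    rw [hc]
    field_simp
  have happ' : ∀ x ∈ s, ∀ y ∈ s, ‖f x - f y - f' (x - y)‖ ≤ c * ‖x - y‖ := by
    intro x hx y hy
    have h1 := happ x hx y hy
    simpa [hc] using h1
  refine ⟨1 + 2 * K₀ + ‖f'‖ + c, by
    have := norm_nonneg f'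
    linarith, ?_⟩
  filter_upwards [Filter.prod_mem_prod hs hs] with z hz
  obtain ⟨h1, h2⟩ := hz
  have h3 := happ' z.1 h1 z.2 h2
  have hn := norm_nonneg (z.1 - z.2)
  have hn' := norm_nonneg (f z.1 - f z.2)
  have hf'0 := norm_nonneg f'
  constructor
  · have h4 : ‖f z.1 - f z.2‖ ≤ ‖f z.1 - f z.2 - f' (z.1 - z.2)‖ + ‖f' (z.1 - z.2)‖ := by
      have h5 := norm_add_le (f z.1 - f z.2 - f' (z.1 - z.2)) (f' (z.1 - z.2))
      rwa [sub_add_cancel] at h5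
    have h5 := f'.le_opNorm (z.1 - z.2)
    have h6 : 0 ≤ (1 + 2 * (K₀ : ℝ)) * ‖z.1 - z.2‖ := by positivity
    nlinarith
  · have h4 : ‖f' (z.1 - z.2)‖ ≤ ‖f z.1 - f z.2‖ + ‖f z.1 - f z.2 - f' (z.1 - z.2)‖ := by
      have h5 := norm_sub_le (f z.1 - f z.2) (f z.1 - f z.2 - f' (z.1 - z.2))
      rwa [sub_sub_cancel] at h5
    have h5 := hb (z.1 - z.2)
    have h6 : (K₀ : ℝ) * ‖f' (z.1 - z.2)‖ ≤
        K₀ * (‖f z.1 - f z.2‖ + c * ‖z.1 - z.2‖) :=
      mul_le_mul_of_nonneg_left (h4.trans (by linarith)) hK₀'.le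
    have h7 : (K₀ : ℝ) * (‖f z.1 - f z.2‖ + c * ‖z.1 - z.2‖) =
        K₀ * ‖f z.1 - f z.2‖ + 1 / 2 * ‖z.1 - z.2‖ := by
      rw [mul_add, ← mul_assoc, hcK]
    have h8 : ‖z.1 - z.2‖ ≤ 2 * K₀ * ‖f z.1 - f z.2‖ := by linarith
    have h9 : 0 ≤ (1 + ‖f'‖ + c) * ‖f z.1 - f z.2‖ := by positivity
    nlinarith

/-- `f = ι ∘ (extChartAt I p).symm` is smooth at `z₀ = extChartAt I p p` (`I` boundaryless: the target is a neighbourhood,
`extChartAt_target_mem_nhds`; `ContMDiffAt` in charts, `contMDiffOn_extChartAt_symm`), its derivative `f'` at `z₀` is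
injective (the chain rule: `f'` is `mfderiv ι p` composed with the derivative of the inverse chart, which is invertible;
`mfderiv` unfolds to `fderivWithin` of `writtenInExtChartAt`, here `range I = univ`). Upper bound: `ContDiffAt.exists_lipschitzOnWith`.
Lower bound: `f'` is antilipschitz (`LinearMap.exists_antilipschitzWith`, finite dimension) with a constant `K₀`, and `f` is strictly
differentiable: `‖f z - f z' - f' (z - z')‖ ≤ c ‖z - z'‖` near `(z₀, z₀)` with `c K₀ ≤ 1 / 2`. -/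
theorem IsEmb.chart_compare [FiniteDimensional ℝ E] [IsManifold I ∞ W] [I.Boundaryless] {D : ℕ}
    {ι : W → Fin D → ℝ} (h : IsEmb I ι) (p : W) :
    ∃ K R₁ : ℝ, 1 ≤ K ∧ 0 < R₁ ∧ ∀ z z' : E, ‖z - extChartAt I p p‖ < R₁ →
      ‖z' - extChartAt I p p‖ < R₁ → z ∈ (extChartAt I p).target ∧
      ‖ι ((extChartAt I p).symm z) - ι ((extChartAt I p).symm z')‖ ≤ K * ‖z - z'‖ ∧
      ‖z - z'‖ ≤ K * ‖ι ((extChartAt I p).symm z) - ι ((extChartAt I p).symm z')‖ := by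
  set z₀ := extChartAt I p p with hz₀
  set f : E → Fin D → ℝ := ι ∘ (extChartAt I p).symm with hf
  have hsm : ContDiffAt ℝ ∞ f z₀ := by
    have h1 := contMDiffAt_iff_source.1 (h.smooth p)
    rw [I.range_eq_univ, contMDiffWithinAt_univ, contMDiffAt_iff_contDiffAt] at h1
    exact h1
  have hstr : HasStrictFDerivAt f (fderiv ℝ f z₀) z₀ := hsm.hasStrictFDerivAt (by simp)
  have hinj : Function.Injective (fderiv ℝ f z₀) := by
    have h1 := h.imm p
    have h2 : MDifferentiableAt I 𝓘(ℝ, Fin D → ℝ) ι p := (h.smooth p).mdifferentiableAt (by simp)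
    rw [h2.mfderiv, I.range_eq_univ, fderivWithin_univ] at h1
    exact h1
  obtain ⟨K, hK, hev⟩ := E1_bounds hstr hinj
  obtain ⟨s, hs, t, ht, hst⟩ := Filter.mem_prod_iff.1 hev
  have htar := extChartAt_target_mem_nhds (I := I) p
  obtain ⟨R₁, hR₁, hball⟩ := Metric.mem_nhds_iff.1 (Filter.inter_mem (Filter.inter_mem hs ht) htar)
  refine ⟨K, R₁, hK, hR₁, ?_⟩
  intro z z' hz hz'
  have h1 := hball (mem_ball_iff_norm.2 hz)
  have h2 := hball (mem_ball_iff_norm.2 hz')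
  have h3 := hst (Set.mk_mem_prod h1.1.1 h2.1.2)
  exact ⟨h1.2, h3.1, h3.2⟩

end Pool.Agent.XM
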