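import Pool.Agent.Lib.MP_1e8d1a_an.XM.E1
import Pool.Agent.Lib.MP_1e8d1a_an.XM.E2

/-! Row xm-E3: a `C¹` map of a compact manifold is Lipschitz for the distance of an embedding. -/

open scoped ContDiff Manifold Topology

namespace Pool.Agent.XM

variable {E : Type} [NormedAddCommGroup E] [NormedSpace ℝ E] {H : Type} [TopologicalSpace H]
  {I : ModelWithCorners ℝ E H} {W : Type} [TopologicalSpace W] [ChartedSpace H W]

/-- `lip_of_local`. At `x`: `chart_compare` at `x` and at `F x`; the map `extChartAt (F x) ∘ F ∘ (extChartAt x).symm` is `C¹` at `extChartAt x x`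
(`contMDiffAt_iff`, `range I = univ`), hence `L`-Lipschitz in a neighbourhood (`ContDiffAt.exists_lipschitzOnWith`). For `w` near `(x, x)`:
`w.1 = (extChartAt x).symm z`, `w.2 = (extChartAt x).symm z'` with `z, z'` near `extChartAt x x`, and
`‖ι (F w.1) - ι (F w.2)‖ ≤ K' ‖..‖ ≤ K' L ‖z - z'‖ ≤ K' L K ‖ι w.1 - ι w.2‖`. -/
theorem IsEmb.lip [FiniteDimensional ℝ E] [IsManifold I ∞ W] [I.Boundaryless] [CompactSpace W]
    [T2Space W] {D : ℕ} {ι : W → Fin D → ℝ} (h : IsEmb I ι) {F : W → W} (hF : ContMDiff I I 1 F) :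
    ∃ Λ : ℝ, 2 ≤ Λ ∧ ∀ x y, ‖ι (F x) - ι (F y)‖ ≤ Λ * ‖ι x - ι y‖ := by
  refine lip_of_local h.smooth.continuous h.inj (fun x => ?_)
  obtain ⟨K, R₁, hK, hR, hc⟩ := h.chart_compare x
  obtain ⟨K', R', hK', hR', hc'⟩ := h.chart_compare (F x)
  have hFc : Continuous F := hF.continuous
  have h1 : ContDiffWithinAt ℝ 1 (extChartAt I (F x) ∘ F ∘ (extChartAt I x).symm) (Set.range I)
      (extChartAt I x x) := ((contMDiffAt_iff).1 (hF x)).2
  rw [I.range_eq_univ, contDiffWithinAt_univ] at h1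
  obtain ⟨L, s, hs, hL⟩ := h1.exists_lipschitzOnWith
  have hP : ∀ᶠ u in 𝓝 x, u ∈ (extChartAt I x).source ∧ extChartAt I x u ∈ s ∧
      ‖extChartAt I x u - extChartAt I x x‖ < R₁ ∧ F u ∈ (extChartAt I (F x)).source ∧
      ‖extChartAt I (F x) (F u) - extChartAt I (F x) (F x)‖ < R' := by
    have c1 : ContinuousAt (extChartAt I x) x := continuousAt_extChartAt x
    have c2 : ContinuousAt (fun u => extChartAt I (F x) (F u)) x :=
      ContinuousAt.comp (f := F) (g := extChartAt I (F x)) (continuousAt_extChartAt (F x))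
        hFc.continuousAt
    have e1 : ∀ᶠ u in 𝓝 x, u ∈ (extChartAt I x).source := extChartAt_source_mem_nhds x
    have e2 : ∀ᶠ u in 𝓝 x, extChartAt I x u ∈ s := c1.eventually hs
    have e3 : ∀ᶠ u in 𝓝 x, ‖extChartAt I x u - extChartAt I x x‖ < R₁ := by
      have := c1.eventually (Metric.ball_mem_nhds (extChartAt I x x) hR)
      filter_upwards [this] with u hu
      rwa [dist_eq_norm] at hu
    have e4 : ∀ᶠ u in 𝓝 x, F u ∈ (extChartAt I (F x)).source :=
      hFc.continuousAt.eventually (extChartAt_source_mem_nhds (F x))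
    have e5 : ∀ᶠ u in 𝓝 x, ‖extChartAt I (F x) (F u) - extChartAt I (F x) (F x)‖ < R' := by
      have := c2.eventually (Metric.ball_mem_nhds (extChartAt I (F x) (F x)) hR')
      filter_upwards [this] with u hu
      rwa [dist_eq_norm] at hu
    filter_upwards [e1, e2, e3, e4, e5] with u a1 a2 a3 a4 a5
    exact ⟨a1, a2, a3, a4, a5⟩
  refine ⟨K' * (L * K), ?_⟩
  have p1 : ∀ᶠ w : W × W in 𝓝 (x, x), w.1 ∈ (extChartAt I x).source ∧ extChartAt I x w.1 ∈ s ∧
      ‖extChartAt I x w.1 - extChartAt I x x‖ < R₁ ∧ F w.1 ∈ (extChartAt I (F x)).source ∧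
      ‖extChartAt I (F x) (F w.1) - extChartAt I (F x) (F x)‖ < R' :=
    (continuous_fst.continuousAt (x := (x, x))).eventually hP
  have p2 : ∀ᶠ w : W × W in 𝓝 (x, x), w.2 ∈ (extChartAt I x).source ∧ extChartAt I x w.2 ∈ s ∧
      ‖extChartAt I x w.2 - extChartAt I x x‖ < R₁ ∧ F w.2 ∈ (extChartAt I (F x)).source ∧
      ‖extChartAt I (F x) (F w.2) - extChartAt I (F x) (F x)‖ < R' :=
    (continuous_snd.continuousAt (x := (x, x))).eventually hP
  filter_upwards [p1, p2] with w ⟨a1, a2, a3, a4, a5⟩ ⟨b1, b2, b3, b4, b5⟩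
  obtain ⟨-, -, q1⟩ := hc _ _ a3 b3
  obtain ⟨-, q2, -⟩ := hc' _ _ a5 b5
  rw [(extChartAt I x).left_inv a1, (extChartAt I x).left_inv b1] at q1
  rw [(extChartAt I (F x)).left_inv a4, (extChartAt I (F x)).left_inv b4] at q2
  have q3 := hL.norm_sub_le a2 b2
  simp only [Function.comp_apply] at q3
  rw [(extChartAt I x).left_inv a1, (extChartAt I x).left_inv b1] at q3
  have hL0 : (0 : ℝ) ≤ L := L.2
  have hK0 : (0 : ℝ) ≤ K' := by linarith
  calc ‖ι (F w.1) - ι (F w.2)‖ ≤ K' * ‖extChartAt I (F x) (F w.1) - extChartAt I (F x) (F w.2)‖ := q2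
    _ ≤ K' * (L * ‖extChartAt I x w.1 - extChartAt I x w.2‖) := mul_le_mul_of_nonneg_left q3 hK0
    _ ≤ K' * (L * (K * ‖ι w.1 - ι w.2‖)) :=
        mul_le_mul_of_nonneg_left (mul_le_mul_of_nonneg_left q1 hL0) hK0
    _ = K' * (L * K) * ‖ι w.1 - ι w.2‖ := by ring

end Pool.Agent.XM
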