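import Pool.Agent.Lib.MP_1e8d1a_an.XM.Defs

/-! Smooth embeddings in `ℝ^D`. -/

open scoped ContDiff Manifold Topology

namespace Pool.Agent.XM

variable {E : Type} [NormedAddCommGroup E] [NormedSpace ℝ E] {H : Type} [TopologicalSpace H]
  (I : ModelWithCorners ℝ E H) {W : Type} [TopologicalSpace W] [ChartedSpace H W]

/-- `ι` is a smooth embedding of the (compact) manifold `W` in `ℝ^D`: smooth, injective, with injective
derivatives. -/
structure IsEmb {D : ℕ} (ι : W → Fin D → ℝ) : Prop where
  smooth : ContMDiff I 𝓘(ℝ, Fin D → ℝ) ∞ ι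
  inj : Function.Injective ι
  imm : ∀ x, Function.Injective (mfderiv I 𝓘(ℝ, Fin D → ℝ) ι x)

end Pool.Agent.XM
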