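import Pool.Agent.Lib.MP_1e8d1a_an.XM.P1
import Pool.Agent.Lib.MP_1e8d1a_an.XM.A9

/-! Few short returns for a polynomial rate of mixing and measures with small balls. -/

open MeasureTheory Set Filter Topology

namespace Pool.Agent.XM

variable {M : Type} {D : ℕ} {ι : M → Fin D → ℝ}

/-- A return at a time `i < m` gives a return at a multiple of `i` in `[m, 2 m)`. -/
theorem ret_subset {F : M → M} {Λ : ℝ} (hΛ : 1 ≤ Λ)
    (hg : ∀ x y, ‖ι (F x) - ι (F y)‖ ≤ Λ * ‖ι x - ι y‖) {m i : ℕ} (hi : 1 ≤ i) (him : i < m)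
    {δ v : ℝ} (hv : 2 * (m : ℝ) * Λ ^ (2 * m) * δ ≤ v) :
    ret ι F i δ ⊆ ret ι F ((m / i + 1) * i) v := by
  intro x hx
  have hx' : ‖ι (F^[i] x) - ι x‖ < δ := hx
  have hδ : 0 < δ := (norm_nonneg _).trans_lt hx'
  have hΛ1 : 1 ≤ Λ ^ (2 * m) := one_le_pow₀ hΛ
  have h1 : m / i * i ≤ m := Nat.div_mul_le_self m i
  have h3 : (m / i + 1) * i = m / i * i + i := by ring
  have h4 : m / i + 1 ≤ 2 * m := by
    have h5 : m / i ≤ m := Nat.div_le_self m i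
    omega
  have h6 := A9_mult hΛ hg i x (2 * m) (m / i + 1) (by omega)
  have h7 : ((m / i + 1 : ℕ) : ℝ) ≤ 2 * (m : ℝ) := by exact_mod_cast h4
  have h8 : (0 : ℝ) < ((m / i + 1 : ℕ) : ℝ) := by positivity
  have h9 : (0 : ℝ) < Λ ^ (2 * m) := by linarith
  show ‖ι (F^[(m / i + 1) * i] x) - ι x‖ < v
  calc ‖ι (F^[(m / i + 1) * i] x) - ι x‖
      ≤ ((m / i + 1 : ℕ) : ℝ) * (Λ ^ (2 * m) * ‖ι (F^[i] x) - ι x‖) := h6
    _ < ((m / i + 1 : ℕ) : ℝ) * (Λ ^ (2 * m) * δ) :=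
        mul_lt_mul_of_pos_left (mul_lt_mul_of_pos_left hx' h9) h8
    _ ≤ 2 * (m : ℝ) * (Λ ^ (2 * m) * δ) := mul_le_mul_of_nonneg_right h7 (by positivity)
    _ = 2 * (m : ℝ) * Λ ^ (2 * m) * δ := by ring
    _ ≤ v := hv

theorem ret_mono {F : M → M} {i : ℕ} {δ v : ℝ} (h : δ ≤ v) : ret ι F i δ ⊆ ret ι F i v :=
  fun _ hx => lt_of_lt_of_le hx h

variable [TopologicalSpace M] [MeasurableSpace M]
  [BorelSpace M] {F : M → M} {μ : Measure M} [IsProbabilityMeasure μ] {φ : ℕ → ℝ}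

/-- The measure of the returns, polynomial rate. -/
theorem Mix2.ret_poly (h : Mix2 ι F μ φ) (hι : Continuous ι) (hF : Continuous F) {R : ℝ} (hR : 0 ≤ R)
    (hb : ∀ x, ‖ι x‖ ≤ R) {C₀ C₁ d γ : ℝ} (hC₀ : 0 ≤ C₀) (hd : 0 < d)
    (hφ : ∀ n : ℕ, 1 ≤ n → φ n ≤ C₀ * (n : ℝ) ^ (-(γ * (D + 2 + d))))
    (hball : ∀ (y : Fin D → ℝ) (ρ : ℝ), 0 < ρ → ρ ≤ 1 → μ.real (bset ι y ρ) ≤ C₁ * ρ ^ d)
    {n : ℕ} (hn : 1 ≤ n) {v : ℝ} (hv : (n : ℝ) ^ (-γ) ≤ v) (hv1 : v ≤ 1 / 4) :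
    μ.real (ret ι F n v) ≤ (2 ^ D * C₁ * 4 ^ d + (R + 1) ^ D * C₀) * v ^ d := by
  have hnR : (1 : ℝ) ≤ n := by exact_mod_cast hn
  have hn0 : (0 : ℝ) < n := by linarith
  have hv0 : 0 < v := lt_of_lt_of_le (Real.rpow_pos_of_pos hn0 _) hv
  have h1 := h.ret_le hι hF hR hb n hv0 (by linarith) (κ := C₁ * (4 * v) ^ d)
    (fun y => hball y (4 * v) (by linarith) (by linarith))
  have h2 : φ n ≤ C₀ * (v ^ D * v ^ 2 * v ^ d) := by
    refine (hφ n hn).trans (mul_le_mul_of_nonneg_left ?_ hC₀)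
    have h3 : (n : ℝ) ^ (-(γ * (D + 2 + d))) = ((n : ℝ) ^ (-γ)) ^ ((D : ℝ) + 2 + d) := by
      rw [← Real.rpow_mul hn0.le]
      congr 1
      ring
    have h4 : v ^ D * v ^ 2 * v ^ d = v ^ ((D : ℝ) + 2 + d) := by
      rw [Real.rpow_add hv0, Real.rpow_add hv0, Real.rpow_natCast]
      congr 2
      exact (Real.rpow_natCast v 2).symm
    rw [h3, h4]
    exact Real.rpow_le_rpow (Real.rpow_nonneg hn0.le _) hv (by positivity)
  have h5 : ((R + 1) / v) ^ D * (φ n / v ^ 2) ≤ (R + 1) ^ D * C₀ * v ^ d := by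
    have h6 : ((R + 1) / v) ^ D * (φ n / v ^ 2) ≤
        ((R + 1) / v) ^ D * (C₀ * (v ^ D * v ^ 2 * v ^ d) / v ^ 2) := by
      refine mul_le_mul_of_nonneg_left ?_ (pow_nonneg (div_nonneg (by linarith) hv0.le) D)
      exact div_le_div_of_nonneg_right h2 (sq_nonneg v)
    refine h6.trans (le_of_eq ?_)
    rw [div_pow]
    field_simp
  have h7 : 2 ^ D * (C₁ * (4 * v) ^ d) = 2 ^ D * C₁ * 4 ^ d * v ^ d := by
    rw [Real.mul_rpow (by norm_num) hv0.le]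
    ring
  rw [h7] at h1
  linarith

theorem tendsto_rpow_small {a : ℝ} (ha : 0 < a) :
    Tendsto (fun x : ℝ => x ^ a) (𝓝[>] 0) (𝓝 0) := by
  have h1 : Continuous fun x : ℝ => x ^ a := continuous_id.rpow_const fun _ => Or.inr ha.le
  have h2 := h1.tendsto 0
  rw [Real.zero_rpow ha.ne'] at h2
  exact h2.mono_left nhdsWithin_le_nhds

/-- **Few short returns, polynomial rate.** If `φ n ≤ C₀ n^(-γ (D + 2 + d))`, the measure of the balls of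
radius `ρ` is at most `C₁ ρ^d` and `1 < γ d`, `k < γ (D + 2 + d) d`, then there are `δ ≤ ρ` and `N` such that the
sum of the measures of the `δ`-returns at the times `1, ..., N - 1` is at most `ρ` and `φ N ≤ ρ δ^k`. -/
theorem Mix2.few (h : Mix2 ι F μ φ) (hι : Continuous ι) (hF : Continuous F) {R : ℝ} (hR : 0 ≤ R)
    (hb : ∀ x, ‖ι x‖ ≤ R) {Λ : ℝ} (hΛ : 1 ≤ Λ)
    (hg : ∀ x y, ‖ι (F x) - ι (F y)‖ ≤ Λ * ‖ι x - ι y‖)
    {C₀ C₁ d γ : ℝ} (hC₀ : 0 ≤ C₀) (hC₁ : 0 ≤ C₁) (hγ : 0 < γ) (hd : 0 < d)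
    (hφ : ∀ n : ℕ, 1 ≤ n → φ n ≤ C₀ * (n : ℝ) ^ (-(γ * (D + 2 + d))))
    (hball : ∀ (y : Fin D → ℝ) (ρ : ℝ), 0 < ρ → ρ ≤ 1 → μ.real (bset ι y ρ) ≤ C₁ * ρ ^ d)
    (h1 : 1 < γ * d) (k : ℕ) (hk : (k : ℝ) < γ * (D + 2 + d) * d) (ρ : ℝ) (hρ : 0 < ρ) :
    ∃ (δ : ℝ) (N : ℕ), 0 < δ ∧ δ ≤ ρ ∧ 1 ≤ N ∧
      ∑ i ∈ Finset.Ico 1 N, μ.real (ret ι F i δ) ≤ ρ ∧ φ N ≤ ρ * δ ^ k := by
  obtain ⟨A, hA⟩ : ∃ A : ℝ, A = 2 ^ D * C₁ * 4 ^ d + (R + 1) ^ D * C₀ := ⟨_, rfl⟩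
  have hA0 : 0 ≤ A := by
    rw [hA]
    positivity
  have hret : ∀ {n : ℕ}, 1 ≤ n → ∀ {v : ℝ}, (n : ℝ) ^ (-γ) ≤ v → v ≤ 1 / 4 →
      μ.real (ret ι F n v) ≤ A * v ^ d := by
    intro n hn v hv hv1
    rw [hA]
    exact h.ret_poly hι hF hR hb hC₀ hd hφ hball hn hv hv1
  -- the tail of the series
  have hsum : Summable fun n : ℕ => (n : ℝ) ^ (-(γ * d)) := Real.summable_nat_rpow.2 (by linarith)
  have ht1 : Tendsto (fun m : ℕ => A * ∑' j : ℕ, ((j + m : ℕ) : ℝ) ^ (-(γ * d))) atTop (𝓝 0) := by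
    have := (tendsto_sum_nat_add fun n : ℕ => (n : ℝ) ^ (-(γ * d))).const_mul A
    rwa [mul_zero] at this
  have ht2 : Tendsto (fun m : ℕ => A * (m : ℝ) ^ (-(γ * d - 1))) atTop (𝓝 0) := by
    have := ((tendsto_rpow_neg_atTop (by linarith : 0 < γ * d - 1)).comp
      tendsto_natCast_atTop_atTop).const_mul A
    rwa [mul_zero] at this
  have ht3 : Tendsto (fun m : ℕ => (m : ℝ) ^ (-γ)) atTop (𝓝 0) :=
    (tendsto_rpow_neg_atTop hγ).comp tendsto_natCast_atTop_atTop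
  obtain ⟨m, hm1, hm2, hm3, hm4⟩ : ∃ m : ℕ, A * ∑' j : ℕ, ((j + m : ℕ) : ℝ) ^ (-(γ * d)) < ρ / 3 ∧
      A * (m : ℝ) ^ (-(γ * d - 1)) < ρ / 3 ∧ (m : ℝ) ^ (-γ) < 1 / 4 ∧ 1 ≤ m := by
    have hρ3 : 0 < ρ / 3 := by linarith
    exact ((ht1.eventually_lt_const hρ3).and ((ht2.eventually_lt_const hρ3).and
      ((ht3.eventually_lt_const (by norm_num)).and (eventually_ge_atTop 1)))).exists
  have hmR : (1 : ℝ) ≤ m := by exact_mod_cast hm4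
  have hm0 : (0 : ℝ) < m := by linarith
  -- the exponent of `N`
  obtain ⟨κ, hκ⟩ : ∃ κ : ℝ, κ = γ * (D + 2 + d) := ⟨_, rfl⟩
  have hκ0 : 0 < κ := by
    rw [hκ]
    positivity
  rw [← hκ] at hk hφ
  obtain ⟨τ, hτ1, hτ2⟩ : ∃ τ : ℝ, (k : ℝ) / κ < τ ∧ τ < d :=
    exists_between (by rw [div_lt_iff₀ hκ0]; linarith)
  have hτ0 : 0 < τ := lt_of_le_of_lt (by positivity) hτ1
  have hkτ : (k : ℝ) < τ * κ := by
    rw [div_lt_iff₀ hκ0] at hτ1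
    exact hτ1
  -- the choice of `δ`
  have s1 : ∀ᶠ δ : ℝ in 𝓝[>] 0, 0 < δ := eventually_mem_nhdsWithin
  have hsm : ∀ {a c e : ℝ}, 0 < a → 0 < e → 0 ≤ c → ∀ᶠ δ : ℝ in 𝓝[>] 0, c * δ ^ a < e := by
    intro a c e ha he hc
    have := (tendsto_rpow_small ha).const_mul c
    rw [mul_zero] at this
    exact this.eventually_lt_const he
  have s2 : ∀ᶠ δ : ℝ in 𝓝[>] 0, 1 * δ ^ (1 : ℝ) < min ρ (1 / 4) :=
    hsm one_pos (lt_min hρ (by norm_num)) zero_le_one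
  have s3 : ∀ᶠ δ : ℝ in 𝓝[>] 0, 2 * (m : ℝ) * Λ ^ (2 * m) * δ ^ (1 : ℝ) < (m : ℝ) ^ (-γ) :=
    hsm one_pos (Real.rpow_pos_of_pos hm0 _) (by positivity)
  have s4 : ∀ᶠ δ : ℝ in 𝓝[>] 0, A * δ ^ (d - τ) < ρ / 6 :=
    hsm (by linarith) (by linarith) hA0
  have s5 : ∀ᶠ δ : ℝ in 𝓝[>] 0, A * δ ^ d < ρ / 6 := hsm hd (by linarith) hA0
  have s6 : ∀ᶠ δ : ℝ in 𝓝[>] 0, C₀ * δ ^ (τ * κ - k) < ρ := hsm (by linarith) hρ hC₀
  obtain ⟨δ, hδ, hδ2, hδ3, hδ4, hδ5, hδ6⟩ :=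
    (s1.and (s2.and (s3.and (s4.and (s5.and s6))))).exists
  rw [Real.rpow_one, one_mul, lt_min_iff] at hδ2
  rw [Real.rpow_one] at hδ3
  have hx : 0 < δ ^ (-τ) := Real.rpow_pos_of_pos hδ _
  obtain ⟨N, hN⟩ : ∃ N : ℕ, N = ⌈δ ^ (-τ)⌉₊ := ⟨_, rfl⟩
  have hN1 : 1 ≤ N := by
    rw [hN]
    exact Nat.one_le_iff_ne_zero.2 (Nat.ceil_pos.2 hx).ne'
  have hNle : δ ^ (-τ) ≤ N := by
    rw [hN]
    exact Nat.le_ceil _
  have hNge : (N : ℝ) ≤ δ ^ (-τ) + 1 := by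
    rw [hN]
    exact (Nat.ceil_lt_add_one hx.le).le
  have hN0 : (0 : ℝ) < N := by exact_mod_cast hN1
  refine ⟨δ, N, hδ, hδ2.1.le, hN1, ?_, ?_⟩
  · -- the terms
    have hterm : ∀ i ∈ Finset.Ico 1 N, μ.real (ret ι F i δ) ≤
        (if i < m then A * (m : ℝ) ^ (-(γ * d)) else 0) +
          (if m ≤ i then A * (i : ℝ) ^ (-(γ * d)) else 0) + A * δ ^ d := by
      intro i hi
      have hi1 : 1 ≤ i := (Finset.mem_Ico.1 hi).1
      have hiR : (1 : ℝ) ≤ i := by exact_mod_cast hi1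
      have hi0 : (0 : ℝ) < i := by linarith
      have hAδ : 0 ≤ A * δ ^ d := mul_nonneg hA0 (Real.rpow_nonneg hδ.le _)
      by_cases him : i < m
      · rw [if_pos him, if_neg (not_le.2 him), add_zero]
        have g1 : m < m / i * i + i := Nat.lt_div_mul_add hi1
        have g2 : (m / i + 1) * i = m / i * i + i := by ring
        have g3 : m ≤ (m / i + 1) * i := by omega
        have g4 : (m : ℝ) ≤ (((m / i + 1) * i : ℕ) : ℝ) := by exact_mod_cast g3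
        have g5 : (((m / i + 1) * i : ℕ) : ℝ) ^ (-γ) ≤ (m : ℝ) ^ (-γ) :=
          Real.rpow_le_rpow_of_nonpos hm0 g4 (by linarith)
        have g6 := hret (n := (m / i + 1) * i) (hm4.trans g3) g5 hm3.le
        have g7 : ((m : ℝ) ^ (-γ)) ^ d = (m : ℝ) ^ (-(γ * d)) := by
          rw [← Real.rpow_mul hm0.le]
          congr 1
          ring
        rw [g7] at g6
        have g8 : μ.real (ret ι F i δ) ≤ μ.real (ret ι F ((m / i + 1) * i) ((m : ℝ) ^ (-γ))) :=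
          measureReal_mono (ret_subset hΛ hg hi1 him hδ3.le)
        linarith
      · rw [if_neg him, if_pos (not_lt.1 him), zero_add]
        have hmi : (m : ℝ) ≤ i := by exact_mod_cast not_lt.1 him
        have g1 : (i : ℝ) ^ (-γ) ≤ 1 / 4 :=
          (Real.rpow_le_rpow_of_nonpos hm0 hmi (by linarith)).trans hm3.le
        have g7 : ((i : ℝ) ^ (-γ)) ^ d = (i : ℝ) ^ (-(γ * d)) := by
          rw [← Real.rpow_mul hi0.le]
          congr 1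
          ring
        have g9 : 0 ≤ A * (i : ℝ) ^ (-(γ * d)) := mul_nonneg hA0 (Real.rpow_nonneg hi0.le _)
        rcases le_total δ ((i : ℝ) ^ (-γ)) with hc | hc
        · have g6 := hret hi1 le_rfl g1
          rw [g7] at g6
          have g8 : μ.real (ret ι F i δ) ≤ μ.real (ret ι F i ((i : ℝ) ^ (-γ))) :=
            measureReal_mono (ret_mono hc)
          linarith
        · have g6 := hret hi1 hc hδ2.2.le
          linarith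
    refine (Finset.sum_le_sum hterm).trans ?_
    rw [Finset.sum_add_distrib, Finset.sum_add_distrib]
    have e1 : ∑ i ∈ Finset.Ico 1 N, (if i < m then A * (m : ℝ) ^ (-(γ * d)) else 0) ≤ ρ / 3 := by
      rw [← Finset.sum_filter, Finset.sum_const, nsmul_eq_mul]
      have g1 : ((Finset.Ico 1 N).filter fun i => i < m).card ≤ m := by
        have g2 : (Finset.Ico 1 N).filter (fun i => i < m) ⊆ Finset.range m := by
          intro i hi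
          exact Finset.mem_range.2 (Finset.mem_filter.1 hi).2
        exact (Finset.card_le_card g2).trans (Finset.card_range m).le
      have g3 : (((Finset.Ico 1 N).filter fun i => i < m).card : ℝ) ≤ m := by exact_mod_cast g1
      have g4 : 0 ≤ A * (m : ℝ) ^ (-(γ * d)) := mul_nonneg hA0 (Real.rpow_nonneg hm0.le _)
      have g5 : (m : ℝ) * (A * (m : ℝ) ^ (-(γ * d))) = A * (m : ℝ) ^ (-(γ * d - 1)) := by
        rw [show -(γ * d - 1) = -(γ * d) + 1 by ring, Real.rpow_add hm0, Real.rpow_one]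
        ring
      calc _ ≤ (m : ℝ) * (A * (m : ℝ) ^ (-(γ * d))) := mul_le_mul_of_nonneg_right g3 g4
        _ = A * (m : ℝ) ^ (-(γ * d - 1)) := g5
        _ ≤ ρ / 3 := hm2.le
    have e2 : ∑ i ∈ Finset.Ico 1 N, (if m ≤ i then A * (i : ℝ) ^ (-(γ * d)) else 0) ≤ ρ / 3 := by
      rw [← Finset.sum_filter]
      have g1 : (Finset.Ico 1 N).filter (fun i => m ≤ i) ⊆ Finset.Ico m (m + N) := by
        intro i hi
        rw [Finset.mem_filter, Finset.mem_Ico] at hi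
        rw [Finset.mem_Ico]
        omega
      have g2 : ∑ i ∈ (Finset.Ico 1 N).filter (fun i => m ≤ i), A * (i : ℝ) ^ (-(γ * d)) ≤
          ∑ i ∈ Finset.Ico m (m + N), A * (i : ℝ) ^ (-(γ * d)) :=
        Finset.sum_le_sum_of_subset_of_nonneg g1 fun i _ _ =>
          mul_nonneg hA0 (Real.rpow_nonneg (Nat.cast_nonneg i) _)
      refine g2.trans ?_
      rw [Finset.sum_Ico_eq_sum_range, ← Finset.mul_sum]
      refine le_trans (mul_le_mul_of_nonneg_left ?_ hA0) hm1.le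
      have g3 : Summable fun j : ℕ => ((j + m : ℕ) : ℝ) ^ (-(γ * d)) :=
        (summable_nat_add_iff m).2 hsum
      have g4 := g3.sum_le_tsum (Finset.range (m + N - m)) fun i _ =>
        Real.rpow_nonneg (Nat.cast_nonneg (i + m)) _
      refine le_trans (le_of_eq (Finset.sum_congr rfl fun j _ => ?_)) g4
      rw [add_comm m j]
    have e3 : ∑ _i ∈ Finset.Ico 1 N, A * δ ^ d ≤ ρ / 3 := by
      rw [Finset.sum_const, Nat.card_Ico, nsmul_eq_mul]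
      have g1 : ((N - 1 : ℕ) : ℝ) ≤ δ ^ (-τ) + 1 := by
        have : ((N - 1 : ℕ) : ℝ) ≤ N := by exact_mod_cast Nat.sub_le N 1
        linarith
      have g2 : 0 ≤ A * δ ^ d := mul_nonneg hA0 (Real.rpow_nonneg hδ.le _)
      have g3 : (δ ^ (-τ) + 1) * (A * δ ^ d) = A * δ ^ (d - τ) + A * δ ^ d := by
        rw [show d - τ = -τ + d by ring, Real.rpow_add hδ]
        ring
      calc _ ≤ (δ ^ (-τ) + 1) * (A * δ ^ d) := mul_le_mul_of_nonneg_right g1 g2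
        _ = A * δ ^ (d - τ) + A * δ ^ d := g3
        _ ≤ ρ / 3 := by linarith
    linarith
  · have g1 : φ N ≤ C₀ * (N : ℝ) ^ (-κ) := hφ N hN1
    have g2 : (N : ℝ) ^ (-κ) ≤ (δ ^ (-τ)) ^ (-κ) :=
      Real.rpow_le_rpow_of_nonpos hx hNle (by linarith)
    have g3 : (δ ^ (-τ)) ^ (-κ) = δ ^ (τ * κ - k) * δ ^ k := by
      rw [← Real.rpow_mul hδ.le, ← Real.rpow_natCast δ k, ← Real.rpow_add hδ]
      congr 1
      ring
    calc φ N ≤ C₀ * (N : ℝ) ^ (-κ) := g1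
      _ ≤ C₀ * (δ ^ (-τ)) ^ (-κ) := mul_le_mul_of_nonneg_left g2 hC₀
      _ = (C₀ * δ ^ (τ * κ - k)) * δ ^ k := by
          rw [g3]
          ring
      _ ≤ ρ * δ ^ k := mul_le_mul_of_nonneg_right hδ6.le (pow_nonneg hδ.le k)

/-- **Few short returns, rapid mixing.** If the rate `φ` is faster than every power of `n` and the measure of the
balls of radius `ρ` is at most `C₁ ρ^d` then there are few short returns. -/
theorem Mix2.fewReturns_rapid (h : Mix2 ι F μ φ) (hι : Continuous ι) (hF : Continuous F) {R : ℝ}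
    (hR : 0 ≤ R) (hb : ∀ x, ‖ι x‖ ≤ R) {Λ : ℝ} (hΛ : 1 ≤ Λ)
    (hg : ∀ x y, ‖ι (F x) - ι (F y)‖ ≤ Λ * ‖ι x - ι y‖) {C₁ d : ℝ} (hC₁ : 0 ≤ C₁) (hd : 0 < d)
    (hφ : ∀ κ : ℕ, ∃ C₀ : ℝ, ∀ n : ℕ, 1 ≤ n → φ n ≤ C₀ * (n : ℝ) ^ (-(κ : ℝ)))
    (hball : ∀ (y : Fin D → ℝ) (ρ : ℝ), 0 < ρ → ρ ≤ 1 → μ.real (bset ι y ρ) ≤ C₁ * ρ ^ d) :
    ∀ k : ℕ, FewReturns ι F μ φ k := by
  intro k ρ hρ
  obtain ⟨γ, hγ⟩ : ∃ γ : ℝ, γ = (k + 2) / d := ⟨_, rfl⟩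
  have hγ0 : 0 < γ := by
    rw [hγ]
    positivity
  have hγd : γ * d = k + 2 := by
    rw [hγ]
    field_simp
  have hk0 : (0 : ℝ) ≤ k := Nat.cast_nonneg k
  have hD0 : (0 : ℝ) ≤ D := Nat.cast_nonneg D
  obtain ⟨C₀, hC₀⟩ := hφ ⌈γ * (D + 2 + d)⌉₊
  refine h.few hι hF hR hb hΛ hg (C₀ := |C₀|) (abs_nonneg C₀) hC₁ hγ0 hd ?_ hball (by linarith) k ?_
    ρ hρ
  · intro n hn
    have hnR : (1 : ℝ) ≤ n := by exact_mod_cast hn
    have hn0 : (0 : ℝ) < n := by linarith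
    have h1 : (n : ℝ) ^ (-((⌈γ * (D + 2 + d)⌉₊ : ℕ) : ℝ)) ≤ (n : ℝ) ^ (-(γ * (D + 2 + d))) :=
      Real.rpow_le_rpow_of_exponent_le hnR (neg_le_neg (Nat.le_ceil _))
    have h2 : 0 ≤ (n : ℝ) ^ (-((⌈γ * (D + 2 + d)⌉₊ : ℕ) : ℝ)) := Real.rpow_nonneg hn0.le _
    calc φ n ≤ C₀ * (n : ℝ) ^ (-((⌈γ * (D + 2 + d)⌉₊ : ℕ) : ℝ)) := hC₀ n hn
      _ ≤ |C₀| * (n : ℝ) ^ (-((⌈γ * (D + 2 + d)⌉₊ : ℕ) : ℝ)) :=
          mul_le_mul_of_nonneg_right (le_abs_self C₀) h2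
      _ ≤ |C₀| * (n : ℝ) ^ (-(γ * (D + 2 + d))) := mul_le_mul_of_nonneg_left h1 (abs_nonneg C₀)
  · have h1 : γ * (D + 2 + d) * d = (k + 2) * (D + 2 + d) := by
      rw [← hγd]
      ring
    rw [h1]
    nlinarith

end Pool.Agent.XM
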