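import Pool.Agent.Lib.MP_1e8d1a_an.XM.Q2
import Pool.Agent.Lib.MP_1e8d1a_an.XM.Q3
import Pool.Agent.Lib.MP_1e8d1a_an.XM.Clos2
import Pool.Agent.Lib.MP_1e8d1a_an.XM.E3

/-! Mixing diffeomorphisms can be closed at the points of the support of the measure. -/

open scoped ContDiff Manifold Topology
open Filter MeasureTheory

namespace Pool.Agent.XM

open Pool.Agent.SC

variable {E : Type} [NormedAddCommGroup E] [NormedSpace ℝ E] [FiniteDimensional ℝ E]
  {H : Type} [TopologicalSpace H] {I : ModelWithCorners ℝ E H} [I.Boundaryless]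
  {W : Type} [TopologicalSpace W] [T2Space W] [ChartedSpace H W] [IsManifold I ∞ W] [CompactSpace W]

/-- The points of the support: the balls of the embedding have positive measure. -/
theorem support_pos [MeasurableSpace W] {D : ℕ} {ι : W → Fin D → ℝ} (hc : Continuous ι)
    (μ : Measure W) [IsProbabilityMeasure μ] {p : W} (hp : ∀ O ∈ 𝓝 p, 0 < μ O) (η : ℝ)
    (hη : 0 < η) : 0 < μ.real (bset ι (ι p) η) := by
  have h2 : bset ι (ι p) η ∈ 𝓝 p := by
    have h3 : IsOpen (bset ι (ι p) η) :=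
      isOpen_lt ((hc.sub continuous_const).norm) continuous_const
    refine h3.mem_nhds ?_
    show ‖ι p - ι p‖ < η
    rw [sub_self, norm_zero]
    exact hη
  exact ENNReal.toReal_pos (hp _ h2).ne' (measure_ne_top μ _)

/-- If the support has one point only, then this is a fixed point. -/
theorem fixed_of_support [MeasurableSpace W] [BorelSpace W] {D : ℕ} {ι : W → Fin D → ℝ}
    (hι : IsEmb I ι) {r : ℕ∞} (F : W ≃ₘ^r⟮I, I⟯ W) (μ : Measure W) [IsProbabilityMeasure μ]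
    (hinv : MeasurePreserving F μ μ) (p : W)
    (hq : ¬ ∃ q, q ≠ p ∧ ∀ O ∈ 𝓝 q, 0 < μ O) : F p = p := by
  have hc : Continuous ι := hι.smooth.continuous
  have hemb : Topology.IsEmbedding ι := (hc.isClosedEmbedding hι.inj).isEmbedding
  have hsc : SecondCountableTopology W := hemb.secondCountableTopology
  have h0 : μ ({p}ᶜ : Set W) = 0 := by
    refine measure_null_of_locally_null _ fun q hqp => ?_
    by_contra hne
    push Not at hne
    refine hq ⟨q, hqp, fun O hO => ?_⟩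
    exact pos_iff_ne_zero.2 (hne O (mem_nhdsWithin_of_mem_nhds hO))
  by_contra hF
  have h1 : F.symm p ∈ ({p}ᶜ : Set W) := by
    intro h2
    apply hF
    have h3 : F.symm p = p := h2
    calc F p = F (F.symm p) := by rw [h3]
      _ = p := F.apply_symm_apply p
  have h2 : μ {F.symm p} = 0 := measure_mono_null (Set.singleton_subset_iff.2 h1) h0
  have h3 : (F : W → W) ⁻¹' {p} = {F.symm p} := by
    ext w
    simp only [Set.mem_preimage, Set.mem_singleton_iff]
    constructor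
    · intro h
      rw [← h]
      exact (F.symm_apply_apply w).symm
    · intro h
      rw [h]
      exact F.apply_symm_apply p
  have h4 : μ {p} = 0 := by
    rw [← hinv.measure_preimage (measurableSet_singleton p).nullMeasurableSet, h3]
    exact h2
  have h5 : μ (Set.univ : Set W) = 0 := by
    rw [← Set.union_compl_self {p}]
    exact nonpos_iff_eq_zero.1 ((measure_union_le _ _).trans (by rw [h4, h0, add_zero]))
  rw [measure_univ] at h5
  exact one_ne_zero h5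

/-- **Closing for mixing maps with few short returns.** -/
theorem closable_of_few [MeasurableSpace W] [BorelSpace W] {D : ℕ} {ι : W → Fin D → ℝ}
    (hι : IsEmb I ι) {r : ℕ∞} (hr : 1 ≤ r) (F : W ≃ₘ^r⟮I, I⟯ W) (μ : Measure W)
    [IsProbabilityMeasure μ] (hinv : MeasurePreserving F μ μ) (p q : W) (hpq : p ≠ q)
    (hp : ∀ O ∈ 𝓝 p, 0 < μ O) (hq : ∀ O ∈ 𝓝 q, 0 < μ O)
    (hfew : ∀ k : ℕ, (k : ℕ∞) ≤ r → FewMix ι F μ ((k + 1) * (2 * D + 2))) :
    Closable I F p := by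
  have hc : Continuous ι := hι.smooth.continuous
  refine closable_of_exchange hι hr F p q hpq fun k ε η hk hε hη => ?_
  exact core_two hc F.continuous hinv k (hfew k hk) (ι p) (ι q) (support_pos hc μ hp)
    (support_pos hc μ hq) hε hη

/-- The standing assumptions hold for a `C¹` diffeomorphism of a compact manifold. -/
theorem exists_sys [MeasurableSpace W] {D : ℕ} {ι : W → Fin D → ℝ} (hι : IsEmb I ι)
    {r : ℕ∞} (hr : 1 ≤ r) (F : W ≃ₘ^r⟮I, I⟯ W) (μ : Measure W) {C θ : ℝ} (h0 : 0 < θ) (h1 : θ < 1)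
    (hinv : MeasurePreserving F μ μ) (hmix : Mix2 ι F μ (fun n => C * θ ^ n))
    (hnd : ∀ x, μ {x} ≠ 1) [IsProbabilityMeasure μ] :
    ∃ C' Λ R : ℝ, Sys ι F.toHomeomorph μ C' θ Λ R := by
  have hr' : (1 : WithTop ℕ∞) ≤ (r : WithTop ℕ∞) := by exact_mod_cast hr
  have hc : Continuous ι := hι.smooth.continuous
  obtain ⟨Λ₁, hΛ₁, hl₁⟩ := hι.lip (F := F) (F.contMDiff_toFun.of_le hr')
  obtain ⟨Λ₂, hΛ₂, hl₂⟩ := hι.lip (F := F.symm) (F.symm.contMDiff_toFun.of_le hr')
  obtain ⟨R, hR⟩ : ∃ R : ℝ, ∀ x, ‖ι x‖ ≤ R := by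
    obtain ⟨R, hR⟩ := (isCompact_range hc).isBounded.exists_norm_le
    exact ⟨R, fun x => hR _ ⟨x, rfl⟩⟩
  refine ⟨max C 1, max Λ₁ Λ₂, max R 0, ?_⟩
  refine
    { cont := hc
      inj := hι.inj
      one_le_C := le_max_right _ _
      θ_pos := h0
      θ_lt := h1
      two_le_Λ := hΛ₁.trans (le_max_left _ _)
      R_nonneg := le_max_right _ _
      bound := fun x => (hR x).trans (le_max_left _ _)
      lip := fun x y => (hl₁ x y).trans
        (mul_le_mul_of_nonneg_right (le_max_left _ _) (norm_nonneg _))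
      lip' := fun x y => (hl₂ x y).trans
        (mul_le_mul_of_nonneg_right (le_max_right _ _) (norm_nonneg _))
      inv := hinv
      mix := ?_
      nd := hnd }
  exact fun n => (hmix n).mono (nonempty_of_isProbabilityMeasure μ)
    (mul_le_mul_of_nonneg_right (le_max_left _ _) (pow_nonneg h0.le _))

/-- Few short returns for a polynomial rate. -/
theorem few_of_power [MeasurableSpace W] [BorelSpace W] {D : ℕ} {ι : W → Fin D → ℝ}
    (hι : IsEmb I ι) {r : ℕ∞} (hr : 1 ≤ r) (F : W ≃ₘ^r⟮I, I⟯ W) (μ : Measure W)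
    [IsProbabilityMeasure μ] {d C₁ κ C : ℝ} (hd : 0 < d)
    (hball : ∀ (y : Fin D → ℝ) (ρ : ℝ), 0 < ρ → ρ ≤ 1 → μ.real (bset ι y ρ) ≤ C₁ * ρ ^ d)
    (k : ℕ) (h1 : D + 2 + d < κ * d) (h2 : (k : ℝ) < κ * d)
    (hmix : Mix2 ι F μ (fun n => C * ((n : ℝ) + 1) ^ (-κ))) :
    FewReturns ι F μ (fun n => C * ((n : ℝ) + 1) ^ (-κ)) k := by
  have hr' : (1 : WithTop ℕ∞) ≤ (r : WithTop ℕ∞) := by exact_mod_cast hr
  have hc : Continuous ι := hι.smooth.continuous
  obtain ⟨Λ, hΛ, hl⟩ := hι.lip (F := F) (F.contMDiff_toFun.of_le hr')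
  obtain ⟨R, hR⟩ : ∃ R : ℝ, ∀ x, ‖ι x‖ ≤ R := by
    obtain ⟨R, hR⟩ := (isCompact_range hc).isBounded.exists_norm_le
    exact ⟨R, fun x => hR _ ⟨x, rfl⟩⟩
  have hC : 0 ≤ C := by
    have h3 := hmix.rate_nonneg 0
    simpa using h3
  have hD : (0 : ℝ) ≤ D := Nat.cast_nonneg D
  have hS : 0 < (D : ℝ) + 2 + d := by linarith
  have hκ : 0 < κ := by
    by_contra hneg
    have h3 : κ * d ≤ 0 := mul_nonpos_of_nonpos_of_nonneg (not_lt.1 hneg) hd.le
    linarith
  obtain ⟨γ, hγ⟩ : ∃ γ : ℝ, γ = κ / (D + 2 + d) := ⟨_, rfl⟩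
  have hγ0 : 0 < γ := by rw [hγ]; positivity
  have hγS : γ * (D + 2 + d) = κ := by rw [hγ]; field_simp
  have hγd : 1 < γ * d := by
    rw [hγ, div_mul_eq_mul_div, lt_div_iff₀ hS]
    linarith
  have hk : (k : ℝ) < γ * (D + 2 + d) * d := by rw [hγS]; exact h2
  intro ρ hρ
  refine hmix.few (R := max R 0) (Λ := Λ) (C₀ := C) (C₁ := max C₁ 0) hc F.continuous
    (le_max_right _ _) (fun x => (hR x).trans (le_max_left _ _)) (by linarith) hl hC
    (le_max_right _ _) hγ0 hd ?_ ?_ hγd k hk ρ hρ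
  · intro n hn
    rw [hγS]
    refine mul_le_mul_of_nonneg_left ?_ hC
    have hn0 : (0 : ℝ) < n := by exact_mod_cast hn
    exact Real.rpow_le_rpow_of_nonpos hn0 (by linarith) (by linarith)
  · intro y ρ' h3 h4
    refine (hball y ρ' h3 h4).trans ?_
    exact mul_le_mul_of_nonneg_right (le_max_left _ _) (Real.rpow_nonneg h3.le _)

/-- Balls centred at the points of the image are enough. -/
theorem ball_centre [MeasurableSpace W] {D : ℕ} {ι : W → Fin D → ℝ} (μ : Measure W)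
    [IsProbabilityMeasure μ] {d C₁ : ℝ} (hd : 0 < d)
    (hball : ∀ (x : W) (ρ : ℝ), 0 < ρ → ρ ≤ 1 → μ.real {z | ‖ι z - ι x‖ < ρ} ≤ C₁ * ρ ^ d)
    (y : Fin D → ℝ) (ρ : ℝ) (h0 : 0 < ρ) (h1 : ρ ≤ 1) :
    μ.real (bset ι y ρ) ≤ max (C₁ * 2 ^ d) (2 ^ d) * ρ ^ d := by
  have hρ : 0 ≤ ρ ^ d := Real.rpow_nonneg h0.le _
  rcases Set.eq_empty_or_nonempty (bset ι y ρ) with he | ⟨x, hx⟩
  · rw [he, measureReal_empty]
    have h2 : (0 : ℝ) ≤ 2 ^ d := Real.rpow_nonneg (by norm_num) _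
    exact mul_nonneg (h2.trans (le_max_right _ _)) hρ
  · by_cases h : ρ ≤ 1 / 2
    · have h2 : bset ι y ρ ⊆ {z | ‖ι z - ι x‖ < 2 * ρ} := by
        intro z hz
        have hz' : ‖ι z - y‖ < ρ := hz
        have hx' : ‖ι x - y‖ < ρ := hx
        show ‖ι z - ι x‖ < 2 * ρ
        have e : ι z - ι x = (ι z - y) - (ι x - y) := by abel
        rw [e]
        exact (norm_sub_le _ _).trans_lt (by linarith)
      calc μ.real (bset ι y ρ) ≤ μ.real {z | ‖ι z - ι x‖ < 2 * ρ} := measureReal_mono h2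
        _ ≤ C₁ * (2 * ρ) ^ d := hball x (2 * ρ) (by linarith) (by linarith)
        _ = C₁ * 2 ^ d * ρ ^ d := by
          rw [Real.mul_rpow (by norm_num) h0.le]
          ring
        _ ≤ _ := mul_le_mul_of_nonneg_right (le_max_left _ _) hρ
    · calc μ.real (bset ι y ρ) ≤ 1 := measureReal_le_one
        _ ≤ (2 * ρ) ^ d := Real.one_le_rpow (by linarith) hd.le
        _ = 2 ^ d * ρ ^ d := Real.mul_rpow (by norm_num) h0.le
        _ ≤ _ := mul_le_mul_of_nonneg_right (le_max_right _ _) hρ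

/-- **Closing, three kinds of mixing.** -/
theorem closable_of_mixing [MeasurableSpace W] [BorelSpace W] {D : ℕ} {ι : W → Fin D → ℝ}
    (hι : IsEmb I ι) {r : ℕ∞} (hr : 1 ≤ r) (F : W ≃ₘ^r⟮I, I⟯ W) (μ : Measure W)
    [IsProbabilityMeasure μ] (hinv : MeasurePreserving F μ μ) (p : W) (hp : ∀ O ∈ 𝓝 p, 0 < μ O)
    (hmix : (∃ C θ : ℝ, 0 < θ ∧ θ < 1 ∧ Mix2 ι F μ fun n => C * θ ^ n) ∨
      (∃ d C₁ : ℝ, 0 < d ∧
        (∀ (x : W) (ρ : ℝ), 0 < ρ → ρ ≤ 1 → μ.real {z | ‖ι z - ι x‖ < ρ} ≤ C₁ * ρ ^ d) ∧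
        ∀ k : ℕ, (k : ℕ∞) ≤ r → ∃ C κ : ℝ, D + 2 + d < κ * d ∧
          ((k + 1) * (2 * D + 2) : ℝ) < κ * d ∧ Mix2 ι F μ fun n => C * ((n : ℝ) + 1) ^ (-κ)) ∨
      ∀ k : ℕ, (k : ℕ∞) ≤ r → FewMix ι F μ ((k + 1) * (2 * D + 2))) : Closable I F p := by
  have hW := nonempty_of_isProbabilityMeasure μ
  by_cases hq : ∃ q, q ≠ p ∧ ∀ O ∈ 𝓝 q, 0 < μ O
  · obtain ⟨q, hqp, hq⟩ := hq
    refine closable_of_few hι hr F μ hinv p q hqp.symm hp hq fun k hk => ?_
    rcases hmix with ⟨C, θ, h0, h1, hmix⟩ | ⟨d, C₁, hd, hball, hmix⟩ | hmix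
    · have hnd : ∀ x : W, μ {x} ≠ 1 := by
        intro x hx
        have h2 : μ ({x}ᶜ : Set W) = 0 := by
          rw [measure_compl (measurableSet_singleton x) (measure_ne_top μ _), hx, measure_univ,
            tsub_self]
        have h3 : ∀ z : W, (∀ O ∈ 𝓝 z, 0 < μ O) → z = x := by
          intro z hz
          by_contra hne
          exact (hz _ (isOpen_compl_singleton.mem_nhds hne)).ne' h2
        exact hqp ((h3 q hq).trans (h3 p hp).symm)
      obtain ⟨C', Λ, R, h⟩ := exists_sys hι hr F μ h0 h1 hinv hmix hnd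
      exact (h.few _).fewMix h.mix hW
    · obtain ⟨C, κ, h1, h2, hmix⟩ := hmix k hk
      refine (few_of_power hι hr F μ hd (ball_centre μ hd hball) _ h1 ?_ hmix).fewMix hmix hW
      push_cast
      exact h2
    · exact hmix k hk
  · have hfix := fixed_of_support hι F μ hinv p hq
    intro U hU
    refine ⟨F, @mem_of_mem_nhds _ (crTopology I r) _ _ hU, 1, one_pos, ?_⟩
    rw [Function.iterate_one]
    exact hfix

end Pool.Agent.XM
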