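import Pool.Agent.Lib.MP_1e8d1a_an.SC.Rec

/-! Nonwandering points return at arbitrarily large times. -/

open scoped Topology
open Filter

namespace Pool.Agent.XM

/-- A nonwandering point of a continuous map has returns at arbitrarily large times. -/
theorem returns_large {Z : Type} [TopologicalSpace Z] [T2Space Z] (g : Z → Z) (hg : Continuous g)
    (z₀ : Z) (hnw : ∀ O ∈ 𝓝 z₀, ∃ n : ℕ, 0 < n ∧ ∃ x ∈ O, g^[n] x ∈ O) :
    ∀ O ∈ 𝓝 z₀, ∀ M : ℕ, ∃ n : ℕ, M ≤ n ∧ 0 < n ∧ ∃ x ∈ O, g^[n] x ∈ O := by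
  intro O hO M
  by_cases hper : ∃ p : ℕ, 0 < p ∧ g^[p] z₀ = z₀
  · obtain ⟨p, hp, hpz⟩ := hper
    refine ⟨p * (M + 1), by nlinarith, by positivity, z₀, mem_of_mem_nhds hO, ?_⟩
    have h1 : g^[p * (M + 1)] z₀ = z₀ := by
      rw [Function.iterate_mul]
      exact Function.iterate_fixed hpz (M + 1)
    rw [h1]
    exact mem_of_mem_nhds hO
  · push Not at hper
    have h1 : ∀ n : ℕ, ∃ V ∈ 𝓝 z₀, 0 < n → ∀ x ∈ V, g^[n] x ∉ V := by
      intro n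
      by_cases hn : 0 < n
      · obtain ⟨A, B, hA, hB, hzA, hzB, hAB⟩ := t2_separation (hper n hn)
        refine ⟨B ∩ g^[n] ⁻¹' A, inter_mem (hB.mem_nhds hzB)
          ((hg.iterate n).continuousAt.preimage_mem_nhds (hA.mem_nhds hzA)), fun _ x hx hx' => ?_⟩
        exact Set.disjoint_left.1 hAB hx.2 hx'.1
      · exact ⟨Set.univ, univ_mem, fun h => absurd h hn⟩
    choose V hV hVn using h1
    have h2 : O ∩ ⋂ n ∈ Finset.range M, V n ∈ 𝓝 z₀ :=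
      inter_mem hO ((biInter_finset_mem _).2 fun n _ => hV n)
    obtain ⟨n, hn, x, hx, hxn⟩ := hnw _ h2
    refine ⟨n, ?_, hn, x, hx.1, hxn.1⟩
    by_contra hlt
    push Not at hlt
    have hx2 := hx.2
    have hxn2 := hxn.2
    rw [Set.mem_iInter₂] at hx2 hxn2
    exact hVn n hn x (hx2 n (Finset.mem_range.2 hlt)) (hxn2 n (Finset.mem_range.2 hlt))

/-- The same, in the distance of a continuous map `κ`. -/
theorem returns_kappa {Z : Type} [TopologicalSpace Z] [T2Space Z] {D : ℕ} {κ : Z → Fin D → ℝ}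
    (hκ : Continuous κ) (g : Z → Z) (hg : Continuous g) (z₀ : Z)
    (hnw : ∀ O ∈ 𝓝 z₀, ∃ n : ℕ, 0 < n ∧ ∃ x ∈ O, g^[n] x ∈ O) :
    ∀ ζ : ℝ, 0 < ζ → ∀ M : ℕ, ∃ (z : Z) (m : ℕ), M ≤ m ∧ ‖κ z - κ z₀‖ < ζ ∧
      ‖κ (g^[m] z) - κ z₀‖ < ζ := by
  intro ζ hζ M
  have hO : {z : Z | ‖κ z - κ z₀‖ < ζ} ∈ 𝓝 z₀ := by
    have h1 : Continuous fun z => ‖κ z - κ z₀‖ := (hκ.sub continuous_const).norm
    refine (isOpen_lt h1 continuous_const).mem_nhds ?_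
    show ‖κ z₀ - κ z₀‖ < ζ
    rw [sub_self, norm_zero]
    exact hζ
  obtain ⟨n, hMn, -, x, hx, hxn⟩ := returns_large g hg z₀ hnw _ hO M
  exact ⟨x, n, hMn, hx, hxn⟩

/-- Recurrent points of homeomorphisms are nonwandering. -/
theorem nonwandering_of_recurrent {Z : Type} [TopologicalSpace Z] [T1Space Z] (g : Z ≃ₜ Z) (z₀ : Z)
    (hrec : SC.Recurrent g.toEquiv z₀) :
    ∀ O ∈ 𝓝 z₀, ∃ n : ℕ, 0 < n ∧ ∃ x ∈ O, (g : Z → Z)^[n] x ∈ O := by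
  intro O hO
  obtain ⟨n, -, hn0, -, x, hx, hxn⟩ := SC.returns_of_recurrent g z₀ hrec 1 one_pos 1 O hO
  exact ⟨n, hn0, x, hx, hxn⟩

end Pool.Agent.XM
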