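import Pool.Agent.Lib.MP_1e8d1a_an.XM.Clos2
import Pool.Agent.Lib.MP_1e8d1a_an.EQ.B3

/-! Products of embedded manifolds: the product embedding, closing by two bumps in the maximum of the
two distances, and a packing bound near a point of an embedded manifold. -/

open scoped ContDiff Manifold Topology
open Filter

namespace Pool.Agent.XM

open Pool.Agent.SC

section

variable {E : Type} [NormedAddCommGroup E] [NormedSpace ℝ E] {H : Type} [TopologicalSpace H]
  {I : ModelWithCorners ℝ E H} {W : Type} [TopologicalSpace W] [ChartedSpace H W]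
  [FiniteDimensional ℝ E] [IsManifold I ∞ W] [I.Boundaryless] [CompactSpace W] [T2Space W]

/-- The distance of the embedding and the chart at `p`: what is needed for one bump. -/
theorem IsEmb.chart_local {D : ℕ} {ι : W → Fin D → ℝ} (h : IsEmb I ι) (p : W) {s₀ : ℝ}
    (hs₀ : 0 < s₀) :
    ∃ K η : ℝ, 1 ≤ K ∧ 0 < η ∧ ∀ x : W, ‖ι x - ι p‖ < η →
      x ∈ (extChartAt I p).source ∧ ‖extChartAt I p x - extChartAt I p p‖ ≤ s₀ ∧
      (∀ x' : W, ‖ι x' - ι p‖ < η →
        ‖extChartAt I p x - extChartAt I p x'‖ ≤ K * ‖ι x - ι x'‖) ∧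
      ∀ (s : ℝ) (z : W), 0 < s → s ≤ η → z ∈ (extChartAt I p).source →
        ‖extChartAt I p z - extChartAt I p x‖ < s → ‖ι z - ι x‖ < K * s := by
  obtain ⟨K, R, hK, hR, hc⟩ := h.chart_compare p
  have hU : {x : W | x ∈ (extChartAt I p).source ∧
      ‖extChartAt I p x - extChartAt I p p‖ < min s₀ (R / 2)} ∈ 𝓝 p := by
    have c1 : ContinuousAt (extChartAt I p) p := continuousAt_extChartAt p
    have e1 : ∀ᶠ u in 𝓝 p, u ∈ (extChartAt I p).source := extChartAt_source_mem_nhds p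
    have e3 : ∀ᶠ u in 𝓝 p, ‖extChartAt I p u - extChartAt I p p‖ < min s₀ (R / 2) := by
      have := c1.eventually (Metric.ball_mem_nhds (extChartAt I p p)
        (lt_min hs₀ (half_pos hR)))
      filter_upwards [this] with u hu
      rwa [dist_eq_norm] at hu
    filter_upwards [e1, e3] with u a1 a2
    exact ⟨a1, a2⟩
  obtain ⟨η, hη, hηU⟩ := exists_eta h.smooth.continuous h.inj p hU
  refine ⟨K, min η (R / 2), hK, lt_min hη (half_pos hR), ?_⟩
  intro x hx
  obtain ⟨a1, a2⟩ := hηU x (hx.trans_le (min_le_left _ _))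
  refine ⟨a1, (a2.trans_le (min_le_left _ _)).le, ?_, ?_⟩
  · intro x' hx'
    obtain ⟨b1, b2⟩ := hηU x' (hx'.trans_le (min_le_left _ _))
    obtain ⟨-, -, h3⟩ := hc (extChartAt I p x) (extChartAt I p x')
      (a2.trans_le ((min_le_right _ _).trans (by linarith)))
      (b2.trans_le ((min_le_right _ _).trans (by linarith)))
    rwa [(extChartAt I p).left_inv a1, (extChartAt I p).left_inv b1] at h3
  · intro s z hs hsη hz hzx
    have h4 : ‖extChartAt I p x - extChartAt I p p‖ < R / 2 := a2.trans_le (min_le_right _ _)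
    have h5 : s ≤ R / 2 := hsη.trans (min_le_right _ _)
    have h6 : ‖extChartAt I p z - extChartAt I p p‖ < R := by
      have h7 := norm_sub_le_norm_sub_add_norm_sub (extChartAt I p z) (extChartAt I p x)
        (extChartAt I p p)
      linarith
    obtain ⟨-, h3, -⟩ := hc (extChartAt I p z) (extChartAt I p x) h6 (by linarith)
    rw [(extChartAt I p).left_inv a1, (extChartAt I p).left_inv hz] at h3
    exact h3.trans_lt (mul_lt_mul_of_pos_left hzx (by linarith))

end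

theorem norm_append_sub {D D' : ℕ} (a a' : Fin D → ℝ) (b b' : Fin D' → ℝ) :
    ‖Fin.append a b - Fin.append a' b'‖ = max ‖a - a'‖ ‖b - b'‖ := by
  apply le_antisymm
  · rw [pi_norm_le_iff_of_nonneg (le_max_of_le_left (norm_nonneg _))]
    intro i
    refine Fin.addCases (fun j => ?_) (fun j => ?_) i
    · rw [Pi.sub_apply, Fin.append_left, Fin.append_left, ← Pi.sub_apply]
      exact (norm_le_pi_norm (a - a') j).trans (le_max_left _ _)
    · rw [Pi.sub_apply, Fin.append_right, Fin.append_right, ← Pi.sub_apply]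
      exact (norm_le_pi_norm (b - b') j).trans (le_max_right _ _)
  · apply max_le
    · rw [pi_norm_le_iff_of_nonneg (norm_nonneg _)]
      intro j
      have h := norm_le_pi_norm (Fin.append a b - Fin.append a' b') (Fin.castAdd D' j)
      rwa [Pi.sub_apply, Fin.append_left, Fin.append_left, ← Pi.sub_apply] at h
    · rw [pi_norm_le_iff_of_nonneg (norm_nonneg _)]
      intro j
      have h := norm_le_pi_norm (Fin.append a b - Fin.append a' b') (Fin.natAdd D j)
      rwa [Pi.sub_apply, Fin.append_right, Fin.append_right, ← Pi.sub_apply] at h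

section

variable {E : Type} [NormedAddCommGroup E] [NormedSpace ℝ E] {H : Type} [TopologicalSpace H]
  {I : ModelWithCorners ℝ E H} {Z : Type} [TopologicalSpace Z] [ChartedSpace H Z]
  {E' : Type} [NormedAddCommGroup E'] [NormedSpace ℝ E'] {H' : Type} [TopologicalSpace H']
  {I' : ModelWithCorners ℝ E' H'} {X : Type} [TopologicalSpace X] [ChartedSpace H' X]

/-- The product of two embeddings. -/
theorem IsEmb.prod {D D' : ℕ} {κ : Z → Fin D → ℝ} {ι : X → Fin D' → ℝ} (hκ : IsEmb I κ)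
    (hι : IsEmb I' ι) :
    IsEmb (I.prod I') (fun w : Z × X => Fin.append (κ w.1) (ι w.2)) := by
  have hs : ContMDiff (I.prod I') 𝓘(ℝ, Fin (D + D') → ℝ) ∞
      (fun w : Z × X => Fin.append (κ w.1) (ι w.2)) := by
    rw [contMDiff_pi_space]
    intro i
    refine Fin.addCases (fun j => ?_) (fun j => ?_) i
    · have h1 := (contMDiff_pi_space.1 hκ.smooth j).comp (contMDiff_fst (M := Z) (N := X) (I := I) (J := I'))
      refine h1.congr fun w => ?_
      rw [Fin.append_left]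
      rfl
    · have h1 := (contMDiff_pi_space.1 hι.smooth j).comp (contMDiff_snd (M := Z) (N := X) (I := I) (J := I'))
      refine h1.congr fun w => ?_
      rw [Fin.append_right]
      rfl
  refine ⟨hs, ?_, ?_⟩
  · intro w w' h
    have h0 : ‖Fin.append (κ w.1) (ι w.2) - Fin.append (κ w'.1) (ι w'.2)‖ = 0 := by
      rw [norm_eq_zero, sub_eq_zero]
      exact h
    rw [norm_append_sub] at h0
    have h1 : ‖κ w.1 - κ w'.1‖ = 0 :=
      le_antisymm ((le_max_left _ _).trans h0.le) (norm_nonneg _)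
    have h2 : ‖ι w.2 - ι w'.2‖ = 0 :=
      le_antisymm ((le_max_right _ _).trans h0.le) (norm_nonneg _)
    exact Prod.ext (hκ.inj (sub_eq_zero.1 (norm_eq_zero.1 h1)))
      (hι.inj (sub_eq_zero.1 (norm_eq_zero.1 h2)))
  · intro w
    let f : Z × X → Fin (D + D') → ℝ := fun w => Fin.append (κ w.1) (ι w.2)
    have hf : HasMFDerivAt (I.prod I') 𝓘(ℝ, Fin (D + D') → ℝ) f w
        (mfderiv (I.prod I') 𝓘(ℝ, Fin (D + D') → ℝ) f w) :=
      ((hs w).mdifferentiableAt (by simp)).hasMFDerivAt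
    have hk : HasMFDerivAt I 𝓘(ℝ, Fin D → ℝ) κ w.1 (mfderiv I 𝓘(ℝ, Fin D → ℝ) κ w.1) :=
      ((hκ.smooth w.1).mdifferentiableAt (by simp)).hasMFDerivAt
    have hi : HasMFDerivAt I' 𝓘(ℝ, Fin D' → ℝ) ι w.2 (mfderiv I' 𝓘(ℝ, Fin D' → ℝ) ι w.2) :=
      ((hι.smooth w.2).mdifferentiableAt (by simp)).hasMFDerivAt
    let L : (Fin (D + D') → ℝ) →L[ℝ] (Fin D → ℝ) :=
      ContinuousLinearMap.pi fun j => ContinuousLinearMap.proj (Fin.castAdd D' j)
    let L' : (Fin (D + D') → ℝ) →L[ℝ] (Fin D' → ℝ) :=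
      ContinuousLinearMap.pi fun j => ContinuousLinearMap.proj (Fin.natAdd D j)
    have e1 : (L ∘ f) = κ ∘ Prod.fst := by
      funext w j
      show Fin.append (κ w.1) (ι w.2) (Fin.castAdd D' j) = κ w.1 j
      rw [Fin.append_left]
    have e2 : (L' ∘ f) = ι ∘ Prod.snd := by
      funext w j
      show Fin.append (κ w.1) (ι w.2) (Fin.natAdd D j) = ι w.2 j
      rw [Fin.append_right]
    have a1 := HasMFDerivAt.comp w (L.hasMFDerivAt (x := f w)) hf
    have a2 := HasMFDerivAt.comp w (L'.hasMFDerivAt (x := f w)) hf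
    rw [e1] at a1
    rw [e2] at a2
    have g1 : HasMFDerivAt (I.prod I') I (Prod.fst : Z × X → Z) w
        (ContinuousLinearMap.fst ℝ (TangentSpace I w.1) (TangentSpace I' w.2)) :=
      hasMFDerivAt_fst w
    have g2 : HasMFDerivAt (I.prod I') I' (Prod.snd : Z × X → X) w
        (ContinuousLinearMap.snd ℝ (TangentSpace I w.1) (TangentSpace I' w.2)) :=
      hasMFDerivAt_snd w
    have b1 := HasMFDerivAt.comp w (f := (Prod.fst : Z × X → Z)) hk g1
    have b2 := HasMFDerivAt.comp w (f := (Prod.snd : Z × X → X)) hi g2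
    have c1 := hasMFDerivAt_unique a1 b1
    have c2 := hasMFDerivAt_unique a2 b2
    intro u v huv
    have d1 : mfderiv I 𝓘(ℝ, Fin D → ℝ) κ w.1 u.1 = mfderiv I 𝓘(ℝ, Fin D → ℝ) κ w.1 v.1 := by
      have t1 := congrArg (fun T => T u) c1
      have t2 := congrArg (fun T => T v) c1
      have t3 : L (mfderiv (I.prod I') 𝓘(ℝ, Fin (D + D') → ℝ) f w u) =
        L (mfderiv (I.prod I') 𝓘(ℝ, Fin (D + D') → ℝ) f w v) := congrArg L huv
      exact (t1.symm.trans t3).trans t2
    have d2 : mfderiv I' 𝓘(ℝ, Fin D' → ℝ) ι w.2 u.2 = mfderiv I' 𝓘(ℝ, Fin D' → ℝ) ι w.2 v.2 := by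
      have t1 := congrArg (fun T => T u) c2
      have t2 := congrArg (fun T => T v) c2
      have t3 : L' (mfderiv (I.prod I') 𝓘(ℝ, Fin (D + D') → ℝ) f w u) =
        L' (mfderiv (I.prod I') 𝓘(ℝ, Fin (D + D') → ℝ) f w v) := congrArg L' huv
      exact (t1.symm.trans t3).trans t2
    exact Prod.ext (hκ.imm w.1 d1) (hι.imm w.2 d2)

/-- The distance of the product. -/
noncomputable def pd {D D' : ℕ} (κ : Z → Fin D → ℝ) (ι : X → Fin D' → ℝ) (a b : Z × X) : ℝ :=
  max ‖κ a.1 - κ b.1‖ ‖ι a.2 - ι b.2‖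

/-- **The closing criterion with two bumps** for products. -/
theorem closable_prod_of_two [FiniteDimensional ℝ E] [IsManifold I ∞ Z] [I.Boundaryless]
    [CompactSpace Z] [T2Space Z] [FiniteDimensional ℝ E'] [IsManifold I' ∞ X] [I'.Boundaryless]
    [CompactSpace X] [T2Space X] {D D' : ℕ} {κ : Z → Fin D → ℝ} {ι : X → Fin D' → ℝ}
    (hκ : IsEmb I κ) (hι : IsEmb I' ι) {r : ℕ∞} (hr : 1 ≤ r)
    (F : (Z × X) ≃ₘ^r⟮I.prod I', I.prod I'⟯ (Z × X)) (p q : Z × X) (hpq : p ≠ q)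
    (hex : ∀ k : ℕ, (k : ℕ∞) ≤ r → ∀ ε η : ℝ, 0 < ε → 0 < η →
      ∃ (x y : Z × X) (N : ℕ) (δ : ℝ), 1 ≤ N ∧ 0 < δ ∧ δ ≤ η ∧ pd κ ι x p < η ∧ pd κ ι y q < η ∧
        pd κ ι ((F : Z × X → Z × X)^[N] x) y < ε * δ ^ k ∧
        pd κ ι ((F : Z × X → Z × X)^[N] y) x < ε * δ ^ k ∧
        ∀ j, 0 < j → j < N → δ ≤ pd κ ι ((F : Z × X → Z × X)^[j] x) x ∧
          δ ≤ pd κ ι ((F : Z × X → Z × X)^[j] x) y ∧ δ ≤ pd κ ι ((F : Z × X → Z × X)^[j] y) x ∧
          δ ≤ pd κ ι ((F : Z × X → Z × X)^[j] y) y) :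
    Closable (I.prod I') F p := by
  refine closable_of_exchange (hκ.prod hι) hr F p q hpq fun k ε η hk hε hη => ?_
  simpa only [norm_append_sub, pd] using hex k hk ε η hε hη

/-- The packing bound near a point of an embedded compact manifold. -/
theorem IsEmb.packing [FiniteDimensional ℝ E] [IsManifold I ∞ Z] [I.Boundaryless]
    [CompactSpace Z] [T2Space Z] {D : ℕ} {κ : Z → Fin D → ℝ} (h : IsEmb I κ) (p : Z) :
    ∃ C η : ℝ, 1 ≤ C ∧ 0 < η ∧ ∀ (J : Finset ℕ) (c : ℕ → Z) (x : Z) (ρ s : ℝ), 0 < s → s ≤ ρ →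
      s ≤ η → ‖κ x - κ p‖ < η → (∀ i ∈ J, ‖κ (c i) - κ p‖ < η) →
      (∀ i ∈ J, ‖κ (c i) - κ x‖ ≤ ρ) →
      (∀ i ∈ J, ∀ j ∈ J, i ≠ j → s ≤ ‖κ (c i) - κ (c j)‖) →
      (J.card : ℝ) ≤ C * (ρ / s) ^ Module.finrank ℝ E := by
  obtain ⟨K, η, hK, hη, hloc⟩ := h.chart_local p one_pos
  have hK0 : 0 < K := by linarith
  refine ⟨(1 + 2 * K ^ 2) ^ Module.finrank ℝ E, η,
    one_le_pow₀ (by nlinarith [sq_nonneg K]), hη, ?_⟩
  intro J c x ρ s hs hsρ hsη hx hc hcx hsep
  have hρ : 0 < ρ := hs.trans_le hsρ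
  have h1 : ∀ i ∈ J, ‖extChartAt I p (c i) - extChartAt I p x‖ ≤ K * ρ := by
    intro i hi
    obtain ⟨-, -, h3, -⟩ := hloc (c i) (hc i hi)
    exact (h3 x hx).trans (mul_le_mul_of_nonneg_left (hcx i hi) hK0.le)
  have h2 : ∀ i ∈ J, ∀ j ∈ J, i ≠ j →
      s / K ≤ ‖extChartAt I p (c i) - extChartAt I p (c j)‖ := by
    intro i hi j hj hij
    by_contra hlt
    push Not at hlt
    obtain ⟨hsi, -, -, -⟩ := hloc (c i) (hc i hi)
    obtain ⟨-, -, -, h4⟩ := hloc (c j) (hc j hj)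
    have h5 := h4 (s / K) (c i) (by positivity) ((div_le_self hs.le hK).trans hsη) hsi hlt
    have h6 : K * (s / K) = s := by field_simp
    have h7 := hsep i hi j hj hij
    linarith
  have h3 := EQ.card_le_of_separated E J (fun i => extChartAt I p (c i)) (extChartAt I p x) (K * ρ)
    (s / K) (by positivity) (by positivity) h1 h2
  refine h3.trans ?_
  rw [← mul_pow]
  refine pow_le_pow_left₀ (by positivity) ?_ _
  have h4 : 1 ≤ ρ / s := (one_le_div hs).2 hsρ
  have h5 : 2 * (K * ρ) / (s / K) = 2 * K ^ 2 * (ρ / s) := by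
    field_simp
  rw [h5]
  nlinarith

end

end Pool.Agent.XM
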