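import Pool.Agent.Lib.MP_1e8d1a_an.XM.A1

/-! Few short returns: definitions. -/

open MeasureTheory Set Filter Topology

namespace Pool.Agent.XM

variable {M : Type} {D : ℕ}

/-- the points which return to their `δ`-neighbourhood at the time `i` -/
def ret (ι : M → Fin D → ℝ) (F : M → M) (i : ℕ) (δ : ℝ) : Set M := {x | ‖ι (F^[i] x) - ι x‖ < δ}

/-- Few short returns up to a time at which the mixing is strong (with the exponent `k`). -/
def FewReturns [MeasurableSpace M] (ι : M → Fin D → ℝ) (F : M → M) (μ : Measure M) (φ : ℕ → ℝ)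
    (k : ℕ) : Prop :=
  ∀ ρ : ℝ, 0 < ρ → ∃ (δ : ℝ) (N : ℕ), 0 < δ ∧ δ ≤ ρ ∧ 1 ≤ N ∧
    ∑ i ∈ Finset.Ico 1 N, μ.real (ret ι F i δ) ≤ ρ ∧ φ N ≤ ρ * δ ^ k

theorem Mix2.rate_nonneg [MeasurableSpace M] {ι : M → Fin D → ℝ} {F : M → M} {μ : Measure M}
    {φ : ℕ → ℝ} (h : Mix2 ι F μ φ) (n : ℕ) : 0 ≤ φ n := by
  have h1 := h n (fun _ => 1) (fun _ => 1) 1 1 LipB.one LipB.one
  have h2 := (abs_nonneg _).trans h1
  linarith

theorem MixAt.nonneg [MeasurableSpace M] {ι : M → Fin D → ℝ} {F : M → M} {μ : Measure M}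
    {n : ℕ} {c : ℝ} (h : MixAt ι F μ n c) : 0 ≤ c := by
  have h1 := h (fun _ => 1) (fun _ => 1) 1 1 LipB.one LipB.one
  have h2 := (abs_nonneg _).trans h1
  linarith

theorem MixAt.mono [MeasurableSpace M] {ι : M → Fin D → ℝ} {F : M → M} {μ : Measure M}
    {n : ℕ} {c c' : ℝ} (h : MixAt ι F μ n c) (hM : Nonempty M) (hc : c ≤ c') :
    MixAt ι F μ n c' := by
  intro f g K L hf hg
  obtain ⟨x⟩ := hM
  have e₀ : 0 ≤ K := (abs_nonneg _).trans (hf.1 x)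
  have e₁ : 0 ≤ L := (abs_nonneg _).trans (hg.1 x)
  exact (h f g K L hf hg).trans
    (mul_le_mul_of_nonneg_right (mul_le_mul_of_nonneg_right hc e₀) e₁)

/-- Mixing at the scale `δ^k` at a time before which few points return to their
`δ`-neighbourhood. -/
def FewMix [MeasurableSpace M] (ι : M → Fin D → ℝ) (F : M → M) (μ : Measure M) (k : ℕ) : Prop :=
  ∀ ρ : ℝ, 0 < ρ → ∃ (δ : ℝ) (N : ℕ), 0 < δ ∧ δ ≤ ρ ∧ 1 ≤ N ∧
    ∑ i ∈ Finset.Ico 1 N, μ.real {x | ‖ι (F^[i] x) - ι x‖ < δ} ≤ ρ ∧ MixAt ι F μ N (ρ * δ ^ k)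

theorem FewReturns.fewMix [MeasurableSpace M] {ι : M → Fin D → ℝ} {F : M → M} {μ : Measure M}
    {φ : ℕ → ℝ} {k : ℕ} (h : FewReturns ι F μ φ k) (hmix : Mix2 ι F μ φ) (hM : Nonempty M) :
    FewMix ι F μ k := by
  intro ρ hρ
  obtain ⟨δ, N, h1, h2, h3, h4, h5⟩ := h ρ hρ
  exact ⟨δ, N, h1, h2, h3, h4, (hmix N).mono hM h5⟩

theorem ret_measurable [TopologicalSpace M] [MeasurableSpace M] [BorelSpace M] {ι : M → Fin D → ℝ}
    (hι : Continuous ι) {F : M → M} (hF : Continuous F) (i : ℕ) (δ : ℝ) :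
    MeasurableSet (ret ι F i δ) := by
  have h1 : Continuous fun x => ‖ι (F^[i] x) - ι x‖ :=
    ((hι.comp (hF.iterate i)).sub hι).norm
  exact (isOpen_lt h1 continuous_const).measurableSet

end Pool.Agent.XM
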