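import Pool.Agent.Lib.MP_1e8d1a_an.XM.Q1

/-! The core for mixing of order two: two points whose orbits lead near the other point, without near
returns before. -/

open MeasureTheory Set Filter Topology

namespace Pool.Agent.XM

set_option linter.unusedSectionVars false

variable {M : Type} {D : ℕ} {ι : M → Fin D → ℝ} [TopologicalSpace M] [MeasurableSpace M]
  [BorelSpace M] {μ : Measure M} [IsProbabilityMeasure μ]

/-- the points with a return near the first or near the last point of their orbit segment -/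
def badSet (ι : M → Fin D → ℝ) (F : M → M) (N : ℕ) (Δ : ℝ) : Set M :=
  (⋃ j ∈ Finset.Ico 1 N, ret ι F j Δ) ∪ ⋃ j ∈ Finset.Ico 1 N, F^[j] ⁻¹' ret ι F (N - j) Δ

theorem badSet_measurable (hι : Continuous ι) {F : M → M} (hF : Continuous F) (N : ℕ) (Δ : ℝ) :
    MeasurableSet (badSet ι F N Δ) := by
  refine MeasurableSet.union ?_ ?_
  · exact Finset.measurableSet_biUnion _ fun j _ => ret_measurable hι hF j Δ
  · exact Finset.measurableSet_biUnion _ fun j _ =>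
      (hF.iterate j).measurable (ret_measurable hι hF (N - j) Δ)

theorem badSet_le (hι : Continuous ι) {F : M → M} (hF : Continuous F)
    (hinv : MeasurePreserving F μ μ) (N : ℕ) (Δ : ℝ) :
    μ.real (badSet ι F N Δ) ≤ 2 * ∑ i ∈ Finset.Ico 1 N, μ.real (ret ι F i Δ) := by
  have h1 : μ.real (⋃ j ∈ Finset.Ico 1 N, ret ι F j Δ) ≤ ∑ i ∈ Finset.Ico 1 N, μ.real (ret ι F i Δ) :=
    measureReal_biUnion_finset_le _ _
  have h2 : μ.real (⋃ j ∈ Finset.Ico 1 N, F^[j] ⁻¹' ret ι F (N - j) Δ) ≤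
      ∑ i ∈ Finset.Ico 1 N, μ.real (ret ι F i Δ) := by
    refine (measureReal_biUnion_finset_le _ _).trans (le_of_eq ?_)
    have h3 : ∀ j ∈ Finset.Ico 1 N, μ.real (F^[j] ⁻¹' ret ι F (N - j) Δ) = μ.real (ret ι F (N - j) Δ) := by
      intro j _
      unfold Measure.real
      rw [(hinv.iterate j).measure_preimage (ret_measurable hι hF (N - j) Δ).nullMeasurableSet]
    rw [Finset.sum_congr rfl h3]
    refine Finset.sum_nbij' (fun j => N - j) (fun j => N - j) ?_ ?_ ?_ ?_ ?_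
    · intro j hj
      rw [Finset.mem_Ico] at hj ⊢
      omega
    · intro j hj
      rw [Finset.mem_Ico] at hj ⊢
      omega
    · intro j hj
      rw [Finset.mem_Ico] at hj
      show N - (N - j) = j
      omega
    · intro j hj
      rw [Finset.mem_Ico] at hj
      show N - (N - j) = j
      omega
    · intro j _
      rfl
  have h3 := measureReal_union_le (μ := μ) (⋃ j ∈ Finset.Ico 1 N, ret ι F j Δ)
    (⋃ j ∈ Finset.Ico 1 N, F^[j] ⁻¹' ret ι F (N - j) Δ)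
  have h4 : μ.real (badSet ι F N Δ) ≤ μ.real (⋃ j ∈ Finset.Ico 1 N, ret ι F j Δ) +
    μ.real (⋃ j ∈ Finset.Ico 1 N, F^[j] ⁻¹' ret ι F (N - j) Δ) := h3
  linarith

theorem notMem_badSet {F : M → M} {N : ℕ} {Δ : ℝ} {x : M} (hx : x ∉ badSet ι F N Δ) {j : ℕ}
    (hj : 0 < j) (hjN : j < N) :
    Δ ≤ ‖ι (F^[j] x) - ι x‖ ∧ Δ ≤ ‖ι (F^[j] x) - ι (F^[N] x)‖ := by
  have hmem : j ∈ Finset.Ico 1 N := Finset.mem_Ico.mpr ⟨hj, hjN⟩
  constructor
  · by_contra hlt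
    apply hx
    refine Or.inl ?_
    rw [mem_iUnion₂]
    exact ⟨j, hmem, not_le.mp hlt⟩
  · by_contra hlt
    apply hx
    refine Or.inr ?_
    rw [mem_iUnion₂]
    refine ⟨j, hmem, ?_⟩
    show ‖ι (F^[N - j] (F^[j] x)) - ι (F^[j] x)‖ < Δ
    rw [← Function.iterate_add_apply, Nat.sub_add_cancel hjN.le, norm_sub_rev]
    exact not_le.mp hlt

/-- Two points whose orbits lead near the other point, without near returns before. -/
theorem core_two (hι : Continuous ι) {F : M → M} (hF : Continuous F)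
    (hinv : MeasurePreserving F μ μ) (r : ℕ) (hfew : FewMix ι F μ ((r + 1) * (2 * D + 2)))
    (c c' : Fin D → ℝ) (hc : ∀ η : ℝ, 0 < η → 0 < μ.real (bset ι c η))
    (hc' : ∀ η : ℝ, 0 < η → 0 < μ.real (bset ι c' η)) {ε η : ℝ} (hε : 0 < ε) (hη : 0 < η) :
    ∃ (x y : M) (N : ℕ) (δ : ℝ), 1 ≤ N ∧ 0 < δ ∧ δ ≤ η ∧ ‖ι x - c‖ < η ∧ ‖ι y - c'‖ < η ∧
      ‖ι (F^[N] x) - ι y‖ < ε * δ ^ r ∧ ‖ι (F^[N] y) - ι x‖ < ε * δ ^ r ∧
      ∀ j, 0 < j → j < N → δ ≤ ‖ι (F^[j] x) - ι x‖ ∧ δ ≤ ‖ι (F^[j] x) - ι y‖ ∧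
        δ ≤ ‖ι (F^[j] y) - ι x‖ ∧ δ ≤ ‖ι (F^[j] y) - ι y‖ := by
  set η₁ : ℝ := η / 2 with hη₁
  have hη₁0 : 0 < η₁ := by positivity
  set a : ℝ := μ.real (bset ι c (η₁ / 2)) with ha
  set a' : ℝ := μ.real (bset ι c' (η₁ / 2)) with ha'
  have ha0 : 0 < a := hc _ (by positivity)
  have ha'0 : 0 < a' := hc' _ (by positivity)
  set κ : ℝ := min (ε / (8 * 2 ^ r)) (1 / 8) with hκ
  have hκ0 : 0 < κ := by positivity
  have hκ1 : κ ≤ 1 / 8 := min_le_right _ _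
  have hκ2 : κ ≤ ε / (8 * 2 ^ r) := min_le_left _ _
  set k : ℕ := (r + 1) * (2 * D + 2) with hk
  set ρ : ℝ := min (min 1 η₁) (min (a * a' / (16 * 4 ^ D))
    (1 / 4 * 4 ^ D * κ ^ (2 * D + 2) * (a * a') / ((2 * η₁) ^ D * (2 * η₁) ^ D))) with hρ
  have hρ0 : 0 < ρ := by positivity
  have hρ1 : ρ ≤ 1 := (min_le_left _ _).trans (min_le_left _ _)
  have hρ2 : ρ ≤ η₁ := (min_le_left _ _).trans (min_le_right _ _)
  have hρ3 : ρ ≤ a * a' / (16 * 4 ^ D) := (min_le_right _ _).trans (min_le_left _ _)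
  have hρ4 : ρ ≤ 1 / 4 * 4 ^ D * κ ^ (2 * D + 2) * (a * a') / ((2 * η₁) ^ D * (2 * η₁) ^ D) :=
    (min_le_right _ _).trans (min_le_right _ _)
  obtain ⟨Δ, N, hΔ, hΔρ, hN, hsum, hmix⟩ := hfew ρ hρ0
  have hsum : ∑ i ∈ Finset.Ico 1 N, μ.real (ret ι F i Δ) ≤ ρ := hsum
  have hΔ1 : Δ ≤ 1 := hΔρ.trans hρ1
  set s : ℝ := κ * Δ ^ (r + 1) with hs
  have hs0 : 0 < s := by positivity
  have hsΔ : s ≤ Δ / 8 := by
    have h1 : Δ ^ (r + 1) ≤ Δ := by
      calc Δ ^ (r + 1) ≤ Δ ^ 1 := pow_le_pow_of_le_one hΔ.le hΔ1 (by omega)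
        _ = Δ := pow_one Δ
    calc s ≤ 1 / 8 * Δ := mul_le_mul hκ1 h1 (by positivity) (by norm_num)
      _ = Δ / 8 := by ring
  have hs1 : s ≤ 1 := by linarith
  have hsη : s ≤ η₁ / 2 := by linarith
  have hBad := badSet_measurable (ι := ι) hι hF N Δ
  have hBadle : μ.real (badSet ι F N Δ) ≤ 2 * ρ :=
    (badSet_le hι hF hinv N Δ).trans (by linarith)
  have hφ0 := hmix.nonneg
  have hT : a ≤ μ.real (bset ι c (η₁ - s)) := by
    refine measureReal_mono (fun x hx => ?_)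
    have hx' : ‖ι x - c‖ < η₁ / 2 := hx
    show ‖ι x - c‖ < η₁ - s
    linarith
  have hT' : a' ≤ μ.real (bset ι c' (η₁ - s)) := by
    refine measureReal_mono (fun x hx => ?_)
    have hx' : ‖ι x - c'‖ < η₁ / 2 := hx
    show ‖ι x - c'‖ < η₁ - s
    linarith
  have hnum : (2 * η₁) ^ D * ((2 * η₁) ^ D * (ρ * Δ ^ k / s ^ 2)) +
      2 * ((4 * s) ^ D * ((4 * s) ^ D * μ.real (badSet ι F N Δ))) <
      ((2 * s) ^ D * μ.real (bset ι c (η₁ - s))) * ((2 * s) ^ D * μ.real (bset ι c' (η₁ - s))) := by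
    have h1 : ((2 * s) ^ D * a) * ((2 * s) ^ D * a') ≤
        ((2 * s) ^ D * μ.real (bset ι c (η₁ - s))) * ((2 * s) ^ D * μ.real (bset ι c' (η₁ - s))) := by
      gcongr
    have h2 : 2 * ((4 * s) ^ D * ((4 * s) ^ D * μ.real (badSet ι F N Δ))) ≤
        1 / 4 * (((2 * s) ^ D * a) * ((2 * s) ^ D * a')) := by
      rw [le_div_iff₀ (by positivity)] at hρ3
      have h3 : (4 * s) ^ D = 2 ^ D * (2 * s) ^ D := by rw [← mul_pow]; congr 1; ring
      have h4 : (4 : ℝ) ^ D = 2 ^ D * 2 ^ D := by rw [← mul_pow]; norm_num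
      have h5 : 2 * ((4 * s) ^ D * ((4 * s) ^ D * μ.real (badSet ι F N Δ))) ≤
          2 * ((4 * s) ^ D * ((4 * s) ^ D * (2 * ρ))) := by gcongr
      refine h5.trans ?_
      rw [h3]
      have h6 : 0 ≤ (2 * s) ^ D * (2 * s) ^ D := by positivity
      rw [h4] at hρ3
      have h7 := mul_le_mul_of_nonneg_left hρ3 h6
      calc 2 * (2 ^ D * (2 * s) ^ D * (2 ^ D * (2 * s) ^ D * (2 * ρ)))
          = 1 / 4 * ((2 * s) ^ D * (2 * s) ^ D * (ρ * (16 * (2 ^ D * 2 ^ D)))) := by ring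
        _ ≤ 1 / 4 * ((2 * s) ^ D * (2 * s) ^ D * (a * a')) := by linarith
        _ = _ := by ring
    have h3 : (2 * η₁) ^ D * ((2 * η₁) ^ D * (ρ * Δ ^ k / s ^ 2)) ≤
        1 / 4 * (((2 * s) ^ D * a) * ((2 * s) ^ D * a')) := by
      rw [le_div_iff₀ (by positivity)] at hρ4
      have h6 : (2 * η₁) ^ D * ((2 * η₁) ^ D * (ρ * Δ ^ k / s ^ 2)) =
          (ρ * ((2 * η₁) ^ D * (2 * η₁) ^ D)) * Δ ^ k / s ^ 2 := by ring
      rw [h6, div_le_iff₀ (by positivity)]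
      have h7 : (ρ * ((2 * η₁) ^ D * (2 * η₁) ^ D)) * Δ ^ k ≤
          (1 / 4 * 4 ^ D * κ ^ (2 * D + 2) * (a * a')) * Δ ^ k :=
        mul_le_mul_of_nonneg_right hρ4 (by positivity)
      refine h7.trans (le_of_eq ?_)
      have h8 : s ^ (2 * D + 2) = κ ^ (2 * D + 2) * Δ ^ k := by
        rw [hs, mul_pow, ← pow_mul, hk]
      have h9 : (2 * s) ^ D * (2 * s) ^ D = 4 ^ D * s ^ (2 * D) := by
        rw [← mul_pow, pow_mul, ← mul_pow]
        congr 1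
        ring
      calc 1 / 4 * 4 ^ D * κ ^ (2 * D + 2) * (a * a') * Δ ^ k
          = 1 / 4 * (4 ^ D * (κ ^ (2 * D + 2) * Δ ^ k)) * (a * a') := by ring
        _ = 1 / 4 * (4 ^ D * s ^ (2 * D + 2)) * (a * a') := by rw [h8]
        _ = 1 / 4 * (4 ^ D * s ^ (2 * D) * s ^ 2) * (a * a') := by rw [pow_add]; ring
        _ = 1 / 4 * (((2 * s) ^ D * (2 * s) ^ D) * s ^ 2) * (a * a') := by rw [h9]
        _ = _ := by ring
    have h4 : 0 < ((2 * s) ^ D * a) * ((2 * s) ^ D * a') := by positivity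
    linarith
  obtain ⟨y, z, hy, hz, ⟨x, hx1, hx2, hx3⟩, x', hx'1, hx'2, hx'3⟩ :=
    pair_selection hι hF hmix hs0 hs1 (by linarith) c c' hφ0 hBad hnum
  have hd1 : ‖ι (F^[N] x) - ι x'‖ < 4 * s := by
    have h1 : ι (F^[N] x) - ι x' = (ι (F^[N] x) - z) - (ι x' - z) := by abel
    rw [h1]
    exact lt_of_le_of_lt (norm_sub_le _ _) (by linarith)
  have hd2 : ‖ι (F^[N] x') - ι x‖ < 4 * s := by
    have h1 : ι (F^[N] x') - ι x = (ι (F^[N] x') - y) - (ι x - y) := by abel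
    rw [h1]
    exact lt_of_le_of_lt (norm_sub_le _ _) (by linarith)
  have h4s : 4 * s ≤ ε * (Δ / 2) ^ r := by
    rw [le_div_iff₀ (by positivity)] at hκ2
    rw [div_pow, ← mul_div_assoc, le_div_iff₀ (by positivity), hs]
    have h1 : Δ ^ (r + 1) ≤ Δ ^ r := pow_le_pow_of_le_one hΔ.le hΔ1 (by omega)
    calc 4 * (κ * Δ ^ (r + 1)) * 2 ^ r = 1 / 2 * ((κ * (8 * 2 ^ r)) * Δ ^ (r + 1)) := by ring
      _ ≤ 1 / 2 * (ε * Δ ^ r) := by
        have h2 : (κ * (8 * 2 ^ r)) * Δ ^ (r + 1) ≤ ε * Δ ^ r :=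
          mul_le_mul hκ2 h1 (by positivity) hε.le
        linarith
      _ ≤ ε * Δ ^ r := by
        have : 0 < ε * Δ ^ r := by positivity
        linarith
  refine ⟨x, x', N, Δ / 2, hN, by positivity, by linarith, ?_, ?_, by linarith, by linarith, ?_⟩
  · have h1 : ι x - c = (ι x - y) + (y - c) := by abel
    rw [h1]
    exact lt_of_le_of_lt (norm_add_le _ _) (by linarith)
  · have h1 : ι x' - c' = (ι x' - z) + (z - c') := by abel
    rw [h1]
    exact lt_of_le_of_lt (norm_add_le _ _) (by linarith)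
  · intro j hj hjN
    obtain ⟨b1, b2⟩ := notMem_badSet hx1 hj hjN
    obtain ⟨b3, b4⟩ := notMem_badSet hx'1 hj hjN
    refine ⟨by linarith, ?_, ?_, by linarith⟩
    · have h1 : ι (F^[j] x) - ι (F^[N] x) = (ι (F^[j] x) - ι x') - (ι (F^[N] x) - ι x') := by abel
      have h2 := norm_sub_le (ι (F^[j] x) - ι x') (ι (F^[N] x) - ι x')
      rw [← h1] at h2
      linarith
    · have h1 : ι (F^[j] x') - ι (F^[N] x') = (ι (F^[j] x') - ι x) - (ι (F^[N] x') - ι x) := by abel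
      have h2 := norm_sub_le (ι (F^[j] x') - ι x) (ι (F^[N] x') - ι x)
      rw [← h1] at h2
      linarith

end Pool.Agent.XM
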