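import Pool.Agent.Lib.MP_1e8d1a_an.XM.Clos2

/-! Two bumps for a family of perturbations `A (t, ·)` of `F = A (0, ·)`. -/

open scoped ContDiff Manifold Topology BoundedContinuousFunction
open Filter

namespace Pool.Agent.XM

open Pool.Agent.SC Pool.Agent.EQ

variable {E : Type} [NormedAddCommGroup E] [NormedSpace ℝ E] [FiniteDimensional ℝ E]
  {H : Type} [TopologicalSpace H] {I : ModelWithCorners ℝ E H} [I.Boundaryless]
  {W : Type} [TopologicalSpace W] [T2Space W] [ChartedSpace H W] [IsManifold I ∞ W]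
  {Q : Type} [NormedAddCommGroup Q] [NormedSpace ℝ Q]

/-- **Two small shifts in charts, composed with a map of a family, are a small perturbation.** -/
theorem near_family {r : ℕ∞} (hr : 1 ≤ r) (F : W ≃ₘ^r⟮I, I⟯ W) (A : Q × W → W)
    (hA : ContMDiff (𝓘(ℝ, Q).prod I) I r A) (hA0 : ∀ x, F x = A (0, x)) (p p' : W) (R : ℝ)
    (hR : 0 < R)
    (hball : Metric.closedBall (extChartAt I p p) (2 * R) ⊆ (extChartAt I p).target)
    (hball' : Metric.closedBall (extChartAt I p' p') (2 * R) ⊆ (extChartAt I p').target)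
    (U : Set (W ≃ₘ^r⟮I, I⟯ W)) (hU : U ∈ @nhds _ (crTopology I r) F) :
    ∃ (k : ℕ) (ε : ℝ), (k : ℕ∞) ≤ r ∧ 1 ≤ k ∧ 0 < ε ∧ ∀ t : Q, ‖t‖ ≤ ε → ∀ α β : E → E,
      ContDiff ℝ ∞ α → ContDiff ℝ ∞ β → (∀ j ≤ k, ∀ y, ‖iteratedFDeriv ℝ j α y‖ ≤ ε) →
      (∀ j ≤ k, ∀ y, ‖iteratedFDeriv ℝ j β y‖ ≤ ε) → (∀ y, R / 2 ≤ ‖y‖ → α y = 0) →
      (∀ y, R / 2 ≤ ‖y‖ → β y = 0) →
      ∀ G : W ≃ₘ^r⟮I, I⟯ W, (∀ q, G q = A (t, shf I p α (shf I p' β q))) → G ∈ U := by
  let 𝓖 : Filter (W ≃ₘ^r⟮I, I⟯ W) :=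
    { sets := {U | ∃ (k : ℕ) (ε : ℝ), (k : ℕ∞) ≤ r ∧ 1 ≤ k ∧ 0 < ε ∧ ∀ t : Q, ‖t‖ ≤ ε →
        ∀ α β : E → E,
        ContDiff ℝ ∞ α → ContDiff ℝ ∞ β → (∀ j ≤ k, ∀ y, ‖iteratedFDeriv ℝ j α y‖ ≤ ε) →
        (∀ j ≤ k, ∀ y, ‖iteratedFDeriv ℝ j β y‖ ≤ ε) →
        (∀ y, R / 2 ≤ ‖y‖ → α y = 0) → (∀ y, R / 2 ≤ ‖y‖ → β y = 0) →
        ∀ G : W ≃ₘ^r⟮I, I⟯ W, (∀ q, G q = A (t, shf I p α (shf I p' β q))) → G ∈ U}
      univ_sets := ⟨1, 1, by exact_mod_cast hr, le_rfl, one_pos,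
        fun _ _ _ _ _ _ _ _ _ _ _ _ => trivial⟩
      sets_of_superset := by
        rintro U V ⟨k, ε, h1, h2, h3, h4⟩ hUV
        exact ⟨k, ε, h1, h2, h3, fun t ht α β a a' b b' c c' G hG =>
          hUV (h4 t ht α β a a' b b' c c' G hG)⟩
      inter_sets := by
        rintro U V ⟨k, ε, h1, h2, h3, h4⟩ ⟨k', ε', h1', h2', h3', h4'⟩
        refine ⟨max k k', min ε ε', ?_, h2.trans (le_max_left _ _), lt_min h3 h3', ?_⟩
        · rcases max_choice k k' with h | h <;> rw [h] <;> assumption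
        · intro t ht α β a a' b b' c c' G hG
          exact ⟨h4 t (ht.trans (min_le_left _ _)) α β a a'
              (fun j hj y => (b j (hj.trans (le_max_left _ _)) y).trans
              (min_le_left _ _)) (fun j hj y => (b' j (hj.trans (le_max_left _ _)) y).trans
              (min_le_left _ _)) c c' G hG,
            h4' t (ht.trans (min_le_right _ _)) α β a a'
              (fun j hj y => (b j (hj.trans (le_max_right _ _)) y).trans
              (min_le_right _ _)) (fun j hj y => (b' j (hj.trans (le_max_right _ _)) y).trans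
              (min_le_right _ _)) c c' G hG⟩ }
  have hle : 𝓖 ≤ @nhds _ (crTopology I r) F := by
    show 𝓖 ≤ @nhds _ (TopologicalSpace.generateFrom _) F
    rw [TopologicalSpace.nhds_generateFrom]
    refine le_iInf₂ fun N hN => Filter.le_principal_iff.2 ?_
    obtain ⟨hFN, f, φ, ψ, K, ε, k, hkr, hφ, hψ, hK, hKφ, hfK, hε, rfl⟩ := hN
    have hm : ((max k 1 : ℕ) : ℕ∞) ≤ r := by
      rcases max_choice k 1 with h | h <;> rw [h]
      · exact hkr
      · exact_mod_cast hr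
    have hle : (((max k 1 : ℕ) : ℕ∞) : WithTop ℕ∞) ≤ (∞ : WithTop ℕ∞) := by
      exact_mod_cast le_top
    obtain ⟨cut, hcut, hcut1, hcut0⟩ := F7_cut E R hR
    let P : Type := CkB (max k 1) E E
    let S : P × E → E := fun z => z.2 + cut z.2 • fn z.1 z.2
    have hS : ContDiff ℝ (((max k 1 : ℕ) : ℕ∞) : WithTop ℕ∞) S :=
      contDiff_snd.add (((hcut.of_le hle).comp contDiff_snd).smul
        (F7_ev (r := max k 1) (X := E) (Y := E)))
    have hS1 : ∀ (t' : P) y, 2 * R ≤ ‖y‖ → S (t', y) = y := by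
      intro t' y hy
      show y + cut y • fn t' y = y
      rw [hcut0 y (by linarith), zero_smul, add_zero]
    have hS0 : ∀ y, S ((0 : P), y) = y := by
      intro y
      show y + cut y • fn (0 : CkB (max k 1) E E) y = y
      rw [F7_fn_zero, smul_zero, add_zero]
    let T : Type := Q × (P × P)
    let S₁ : T × E → E := fun z => S (z.1.2.1, z.2)
    let S₂ : T × E → E := fun z => S (z.1.2.2, z.2)
    have hS₁ : ContDiff ℝ (((max k 1 : ℕ) : ℕ∞) : WithTop ℕ∞) S₁ :=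
      hS.comp ((contDiff_fst.comp (contDiff_snd.comp contDiff_fst)).prodMk contDiff_snd)
    have hS₂ : ContDiff ℝ (((max k 1 : ℕ) : ℕ∞) : WithTop ℕ∞) S₂ :=
      hS.comp ((contDiff_snd.comp (contDiff_snd.comp contDiff_fst)).prodMk contDiff_snd)
    let Φ : T × W → W := fun x => A (x.1.1, trans2_tr I p (fun y => S₁ (x.1, y))
      (trans2_tr I p' (fun y => S₂ (x.1, y)) x.2))
    have hΦ : ∀ q, ContMDiffAt (𝓘(ℝ, T).prod I) I (((max k 1 : ℕ) : ℕ∞) : WithTop ℕ∞) Φ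
        ((0 : T), q) := by
      intro q
      have h2 := tr_smoothAt (I := I) (n := (((max k 1 : ℕ) : ℕ∞) : WithTop ℕ∞)) hle p' (2 * R)
        hball' S₂ (0 : T) (fun y => hS₂.contDiffAt) (fun t y hy => hS1 t.2.2 y hy)
        (fun y hy => by
          show ‖S ((0 : P), y)‖ < 2 * R
          rw [hS0]
          exact hy) q
      have e2 : trans2_tr I p' (fun y => S₂ ((0 : T), y)) q = q := F7_tr_id p' _ hS0 q
      have h1 := tr_smoothAt (I := I) (n := (((max k 1 : ℕ) : ℕ∞) : WithTop ℕ∞)) hle p (2 * R)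
        hball S₁ (0 : T) (fun y => hS₁.contDiffAt) (fun t y hy => hS1 t.2.1 y hy)
        (fun y hy => by
          show ‖S ((0 : P), y)‖ < 2 * R
          rw [hS0]
          exact hy) q
      have h3 : ContMDiffAt (𝓘(ℝ, T).prod I) (𝓘(ℝ, T).prod I)
          (((max k 1 : ℕ) : ℕ∞) : WithTop ℕ∞) (fun x : T × W =>
            (x.1, trans2_tr I p' (fun y => S₂ (x.1, y)) x.2)) ((0 : T), q) :=
        contMDiffAt_fst.prodMk h2
      have h4 : ContMDiffAt (𝓘(ℝ, T).prod I) I (((max k 1 : ℕ) : ℕ∞) : WithTop ℕ∞)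
          (fun x : T × W => trans2_tr I p (fun y => S₁ (x.1, y))
            (trans2_tr I p' (fun y => S₂ (x.1, y)) x.2)) ((0 : T), q) := by
        refine ContMDiffAt.comp (((0 : T), q) : T × W)
          (g := fun x : T × W => trans2_tr I p (fun y => S₁ (x.1, y)) x.2)
          (f := fun x : T × W => (x.1, trans2_tr I p' (fun y => S₂ (x.1, y)) x.2)) ?_ h3
        show ContMDiffAt _ _ _ _ ((0 : T), trans2_tr I p' (fun y => S₂ ((0 : T), y)) q)
        rw [e2]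
        exact h1
      have h5 : ContMDiff (𝓘(ℝ, T).prod I) 𝓘(ℝ, Q) (((max k 1 : ℕ) : ℕ∞) : WithTop ℕ∞)
          (fun x : T × W => x.1.1) :=
        (contDiff_fst.contMDiff (n := (((max k 1 : ℕ) : ℕ∞) : WithTop ℕ∞))).comp contMDiff_fst
      have h6 : ContMDiffAt (𝓘(ℝ, T).prod I) (𝓘(ℝ, Q).prod I)
          (((max k 1 : ℕ) : ℕ∞) : WithTop ℕ∞) (fun x : T × W => (x.1.1,
            trans2_tr I p (fun y => S₁ (x.1, y)) (trans2_tr I p' (fun y => S₂ (x.1, y)) x.2)))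
          ((0 : T), q) := h5.contMDiffAt.prodMk h4
      exact ContMDiffAt.comp (((0 : T), q) : T × W) (g := A)
        (f := fun x : T × W => (x.1.1, trans2_tr I p (fun y => S₁ (x.1, y))
          (trans2_tr I p' (fun y => S₂ (x.1, y)) x.2)))
        ((hA.of_le (by exact_mod_cast hm)).contMDiffAt) h6
    have hF0 : ∀ q, (qDown hm F) q = Φ ((0 : T), q) := by
      intro q
      show F q = A ((0 : Q), trans2_tr I p (fun y => S₁ ((0 : T), y))
        (trans2_tr I p' (fun y => S₂ ((0 : T), y)) q))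
      rw [show trans2_tr I p' (fun y => S₂ ((0 : T), y)) q = q from F7_tr_id p' _ hS0 q,
        show trans2_tr I p (fun y => S₁ ((0 : T), y)) q = q from F7_tr_id p _ hS0 q]
      exact hA0 q
    have hev := crNear_eventually Φ (0 : T) hΦ (qDown hm F) (qDown hm f) hF0 φ ψ hφ hψ K hK
      hKφ hfK k (by exact_mod_cast le_max_left k 1) ε hFN
    rw [Metric.eventually_nhds_iff] at hev
    obtain ⟨ε₀, hε₀, hev⟩ := hev
    refine ⟨max k 1, ε₀ / 2, hm, le_max_right _ _, by linarith, ?_⟩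
    intro t ht α β hα hβ hαε hβε hα0 hβ0 G hG
    obtain ⟨a, ha, haε⟩ := exists_CkB (r := max k 1) α (hα.of_le (by exact_mod_cast le_top))
      (ε₀ / 2) (by linarith) hαε
    obtain ⟨b, hb, hbε⟩ := exists_CkB (r := max k 1) β (hβ.of_le (by exact_mod_cast le_top))
      (ε₀ / 2) (by linarith) hβε
    have hSα : ∀ y, S ((a : P), y) = y + α y := by
      intro y
      show y + cut y • fn a y = y + α y
      rw [ha]
      by_cases h : ‖y‖ ≤ R / 2
      · rw [hcut1 y h, one_smul]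
      · push Not at h
        rw [hα0 y h.le, smul_zero]
    have hSβ : ∀ y, S ((b : P), y) = y + β y := by
      intro y
      show y + cut y • fn b y = y + β y
      rw [hb]
      by_cases h : ‖y‖ ≤ R / 2
      · rw [hcut1 y h, one_smul]
      · push Not at h
        rw [hβ0 y h.le, smul_zero]
    have h1 := hev (y := ((t, (a, b)) : T)) (by
      rw [dist_zero_right, Prod.norm_def, Prod.norm_def]
      exact max_lt (lt_of_le_of_lt ht (by linarith))
        (max_lt (lt_of_le_of_lt haε (by linarith)) (lt_of_le_of_lt hbε (by linarith))))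
    have h2 : (⇑G : W → W) = fun q => Φ (((t, (a, b)) : T), q) := by
      funext q
      rw [hG q]
      show A (t, trans2_tr I p (fun y => y + α y) (trans2_tr I p' (fun y => y + β y) q)) =
        A (t, trans2_tr I p (fun y => S ((a : P), y)) (trans2_tr I p' (fun y => S ((b : P), y)) q))
      simp only [hSα, hSβ]
    show CrNear I k f φ ψ K ε G
    rw [h2]
    exact h1
  exact hle hU

/-- Two bumps for a family. -/
theorem two_bumps_family {r : ℕ∞} (hr : 1 ≤ r) (F : W ≃ₘ^r⟮I, I⟯ W) (A : Q × W → W)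
    (hA : ContMDiff (𝓘(ℝ, Q).prod I) I r A) (hA0 : ∀ x, F x = A (0, x)) (p p' : W)
    (U : Set (W ≃ₘ^r⟮I, I⟯ W)) (hU : U ∈ @nhds _ (crTopology I r) F) :
    ∃ (k : ℕ) (c s₀ : ℝ), (k : ℕ∞) ≤ r ∧ 0 < c ∧ 0 < s₀ ∧ ∀ t : Q, ‖t‖ ≤ s₀ →
      ∀ G₀ : W ≃ₘ^r⟮I, I⟯ W, (∀ x, G₀ x = A (t, x)) → ∀ (P P' Q Q' : W) (s : ℝ),
      P ∈ (extChartAt I p).source → P' ∈ (extChartAt I p).source →
      ‖extChartAt I p P - extChartAt I p p‖ ≤ s₀ → ‖extChartAt I p P' - extChartAt I p p‖ ≤ s₀ →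
      Q ∈ (extChartAt I p').source → Q' ∈ (extChartAt I p').source →
      ‖extChartAt I p' Q - extChartAt I p' p'‖ ≤ s₀ →
      ‖extChartAt I p' Q' - extChartAt I p' p'‖ ≤ s₀ →
      0 < s → s ≤ s₀ → ‖extChartAt I p P - extChartAt I p P'‖ ≤ c * s ^ k →
      ‖extChartAt I p' Q - extChartAt I p' Q'‖ ≤ c * s ^ k →
      ∃ G ∈ U, ∃ B B' : W ≃ W, (∀ q, G q = G₀ (B (B' q))) ∧ B P' = P ∧ B' Q' = Q ∧
        (∀ q, B q ≠ q → q ∈ (extChartAt I p).source ∧ ‖extChartAt I p q - extChartAt I p P‖ < s) ∧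
        ∀ q, B' q ≠ q →
          q ∈ (extChartAt I p').source ∧ ‖extChartAt I p' q - extChartAt I p' Q‖ < s := by
  obtain ⟨R1, hR1, hb1⟩ :=
    Metric.nhds_basis_closedBall.mem_iff.1 (extChartAt_target_mem_nhds (I := I) p)
  obtain ⟨R2, hR2, hb2⟩ :=
    Metric.nhds_basis_closedBall.mem_iff.1 (extChartAt_target_mem_nhds (I := I) p')
  obtain ⟨R, hRdef⟩ : ∃ R : ℝ, R = min R1 R2 / 2 := ⟨_, rfl⟩
  have hR : 0 < R := by rw [hRdef]; exact half_pos (lt_min hR1 hR2)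
  have e2R : 2 * R = min R1 R2 := by rw [hRdef]; ring
  have hball : Metric.closedBall (extChartAt I p p) (2 * R) ⊆ (extChartAt I p).target := by
    rw [e2R]
    exact (Metric.closedBall_subset_closedBall (min_le_left _ _)).trans hb1
  have hball' : Metric.closedBall (extChartAt I p' p') (2 * R) ⊆ (extChartAt I p').target := by
    rw [e2R]
    exact (Metric.closedBall_subset_closedBall (min_le_right _ _)).trans hb2
  obtain ⟨k, ε, hkr, hk, hε, hnear⟩ := near_family hr F A hA hA0 p p' R hR hball hball' U hU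
  obtain ⟨c₁, hc₁, h1⟩ := quant_shift (I := I) (W := W) hr p R hball k hk ε hε
  obtain ⟨c₂, hc₂, h2⟩ := quant_shift (I := I) (W := W) hr p' R hball' k hk ε hε
  refine ⟨k, min c₁ c₂, min ε (min 1 (R / 4)), hkr, lt_min hc₁ hc₂,
    lt_min hε (lt_min one_pos (by linarith)), ?_⟩
  intro t ht G₀ hG₀ P P' Q Q' s a1 a2 a3 a4 b1 b2 b3 b4 hs hs0 a5 b5
  have m : min ε (min 1 (R / 4)) ≤ min 1 (R / 4) := min_le_right _ _
  obtain ⟨α, hα, hαj, hα0, D, hD, hDP, hDq⟩ := h1 P P' s a1 a2 (a3.trans m) (a4.trans m) hs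
    (hs0.trans m) (a5.trans (mul_le_mul_of_nonneg_right (min_le_left _ _) (by positivity)))
  obtain ⟨β, hβ, hβj, hβ0, D', hD', hDP', hDq'⟩ := h2 Q Q' s b1 b2 (b3.trans m) (b4.trans m) hs
    (hs0.trans m) (b5.trans (mul_le_mul_of_nonneg_right (min_le_right _ _) (by positivity)))
  refine ⟨(D'.trans D).trans G₀, hnear t (ht.trans (min_le_left _ _)) α β hα hβ hαj hβj hα0 hβ0 _
    (fun q => ?_), D.toEquiv, D'.toEquiv, fun q => rfl, hDP, hDP', hDq, hDq'⟩
  show G₀ (D (D' q)) = _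
  rw [hD' q, hD, hG₀]

end Pool.Agent.XM
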