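import Pool.Agent.Lib.MP_1e8d1a_an.XM.Sym1

/-! Closing from two orbit segments of a small perturbation in a given family. -/

open scoped ContDiff Manifold Topology
open Filter

namespace Pool.Agent.XM

open Pool.Agent.SC Pool.Agent.EQ

variable {E : Type} [NormedAddCommGroup E] [NormedSpace ℝ E] [FiniteDimensional ℝ E]
  {H : Type} [TopologicalSpace H] {I : ModelWithCorners ℝ E H} [I.Boundaryless]
  {W : Type} [TopologicalSpace W] [T2Space W] [ChartedSpace H W] [IsManifold I ∞ W] [CompactSpace W]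
  {Q : Type} [NormedAddCommGroup Q] [NormedSpace ℝ Q]

/-- **Closing from two orbit segments of a perturbation in a family.** -/
theorem closable_of_exchange_family {D : ℕ} {ι : W → Fin D → ℝ} (hι : IsEmb I ι) {r : ℕ∞}
    (hr : 1 ≤ r) (F₀ : W ≃ₘ^r⟮I, I⟯ W) (A : Q × W → W) (hA : ContMDiff (𝓘(ℝ, Q).prod I) I r A)
    (hA0 : ∀ x, F₀ x = A (0, x)) (p q : W) (hpq : p ≠ q)
    (hR : ∀ (k : ℕ) (ε η : ℝ), (k : ℕ∞) ≤ r → 0 < ε → 0 < η →
      ∃ (t : Q) (F : W ≃ₘ^r⟮I, I⟯ W) (x y : W) (N : ℕ) (δ : ℝ), ‖t‖ ≤ η ∧ (∀ z, F z = A (t, z)) ∧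
      1 ≤ N ∧ 0 < δ ∧ δ ≤ η ∧ ‖ι x - ι p‖ < η ∧ ‖ι y - ι q‖ < η ∧
      ‖ι ((F : W → W)^[N] x) - ι y‖ < ε * δ ^ k ∧ ‖ι ((F : W → W)^[N] y) - ι x‖ < ε * δ ^ k ∧
      ∀ j, 0 < j → j < N → δ ≤ ‖ι ((F : W → W)^[j] x) - ι x‖ ∧
        δ ≤ ‖ι ((F : W → W)^[j] x) - ι y‖ ∧ δ ≤ ‖ι ((F : W → W)^[j] y) - ι x‖ ∧
        δ ≤ ‖ι ((F : W → W)^[j] y) - ι y‖) : Closable I F₀ p := by
  apply closable_of_pairs F₀
  intro U hU V hV
  obtain ⟨k, c, s₀, hkr, hc, hs₀, hq⟩ := two_bumps_family hr F₀ A hA hA0 p q U hU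
  obtain ⟨C₁, ρ₁, κ₁, hC₁, hρ₁, hκ₁, hκ₁s, a1, a2, a3⟩ := hι.local_data p hs₀ hV
  obtain ⟨C₂, ρ₂, κ₂, hC₂, hρ₂, hκ₂, hκ₂s, b1, b2, b3⟩ :=
    hι.local_data q hs₀ (Filter.univ_mem : Set.univ ∈ 𝓝 q)
  obtain ⟨d, hd⟩ : ∃ d : ℝ, d = ‖ι p - ι q‖ := ⟨_, rfl⟩
  have hd0 : 0 < d := by
    rw [hd, norm_pos_iff, sub_ne_zero]
    exact fun h => hpq (hι.inj h)
  obtain ⟨C, hC⟩ : ∃ C : ℝ, C = max C₁ C₂ := ⟨_, rfl⟩
  have hCC₁ : C₁ ≤ C := by rw [hC]; exact le_max_left _ _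
  have hCC₂ : C₂ ≤ C := by rw [hC]; exact le_max_right _ _
  have hC1 : 1 ≤ C := hC₁.trans hCC₁
  have hC0 : 0 < C := by linarith
  obtain ⟨κ, hκ⟩ : ∃ κ : ℝ, κ = min (min κ₁ κ₂) (1 / C) := ⟨_, rfl⟩
  have hκ0 : 0 < κ := by rw [hκ]; exact lt_min (lt_min hκ₁ hκ₂) (by positivity)
  have hκκ₁ : κ ≤ κ₁ := by rw [hκ]; exact (min_le_left _ _).trans (min_le_left _ _)
  have hκκ₂ : κ ≤ κ₂ := by rw [hκ]; exact (min_le_left _ _).trans (min_le_right _ _)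
  have hκC : C * κ ≤ 1 := by
    calc C * κ ≤ C * (1 / C) := by
          refine mul_le_mul_of_nonneg_left ?_ hC0.le
          rw [hκ]; exact min_le_right _ _
      _ = 1 := by field_simp
  obtain ⟨η, hη⟩ : ∃ η : ℝ, η = min s₀ (min (min (ρ₁ / 2) (ρ₂ / 2)) (min (d / 8) 1)) := ⟨_, rfl⟩
  have hη0 : 0 < η := by
    rw [hη]
    exact lt_min hs₀ (lt_min (lt_min (by linarith) (by linarith)) (lt_min (by linarith) one_pos))
  have hηs : η ≤ s₀ := by rw [hη]; exact min_le_left _ _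
  have hη' : η ≤ min (min (ρ₁ / 2) (ρ₂ / 2)) (min (d / 8) 1) := by rw [hη]; exact min_le_right _ _
  have hη₁ : η ≤ ρ₁ / 2 := hη'.trans ((min_le_left _ _).trans (min_le_left _ _))
  have hη₂ : η ≤ ρ₂ / 2 := hη'.trans ((min_le_left _ _).trans (min_le_right _ _))
  have hηd : η ≤ d / 8 := hη'.trans ((min_le_right _ _).trans (min_le_left _ _))
  have hη1 : η ≤ 1 := hη'.trans ((min_le_right _ _).trans (min_le_right _ _))
  obtain ⟨ε, hε⟩ : ∃ ε : ℝ, ε = min (c * κ ^ k / C) η := ⟨_, rfl⟩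
  have hε0 : 0 < ε := by rw [hε]; exact lt_min (by positivity) hη0
  have hεη : ε ≤ η := by rw [hε]; exact min_le_right _ _
  have hεc : C * ε ≤ c * κ ^ k := by
    calc C * ε ≤ C * (c * κ ^ k / C) := by
          refine mul_le_mul_of_nonneg_left ?_ hC0.le
          rw [hε]; exact min_le_left _ _
      _ = c * κ ^ k := by field_simp
  obtain ⟨t, F, x, y, N, δ, ht, hF, hN, hδ, hδη, hx, hy, hxy, hyx, hiso⟩ := hR k ε η hkr hε0 hη0
  have hδ1 : δ ≤ 1 := hδη.trans hη1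
  have hδk0 : 0 < δ ^ k := pow_pos hδ k
  have hδk : δ ^ k ≤ 1 := pow_le_one₀ hδ.le hδ1
  have hεδ : ε * δ ^ k ≤ η := by
    calc ε * δ ^ k ≤ ε * 1 := mul_le_mul_of_nonneg_left hδk hε0.le
      _ = ε := mul_one ε
      _ ≤ η := hεη
  obtain ⟨x', hx'⟩ : ∃ x' : W, x' = (F : W → W)^[N] x := ⟨_, rfl⟩
  obtain ⟨y', hy'⟩ : ∃ y' : W, y' = (F : W → W)^[N] y := ⟨_, rfl⟩
  rw [← hx'] at hxy
  rw [← hy'] at hyx
  -- the positions of the four points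
  have px : ‖ι x - ι p‖ < ρ₁ := by linarith
  have py : ‖ι y - ι q‖ < ρ₂ := by linarith
  have py' : ‖ι y' - ι p‖ < 2 * η := by
    have e : ι y' - ι p = (ι y' - ι x) + (ι x - ι p) := by abel
    rw [e]
    have := norm_add_le (ι y' - ι x) (ι x - ι p)
    linarith
  have px' : ‖ι x' - ι q‖ < 2 * η := by
    have e : ι x' - ι q = (ι x' - ι y) + (ι y - ι q) := by abel
    rw [e]
    have := norm_add_le (ι x' - ι y) (ι y - ι q)
    linarith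
  have py'₁ : ‖ι y' - ι p‖ < ρ₁ := by linarith
  have px'₂ : ‖ι x' - ι q‖ < ρ₂ := by linarith
  -- far from each other
  have far : ∀ u v : W, ‖ι u - ι p‖ < 2 * η → ‖ι v - ι q‖ < 2 * η → δ ≤ ‖ι u - ι v‖ := by
    intro u v hu hv
    have e : ι p - ι q = -(ι u - ι p) + (ι u - ι v) + (ι v - ι q) := by abel
    have h1 : d ≤ ‖ι u - ι p‖ + ‖ι u - ι v‖ + ‖ι v - ι q‖ := by
      rw [hd, e]
      refine (norm_add_le _ _).trans ?_
      have h2 := norm_add_le (-(ι u - ι p)) (ι u - ι v)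
      rw [norm_neg] at h2
      linarith
    linarith
  -- the size of the bumps
  obtain ⟨σ, hσ⟩ : ∃ σ : ℝ, σ = κ * δ := ⟨_, rfl⟩
  have hσ0 : 0 < σ := by rw [hσ]; positivity
  have hσκ : σ ≤ κ := by
    rw [hσ]
    calc κ * δ ≤ κ * 1 := mul_le_mul_of_nonneg_left hδ1 hκ0.le
      _ = κ := mul_one κ
  have hCσ : C * σ ≤ δ := by
    calc C * σ = C * κ * δ := by rw [hσ]; ring
      _ ≤ 1 * δ := mul_le_mul_of_nonneg_right hκC hδ.le
      _ = δ := one_mul δ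
  have hclose : ∀ t : ℝ, t < ε * δ ^ k → C * t ≤ c * σ ^ k := by
    intro t ht
    calc C * t ≤ C * (ε * δ ^ k) := mul_le_mul_of_nonneg_left ht.le hC0.le
      _ = C * ε * δ ^ k := by ring
      _ ≤ c * κ ^ k * δ ^ k := mul_le_mul_of_nonneg_right hεc hδk0.le
      _ = c * σ ^ k := by rw [hσ, mul_pow]; ring
  obtain ⟨-, sx, nx⟩ := a1 x px
  obtain ⟨hyV, sy', ny'⟩ := a1 y' py'₁
  obtain ⟨-, sy, ny⟩ := b1 y py
  obtain ⟨-, sx', nx'⟩ := b1 x' px'₂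
  have cx : ‖extChartAt I p x - extChartAt I p y'‖ ≤ c * σ ^ k := by
    refine (a2 x y' px py'₁).trans (le_trans ?_ (hclose _ hyx))
    rw [norm_sub_rev (ι x)]
    exact mul_le_mul_of_nonneg_right hCC₁ (norm_nonneg _)
  have cy : ‖extChartAt I q y - extChartAt I q x'‖ ≤ c * σ ^ k := by
    refine (b2 y x' py px'₂).trans (le_trans ?_ (hclose _ hxy))
    rw [norm_sub_rev (ι y)]
    exact mul_le_mul_of_nonneg_right hCC₂ (norm_nonneg _)
  obtain ⟨G, hG, B, B', hGB, hB, hB', hBq, hBq'⟩ := hq t (ht.trans hηs) F hF x y' y x' σ sx sy' nx ny' sy sx' ny nx' hσ0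
    (hσκ.trans (hκκ₁.trans hκ₁s)) cx cy
  have fixB : ∀ w, δ ≤ ‖ι w - ι x‖ → B w = w := by
    intro w hw
    by_contra hne
    obtain ⟨h1, h2⟩ := hBq w hne
    have h3 := a3 x w σ px (hσκ.trans hκκ₁) h1 h2
    have h4 : C₁ * σ ≤ C * σ := mul_le_mul_of_nonneg_right hCC₁ hσ0.le
    linarith
  have fixB' : ∀ w, δ ≤ ‖ι w - ι y‖ → B' w = w := by
    intro w hw
    by_contra hne
    obtain ⟨h1, h2⟩ := hBq' w hne
    have h3 := b3 y w σ py (hσκ.trans hκκ₂) h1 h2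
    have h4 : C₂ * σ ≤ C * σ := mul_le_mul_of_nonneg_right hCC₂ hσ0.le
    linarith
  have e1 : B (B' y') = x := by
    rw [fixB' y' (far y' y py' (by linarith)), hB]
  have e2 : B (B' x') = y := by
    rw [hB', fixB y]
    rw [norm_sub_rev]
    exact far x y (by linarith) (by linarith)
  have hit : ∀ (z z' : W), (∀ j, 0 < j → j < N → δ ≤ ‖ι ((F : W → W)^[j] z) - ι x‖ ∧
      δ ≤ ‖ι ((F : W → W)^[j] z) - ι y‖) → B (B' z') = z → ∀ i, 0 < i → i ≤ N →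
      (G : W → W)^[i] z' = (F : W → W)^[i] z := by
    intro z z' hz hzz i
    induction i with
    | zero => intro h0; exact absurd h0 (lt_irrefl 0)
    | succ n ih =>
      intro _ hn
      rcases Nat.eq_zero_or_pos n with rfl | hn0
      · rw [zero_add, Function.iterate_one, hGB, hzz, Function.iterate_one]
      · obtain ⟨h1, h2⟩ := hz n hn0 (by omega)
        rw [Function.iterate_succ_apply', ih hn0 (by omega), hGB, fixB' _ h2, fixB _ h1,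
          Function.iterate_succ_apply']
  have g1 : (G : W → W)^[N] y' = x' := by
    rw [hit x y' (fun j hj hjN => ⟨(hiso j hj hjN).1, (hiso j hj hjN).2.1⟩) e1 N hN le_rfl, ← hx']
  have g2 : (G : W → W)^[N] x' = y' := by
    rw [hit y x' (fun j hj hjN => ⟨(hiso j hj hjN).2.2.1, (hiso j hj hjN).2.2.2⟩) e2 N hN le_rfl,
      ← hy']
  refine ⟨G, hG, y', hyV, fun U' hU' => ?_⟩
  refine ⟨G, @mem_of_mem_nhds _ (crTopology I r) _ _ hU', N + N, by omega, ?_⟩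
  rw [Function.iterate_add_apply, g1, g2]

end Pool.Agent.XM
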