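import Pool.Agent.Lib.MP_1e8d1a_an.IR.Defs
import Pool.Agent.Lib.MP_1e8d1a_an.XM.Defs

/-! Extensions by a compact connected group of symmetries: definitions. -/

open scoped ContDiff Manifold Topology

namespace Pool.Agent.XM

open Pool.Agent.SC

variable {E : Type} [NormedAddCommGroup E] [NormedSpace ℝ E] {H : Type} [TopologicalSpace H]
  (I : ModelWithCorners ℝ E H) {W : Type} [TopologicalSpace W] [ChartedSpace H W]

/-- `F` is an extension of `Φ` by a compact connected group of symmetries of class `C^r`: `π F = Φ π`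
and the fibres of `π` are the orbits of the family `ψ` of symmetries of `F`. For the distances
`‖ι x - ι y‖` of `W` and `‖κ a - κ b‖` of `X`, `π` and the symmetries are Lipschitz with the constant
`L`, and every `x` has a point over `a` at a distance at most `L` times that of `π x` and `a`. -/
structure LipExt (r : ℕ∞) {D D' : ℕ} (ι : W → Fin D → ℝ) (F : W → W) {X : Type}
    (κ : X → Fin D' → ℝ) (Φ : X → X) (π : W → X) {P : Type} [NormedAddCommGroup P]
    [NormedSpace ℝ P] (ψ : P × W → W) (R L : ℝ) : Prop where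
  sym : SymmetryFamily I r F ψ R
  semi : ∀ x, π (F x) = Φ (π x)
  inv : ∀ v x, π (ψ (v, x)) = π x
  fib : ∀ x x', π x = π x' → ∃ v, ψ (v, x) = x'
  lip : ∀ x x', ‖κ (π x) - κ (π x')‖ ≤ L * ‖ι x - ι x'‖
  lift : ∀ x a, ∃ x', π x' = a ∧ ‖ι x' - ι x‖ ≤ L * ‖κ a - κ (π x)‖
  equi : ∀ v x x', ‖ι (ψ (v, x)) - ι (ψ (v, x'))‖ ≤ L * ‖ι x - ι x'‖

end Pool.Agent.XM
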