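import Pool.Agent.Lib.MP_1e8d1a_an.XM.Sym2
import Pool.Agent.Lib.MP_1e8d1a_an.XM.SymDefs
import Pool.Agent.Lib.MP_1e8d1a_an.XM.Q2

/-! Extensions of mixing maps by compact connected groups of symmetries can be closed. -/

open scoped ContDiff Manifold Topology
open Filter MeasureTheory

namespace Pool.Agent.XM

open Pool.Agent.SC

variable {E : Type} [NormedAddCommGroup E] [NormedSpace ℝ E]
  {H : Type} [TopologicalSpace H] {I : ModelWithCorners ℝ E H}
  {W : Type} [TopologicalSpace W] [ChartedSpace H W]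
  {P : Type} [NormedAddCommGroup P] [NormedSpace ℝ P]

/-- The maps `x ↦ ψ (t, F x)` and their iterates. -/
theorem exists_symPert {r : ℕ∞} (F : W ≃ₘ^r⟮I, I⟯ W) {ψ : P × W → W} {R : ℝ}
    (hψ : SymmetryFamily I r F ψ R) (t : P) :
    ∃ G : W ≃ₘ^r⟮I, I⟯ W, (∀ x, G x = ψ (t, F x)) ∧
      ∀ (i : ℕ) (x : W), (G : W → W)^[i] x = ψ ((i : ℝ) • t, (F : W → W)^[i] x) := by
  let G₀ : W ≃ₘ^r⟮I, I⟯ W :=
    { toFun := fun x => ψ (t, x)
      invFun := fun x => ψ ((-1 : ℝ) • t, x)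
      left_inv := fun x => by
        have h3 := hψ.add (-1) 1 t x
        rw [neg_add_cancel, zero_smul, hψ.zero, one_smul] at h3
        exact h3.symm
      right_inv := fun x => by
        have h3 := hψ.add 1 (-1) t x
        rw [add_neg_cancel, zero_smul, hψ.zero, one_smul] at h3
        exact h3.symm
      contMDiff_toFun := hψ.smooth.comp (contMDiff_const.prodMk contMDiff_id)
      contMDiff_invFun := hψ.smooth.comp (contMDiff_const.prodMk contMDiff_id) }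
  have hG : ∀ x, (F.trans G₀) x = ψ (t, F x) := fun x => rfl
  refine ⟨F.trans G₀, hG, fun i => ?_⟩
  induction i with
  | zero =>
    intro x
    simp [hψ.zero]
  | succ i ih =>
    intro x
    rw [Function.iterate_succ_apply', ih, hG, hψ.comm, Function.iterate_succ_apply']
    have h3 := hψ.add 1 (i : ℝ) t (F ((F : W → W)^[i] x))
    rw [one_smul] at h3
    rw [← h3]
    congr 3
    push_cast
    ring

variable {X : Type} {D D' : ℕ} {ι : W → Fin D → ℝ} {κ : X → Fin D' → ℝ} {Φ : X → X} {π : W → X}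
  {ψ : P × W → W} {R L : ℝ}

/-- **The lift of an exchange of two points.** -/
theorem LipExt.exchange {r : ℕ∞} (F : W ≃ₘ^r⟮I, I⟯ W) (h : LipExt I r ι F κ Φ π ψ R L)
    (hL : 1 ≤ L) (p : W) (a b : X) (N : ℕ) (hN : 1 ≤ N) (e : ℝ)
    (h1 : ‖κ (Φ^[N] a) - κ b‖ < e) (h2 : ‖κ (Φ^[N] b) - κ a‖ < e) :
    ∃ (t : P) (G : W ≃ₘ^r⟮I, I⟯ W) (x y : W), ‖t‖ ≤ R / N ∧ (∀ z, G z = ψ (t, F z)) ∧
      π x = a ∧ π y = b ∧ ‖ι x - ι p‖ ≤ L * ‖κ a - κ (π p)‖ ∧
      ‖ι ((G : W → W)^[N] x) - ι y‖ < L * (L * e) ∧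
      ‖ι ((G : W → W)^[N] y) - ι x‖ < L * (L * e) ∧
      ∀ j z, π ((G : W → W)^[j] z) = Φ^[j] (π z) := by
  have hL0 : 0 < L := by linarith
  have hit : ∀ n x, π ((F : W → W)^[n] x) = Φ^[n] (π x) := by
    intro n
    induction n with
    | zero => intro x; rfl
    | succ n ih =>
      intro x
      rw [Function.iterate_succ_apply', Function.iterate_succ_apply', h.semi, ih]
  have hcomm : ∀ n v x, (F : W → W)^[n] (ψ (v, x)) = ψ (v, (F : W → W)^[n] x) := by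
    intro n v
    induction n with
    | zero => intro x; rfl
    | succ n ih =>
      intro x
      rw [Function.iterate_succ_apply', Function.iterate_succ_apply', ih, h.sym.comm]
  obtain ⟨x, hx, hxp⟩ := h.lift p a
  obtain ⟨y₀, hy₀, hy₀x⟩ := h.lift ((F : W → W)^[N] x) b
  obtain ⟨z, hz, hzx⟩ := h.lift x (Φ^[N] b)
  rw [hit, hx] at hy₀x
  rw [hx] at hzx
  have h3 : π ((F : W → W)^[N] y₀) = π z := by rw [hit, hy₀, hz]
  obtain ⟨u₀, hu₀⟩ := h.fib _ _ h3
  obtain ⟨u, huR, hu⟩ := h.sym.bound u₀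
  rw [hu] at hu₀
  have hN0 : (0 : ℝ) < N := by exact_mod_cast hN
  obtain ⟨t, ht⟩ : ∃ t : P, t = (1 / (2 * (N : ℝ))) • u := ⟨_, rfl⟩
  obtain ⟨G, hG, hGi⟩ := exists_symPert F h.sym t
  have htN : (N : ℝ) • t = (1 / 2 : ℝ) • u := by
    rw [ht, smul_smul]
    congr 1
    field_simp
  have hsum : ∀ w, ψ ((1 / 2 : ℝ) • u, ψ ((1 / 2 : ℝ) • u, w)) = ψ (u, w) := by
    intro w
    have h4 := h.sym.add (1 / 2) (1 / 2) u w
    rw [← h4]
    norm_num
  refine ⟨t, G, x, ψ ((1 / 2 : ℝ) • u, y₀), ?_, hG, hx, ?_, hxp, ?_, ?_, ?_⟩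
  · have hR0 : 0 ≤ R := (norm_nonneg u).trans huR
    rw [ht, norm_smul, Real.norm_eq_abs, abs_of_pos (by positivity), one_div_mul_eq_div,
      div_le_div_iff₀ (by positivity) hN0]
    nlinarith
  · rw [h.inv, hy₀]
  · rw [hGi, htN]
    refine (h.equi _ _ _).trans_lt (mul_lt_mul_of_pos_left ?_ hL0)
    rw [norm_sub_rev]
    refine hy₀x.trans_lt (mul_lt_mul_of_pos_left ?_ hL0)
    rw [norm_sub_rev]
    exact h1
  · rw [hGi, htN, hcomm, hsum, hu₀]
    have he : 0 < L * e := mul_pos hL0 ((norm_nonneg _).trans_lt h1)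
    refine (hzx.trans_lt (mul_lt_mul_of_pos_left h2 hL0)).trans_le ?_
    exact le_mul_of_one_le_left he.le hL
  · intro j w
    rw [hGi, h.inv, hit]

/-- A point which is periodic up to symmetries can be closed. -/
theorem LipExt.closable_periodic [FiniteDimensional ℝ E] [IsManifold I ∞ W] [I.Boundaryless]
    {r : ℕ∞} (F : W ≃ₘ^r⟮I, I⟯ W) (h : LipExt I r ι F κ Φ π ψ R L) (p : W)
    (hp : ∃ m : ℕ, 0 < m ∧ Φ^[m] (π p) = π p) : Closable I F p := by
  intro U hU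
  have hit : ∀ n x, π ((F : W → W)^[n] x) = Φ^[n] (π x) := by
    intro n
    induction n with
    | zero => intro x; rfl
    | succ n ih =>
      intro x
      rw [Function.iterate_succ_apply', Function.iterate_succ_apply', h.semi, ih]
  have hfst : ContMDiff (𝓘(ℝ, P).prod I) 𝓘(ℝ, P) r (fun x : P × W => x.1) := contMDiff_fst
  have hA : ContMDiff (𝓘(ℝ, P).prod I) I r (fun x : P × W => ψ (x.1, F x.2)) :=
    h.sym.smooth.comp (hfst.prodMk (F.contMDiff.comp contMDiff_snd))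
  have hev := mem_nhds_of_family (fun x : P × W => ψ (x.1, F x.2)) 0 (fun q => hA.contMDiffAt) F
    (fun q => (h.sym.zero _).symm) U hU
  rw [Metric.eventually_nhds_iff] at hev
  obtain ⟨ε, hε, hev⟩ := hev
  obtain ⟨m, hm, hmp⟩ := hp
  obtain ⟨j, hj⟩ := exists_nat_gt (R / ε)
  obtain ⟨n, hn⟩ : ∃ n : ℕ, n = m * (j + 1) := ⟨_, rfl⟩
  have hn0 : 0 < n := by rw [hn]; exact Nat.mul_pos hm (Nat.succ_pos j)
  have hjn : j ≤ n := by
    rw [hn]
    calc j ≤ 1 * (j + 1) := by omega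
      _ ≤ m * (j + 1) := Nat.mul_le_mul_right _ hm
  have hnp : Φ^[n] (π p) = π p := by
    have h4 : Function.IsPeriodicPt Φ m (π p) := hmp
    rw [hn]
    exact h4.mul_const (j + 1)
  obtain ⟨u₀, hu₀⟩ := h.fib ((F : W → W)^[n] p) p (by rw [hit, hnp])
  obtain ⟨u, huR, hu⟩ := h.sym.bound u₀
  rw [hu] at hu₀
  have hn0' : (0 : ℝ) < n := by exact_mod_cast hn0
  obtain ⟨t, ht⟩ : ∃ t : P, t = (1 / (n : ℝ)) • u := ⟨_, rfl⟩
  obtain ⟨G, hG, hGi⟩ := exists_symPert F h.sym t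
  refine ⟨G, hev (y := t) ?_ G hG, n, hn0, ?_⟩
  · rw [dist_zero_right, ht, norm_smul, Real.norm_eq_abs, abs_of_pos (by positivity),
      one_div_mul_eq_div, div_lt_iff₀ hn0']
    have h5 : R / ε < n := hj.trans_le (by exact_mod_cast hjn)
    rw [div_lt_iff₀ hε] at h5
    linarith
  · rw [hGi, ht, smul_smul, mul_one_div_cancel hn0'.ne', one_smul, hu₀]

end Pool.Agent.XM
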