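import Pool.Agent.Lib.MP_1e8d1a_an.XM.E3
import Pool.Agent.Lib.MP_1e8d1a_an.IR.Defs

/-! The symmetries of a family with a finite dimensional parameter have a common Lipschitz constant. -/

open scoped ContDiff Manifold Topology

namespace Pool.Agent.XM

open Pool.Agent.SC

variable {E : Type} [NormedAddCommGroup E] [NormedSpace ℝ E] {H : Type} [TopologicalSpace H]
  {I : ModelWithCorners ℝ E H} {W : Type} [TopologicalSpace W] [ChartedSpace H W]
  {P : Type} [NormedAddCommGroup P] [NormedSpace ℝ P]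

/-- A family of maps of class `C¹` is locally equi-Lipschitz. -/
theorem equi_local [FiniteDimensional ℝ E] [IsManifold I ∞ W] [I.Boundaryless] {D : ℕ}
    {ι : W → Fin D → ℝ} (h : IsEmb I ι) {ψ : P × W → W}
    (hψ : ContMDiff (𝓘(ℝ, P).prod I) I 1 ψ) (v : P) (x : W) :
    ∃ L : ℝ, ∀ᶠ w : P × W × W in 𝓝 (v, x, x),
      ‖ι (ψ (w.1, w.2.1)) - ι (ψ (w.1, w.2.2))‖ ≤ L * ‖ι w.2.1 - ι w.2.2‖ := by
  obtain ⟨K, R₁, hK, hR, hc⟩ := h.chart_compare x
  obtain ⟨K', R', hK', hR', hc'⟩ := h.chart_compare (ψ (v, x))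
  have hψc : Continuous ψ := hψ.continuous
  have h1 := ((contMDiffAt_iff).1 (hψ (v, x))).2
  rw [(𝓘(ℝ, P).prod I).range_eq_univ, contDiffWithinAt_univ] at h1
  obtain ⟨L, s, hs, hL⟩ := h1.exists_lipschitzOnWith
  have hs' : s ∈ 𝓝 ((v, extChartAt I x x) : P × E) := hs
  have hL' : ∀ u ∈ s, ∀ u' ∈ s,
      ‖extChartAt I (ψ (v, x)) (ψ (u.1, (extChartAt I x).symm u.2)) -
        extChartAt I (ψ (v, x)) (ψ (u'.1, (extChartAt I x).symm u'.2))‖ ≤ L * ‖u - u'‖ :=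
    fun u hu u' hu' => hL.norm_sub_le hu hu'
  have hP : ∀ᶠ u : P × W in 𝓝 (v, x), u.2 ∈ (extChartAt I x).source ∧
      (u.1, extChartAt I x u.2) ∈ s ∧ ‖extChartAt I x u.2 - extChartAt I x x‖ < R₁ ∧
      ψ u ∈ (extChartAt I (ψ (v, x))).source ∧
      ‖extChartAt I (ψ (v, x)) (ψ u) - extChartAt I (ψ (v, x)) (ψ (v, x))‖ < R' := by
    have c0 : ContinuousAt (fun u : P × W => u.2) (v, x) := continuousAt_snd
    have c1 : ContinuousAt (fun u : P × W => extChartAt I x u.2) (v, x) :=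
      ContinuousAt.comp (f := fun u : P × W => u.2) (g := extChartAt I x)
        (continuousAt_extChartAt x) c0
    have c2 : ContinuousAt (fun u : P × W => extChartAt I (ψ (v, x)) (ψ u)) (v, x) :=
      ContinuousAt.comp (f := ψ) (g := extChartAt I (ψ (v, x)))
        (continuousAt_extChartAt (ψ (v, x))) hψc.continuousAt
    have c3 : ContinuousAt (fun u : P × W => (u.1, extChartAt I x u.2)) (v, x) :=
      continuousAt_fst.prodMk c1
    have e1 : ∀ᶠ u : P × W in 𝓝 (v, x), u.2 ∈ (extChartAt I x).source :=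
      c0.eventually (extChartAt_source_mem_nhds x)
    have e2 : ∀ᶠ u : P × W in 𝓝 (v, x), (u.1, extChartAt I x u.2) ∈ s := c3.eventually hs'
    have e3 : ∀ᶠ u : P × W in 𝓝 (v, x), ‖extChartAt I x u.2 - extChartAt I x x‖ < R₁ := by
      have := c1.eventually (Metric.ball_mem_nhds (extChartAt I x x) hR)
      filter_upwards [this] with u hu
      rwa [dist_eq_norm] at hu
    have e4 : ∀ᶠ u : P × W in 𝓝 (v, x), ψ u ∈ (extChartAt I (ψ (v, x))).source :=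
      hψc.continuousAt.eventually (extChartAt_source_mem_nhds (ψ (v, x)))
    have e5 : ∀ᶠ u : P × W in 𝓝 (v, x),
        ‖extChartAt I (ψ (v, x)) (ψ u) - extChartAt I (ψ (v, x)) (ψ (v, x))‖ < R' := by
      have := c2.eventually (Metric.ball_mem_nhds (extChartAt I (ψ (v, x)) (ψ (v, x))) hR')
      filter_upwards [this] with u hu
      rwa [dist_eq_norm] at hu
    filter_upwards [e1, e2, e3, e4, e5] with u a1 a2 a3 a4 a5
    exact ⟨a1, a2, a3, a4, a5⟩
  refine ⟨K' * (L * K), ?_⟩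
  have q1 : Continuous fun w : P × W × W => (w.1, w.2.1) := by fun_prop
  have q2 : Continuous fun w : P × W × W => (w.1, w.2.2) := by fun_prop
  have p1 := (q1.continuousAt (x := (v, x, x))).eventually hP
  have p2 := (q2.continuousAt (x := (v, x, x))).eventually hP
  filter_upwards [p1, p2] with w ⟨a1, a2, a3, a4, a5⟩ ⟨b1, b2, b3, b4, b5⟩
  obtain ⟨-, -, q1⟩ := hc _ _ a3 b3
  obtain ⟨-, q2, -⟩ := hc' _ _ a5 b5
  rw [(extChartAt I x).left_inv a1, (extChartAt I x).left_inv b1] at q1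
  rw [(extChartAt I (ψ (v, x))).left_inv a4, (extChartAt I (ψ (v, x))).left_inv b4] at q2
  have q3 := hL' _ a2 _ b2
  simp only at q3
  rw [(extChartAt I x).left_inv a1, (extChartAt I x).left_inv b1] at q3
  have q4 : ‖(w.1, extChartAt I x w.2.1) - (w.1, extChartAt I x w.2.2)‖ ≤
      ‖extChartAt I x w.2.1 - extChartAt I x w.2.2‖ := by
    rw [Prod.mk_sub_mk, sub_self, Prod.norm_def, norm_zero]
    exact max_le (norm_nonneg _) le_rfl
  have hL0 : (0 : ℝ) ≤ L := L.2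
  have hK0 : (0 : ℝ) ≤ K' := by linarith
  calc ‖ι (ψ (w.1, w.2.1)) - ι (ψ (w.1, w.2.2))‖
      ≤ K' * ‖extChartAt I (ψ (v, x)) (ψ (w.1, w.2.1)) -
          extChartAt I (ψ (v, x)) (ψ (w.1, w.2.2))‖ := q2
    _ ≤ K' * (L * ‖extChartAt I x w.2.1 - extChartAt I x w.2.2‖) :=
        mul_le_mul_of_nonneg_left (q3.trans (mul_le_mul_of_nonneg_left q4 hL0)) hK0
    _ ≤ K' * (L * (K * ‖ι w.2.1 - ι w.2.2‖)) :=
        mul_le_mul_of_nonneg_left (mul_le_mul_of_nonneg_left q1 hL0) hK0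
    _ = K' * (L * K) * ‖ι w.2.1 - ι w.2.2‖ := by ring

/-- A family of maps of class `C¹` is equi-Lipschitz on balls of parameters. -/
theorem equi_ball [FiniteDimensional ℝ E] [IsManifold I ∞ W] [I.Boundaryless] [CompactSpace W]
    [T2Space W] [FiniteDimensional ℝ P] {D : ℕ} {ι : W → Fin D → ℝ} (h : IsEmb I ι)
    {ψ : P × W → W} (hψ : ContMDiff (𝓘(ℝ, P).prod I) I 1 ψ) (R : ℝ) :
    ∃ L : ℝ, ∀ v, ‖v‖ ≤ R → ∀ x x', ‖ι (ψ (v, x)) - ι (ψ (v, x'))‖ ≤ L * ‖ι x - ι x'‖ := by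
  have hι : Continuous ι := h.smooth.continuous
  obtain ⟨B0, hB0⟩ := (isCompact_range hι).isBounded.exists_norm_le
  obtain ⟨B, hB1, hB⟩ : ∃ B : ℝ, 0 ≤ B ∧ ∀ x, ‖ι x‖ ≤ B :=
    ⟨max B0 0, le_max_right _ _, fun x => (hB0 _ ⟨x, rfl⟩).trans (le_max_left _ _)⟩
  have hcont : Continuous fun w : P × W × W => ‖ι w.2.1 - ι w.2.2‖ :=
    ((hι.comp (continuous_fst.comp continuous_snd)).sub
      (hι.comp (continuous_snd.comp continuous_snd))).norm
  have claim : ∀ z : P × W × W, ∃ L : ℝ, 0 ≤ L ∧ ∀ᶠ w in 𝓝 z,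
      ‖ι (ψ (w.1, w.2.1)) - ι (ψ (w.1, w.2.2))‖ ≤ L * ‖ι w.2.1 - ι w.2.2‖ := by
    rintro ⟨v, x, y⟩
    by_cases hxy : x = y
    · subst hxy
      obtain ⟨L, hL⟩ := equi_local h hψ v x
      refine ⟨max L 0, le_max_right _ _, hL.mono fun w hw => hw.trans ?_⟩
      exact mul_le_mul_of_nonneg_right (le_max_left _ _) (norm_nonneg _)
    · have hc : 0 < ‖ι x - ι y‖ := norm_pos_iff.2 (sub_ne_zero.2 fun h' => hxy (h.inj h'))
      refine ⟨4 * B / ‖ι x - ι y‖, by positivity, ?_⟩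
      have h1 : ∀ᶠ w : P × W × W in 𝓝 (v, x, y), ‖ι x - ι y‖ / 2 < ‖ι w.2.1 - ι w.2.2‖ :=
        hcont.continuousAt.eventually (lt_mem_nhds (by
          show ‖ι x - ι y‖ / 2 < ‖ι x - ι y‖
          linarith))
      refine h1.mono fun w hw => ?_
      have h2 : ‖ι (ψ (w.1, w.2.1)) - ι (ψ (w.1, w.2.2))‖ ≤ 2 * B := by
        refine (norm_sub_le _ _).trans ?_
        have := hB (ψ (w.1, w.2.1))
        have := hB (ψ (w.1, w.2.2))
        linarith
      refine h2.trans ?_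
      calc 2 * B = 4 * B / ‖ι x - ι y‖ * (‖ι x - ι y‖ / 2) := by field_simp; ring
        _ ≤ 4 * B / ‖ι x - ι y‖ * ‖ι w.2.1 - ι w.2.2‖ :=
            mul_le_mul_of_nonneg_left hw.le (by positivity)
  choose L hL0 hL using claim
  have hK : IsCompact (Metric.closedBall (0 : P) R ×ˢ (Set.univ : Set (W × W))) :=
    (isCompact_closedBall 0 R).prod isCompact_univ
  obtain ⟨t, -, ht⟩ := hK.elim_nhds_subcover
    (fun z : P × W × W => {w : P × W × W |
      ‖ι (ψ (w.1, w.2.1)) - ι (ψ (w.1, w.2.2))‖ ≤ L z * ‖ι w.2.1 - ι w.2.2‖}) (fun z _ => hL z)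
  refine ⟨∑ z ∈ t, L z, fun v hv x y => ?_⟩
  have h1 : (v, x, y) ∈ Metric.closedBall (0 : P) R ×ˢ (Set.univ : Set (W × W)) :=
    ⟨by simpa using hv, Set.mem_univ _⟩
  have h2 := ht h1
  rw [Set.mem_iUnion₂] at h2
  obtain ⟨z, hz, h3⟩ := h2
  refine le_trans h3 (mul_le_mul_of_nonneg_right ?_ (norm_nonneg _))
  exact Finset.single_le_sum (fun z _ => hL0 z) hz

/-- The symmetries of a family with a finite dimensional parameter are equi-Lipschitz. -/
theorem equi_sym [FiniteDimensional ℝ E] [IsManifold I ∞ W] [I.Boundaryless] [CompactSpace W]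
    [T2Space W] [FiniteDimensional ℝ P] {D : ℕ} {ι : W → Fin D → ℝ} (h : IsEmb I ι)
    {ψ : P × W → W} {r : ℕ∞} (hr : 1 ≤ r) {F : W → W} {R : ℝ} (hψ : SymmetryFamily I r F ψ R) :
    ∃ L : ℝ, ∀ v x x', ‖ι (ψ (v, x)) - ι (ψ (v, x'))‖ ≤ L * ‖ι x - ι x'‖ := by
  obtain ⟨L, hL⟩ := equi_ball h (hψ.smooth.of_le (by exact_mod_cast hr)) R
  refine ⟨L, fun v x x' => ?_⟩
  obtain ⟨v', hv', he⟩ := hψ.bound v
  rw [he, he]
  exact hL v' hv' x x'

end Pool.Agent.XM
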